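import Mathlib
import Pool.Agent.H790R3.RB.St3
import Pool.Agent.H790R3.RB.Basic

/-! Project RD (helper757, MP_8f2e1c_an): the distance of a rational map to the hyperbolic maps is
bounded by a power of the area of its Julia set. Definitions: systems in which infinity is a
noncritical fixed point and the marked attracting cycles have finite base points; two base points
`0` and `1` of the plane are attracted as well. Adapted from `Pool.Agent.W757.RC.Defs`. -/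

set_option autoImplicit false

open Topology Filter Metric Set MeasureTheory
open Pool.Agent.H790R3.RB (CV hF cr ND wr rt Ix yx yc)

namespace Pool.Agent.W757.RD

/-- the density of the flat cone metric with singular points `0`, `1`, `∞` -/
noncomputable def rho (β : ℝ) (z : ℂ) : ℝ := ‖z‖ ^ (-(2 * β)) * ‖z - 1‖ ^ (-(2 * β))

/-- the area of the flat cone metric -/
noncomputable def mu (β : ℝ) : Measure ℂ := volume.withDensity fun z => ENNReal.ofReal (rho β z)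

/-- A holomorphic family of rational maps of degree `d` fixing `∞`, which is not a critical point,
parametrised by an open set `U` of `ℂⁿ`, with marked attracting cycles: base points `b k x` of
periods `per k`, and uniformly contracted discs of radius `r₀ k` about the base points, which
belong to different cycles. -/
structure Sys (d n s : ℕ) where
  co : (Fin n → ℂ) → CV d
  U : Set (Fin n → ℂ)
  per : Fin s → ℕ
  b : Fin s → (Fin n → ℂ) → ℂ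
  r₀ : Fin s → ℝ
  θ : ℝ
  hd : 2 ≤ d
  hU : IsOpen U
  hr₀ : ∀ k, 0 < r₀ k
  hθ0 : 0 ≤ θ
  hθ : θ < 1
  hper : ∀ k, 1 ≤ per k
  hco : DifferentiableOn ℂ co U
  hb : ∀ k, DifferentiableOn ℂ (b k) U
  nd : ∀ x ∈ U, ND (co x)
  hinf : ∀ x ∈ U, (hF (co x) (1, 0)).2 = 0
  hwr : ∀ x ∈ U, wr (co x) (1, 0) ≠ 0
  contr : ∀ x ∈ U, ∀ k, ∀ z : ℂ, ‖z‖ < r₀ k → ∃ a z' : ℂ, a ≠ 0 ∧ ‖z'‖ ≤ θ * ‖z‖ ∧
    (hF (co x))^[per k] (b k x + z, 1) = a • ((b k x + z', 1) : ℂ × ℂ)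
  sep : ∀ x ∈ U, ∀ k k', ∀ z z' a : ℂ, ∀ m : ℕ, ‖z‖ < r₀ k → ‖z'‖ < r₀ k' →
    (hF (co x))^[m] (b k x + z, 1) = a • ((b k' x + z', 1) : ℂ × ℂ) → k = k' ∧ per k ∣ m

namespace Sys

variable {d n s : ℕ} (S : Sys d n s)

/-- the homogeneous map with parameter `x` -/
noncomputable def F (x : Fin n → ℂ) : ℂ × ℂ → ℂ × ℂ := hF (S.co x)

/-- the chart at the base point of the cycle `k` -/
noncomputable def cht (k : Fin s) (x : Fin n → ℂ) (z : ℂ) : ℂ × ℂ := (S.b k x + z, 1)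

/-- the cone over the disc of radius `r₀ k` about the base point of the cycle `k` -/
def InC (k : Fin s) (x : Fin n → ℂ) (p : ℂ × ℂ) : Prop :=
  ∃ a z : ℂ, a ≠ 0 ∧ ‖z‖ < S.r₀ k ∧ p = a • S.cht k x z

/-- the return map in the local coordinate -/
noncomputable def hk (k : Fin s) (x : Fin n → ℂ) (z : ℂ) : ℂ :=
  ((S.F x)^[S.per k] (S.cht k x z)).1 / ((S.F x)^[S.per k] (S.cht k x z)).2 - S.b k x

/-- the multipliers -/
noncomputable def lam (k : Fin s) (x : Fin n → ℂ) : ℂ := deriv (S.hk k x) 0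

/-- the domain of the Koenigs map of the cycle `k` -/
def Dom (k : Fin s) : Set ((Fin n → ℂ) × (ℂ × ℂ)) :=
  {q | q.1 ∈ S.U ∧ S.lam k q.1 ≠ 0 ∧ ∃ N : ℕ, S.InC k q.1 ((S.F q.1)^[S.per k * N] q.2)}

/-- `KK` are the Koenigs maps of the marked cycles. -/
structure Koe (KK : Fin s → (Fin n → ℂ) × (ℂ × ℂ) → ℂ) : Prop where
  opn : ∀ k, IsOpen (S.Dom k)
  dif : ∀ k, DifferentiableOn ℂ (KK k) (S.Dom k)
  hom : ∀ k x p, (x, p) ∈ S.Dom k → ∀ a : ℂ, a ≠ 0 → KK k (x, a • p) = KK k (x, p)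
  fe : ∀ k x p, (x, p) ∈ S.Dom k → KK k (x, (S.F x)^[S.per k] p) = S.lam k x * KK k (x, p)
  zer : ∀ k, ∀ x ∈ S.U, S.lam k x ≠ 0 → KK k (x, S.cht k x 0) = 0
  der : ∀ k, ∀ x ∈ S.U, S.lam k x ≠ 0 → deriv (fun z => KK k (x, S.cht k x z)) 0 = 1

/-- `ω` are the local inverses of the Koenigs maps, over the open set `N` of parameters, on the
disc of radius `r`. -/
structure Lin (KK : Fin s → (Fin n → ℂ) × (ℂ × ℂ) → ℂ) (N : Set (Fin n → ℂ)) (r : ℝ)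
    (ω : Fin s → (Fin n → ℂ) × ℂ → ℂ) : Prop where
  hr : 0 < r
  No : IsOpen N
  NU : N ⊆ S.U
  lam0 : ∀ x ∈ N, ∀ k, S.lam k x ≠ 0
  ωd : ∀ k, DifferentiableOn ℂ (ω k) (N ×ˢ ball (0 : ℂ) r)
  ω0 : ∀ k, ∀ x ∈ N, ω k (x, 0) = 0
  ωr : ∀ k, ∀ x ∈ N, ∀ w : ℂ, ‖w‖ < r → ‖ω k (x, w)‖ < S.r₀ k ∧
    KK k (x, S.cht k x (ω k (x, w))) = w
  fe : ∀ k, ∀ x ∈ N, ∀ w : ℂ, ‖w‖ < r → ∃ a : ℂ, a ≠ 0 ∧
    (S.F x)^[S.per k] (S.cht k x (ω k (x, w))) = a • S.cht k x (ω k (x, S.lam k x * w))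
  inv : ∃ r' r'' : ℝ, 0 < r'' ∧ r'' ≤ r' ∧ (∀ k, r' ≤ S.r₀ k) ∧ ∀ k, ∀ x ∈ N,
    (∀ w : ℂ, ‖w‖ < r → ‖ω k (x, w)‖ < r') ∧
    (∀ z : ℂ, ‖z‖ < r' → ‖KK k (x, S.cht k x z)‖ < r → ω k (x, KK k (x, S.cht k x z)) = z) ∧
    (∀ z : ℂ, ‖z‖ < r'' → ‖KK k (x, S.cht k x z)‖ < r)

/-- the linearised points of the cycle `k`, transported `l` steps along the cycle -/
noncomputable def pt (ω : Fin s → (Fin n → ℂ) × ℂ → ℂ) (k : Fin s) (l : ℕ)
    (x : Fin n → ℂ) (w : ℂ) : ℂ × ℂ := (S.F x)^[l] (S.cht k x (ω k (x, w)))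

/-- the points which are in the linearised discs of radius `r₁` at time `N`; `κ` are the scales -/
def WN (ω : Fin s → (Fin n → ℂ) × ℂ → ℂ) (N : ℕ) (r₁ : ℝ) (x : Fin n → ℂ)
    (κ : Fin s → ℂ) : Set ℂ :=
  {ζ | ∃ k, ∃ l < S.per k, ∃ w : ℂ, ‖w‖ ≤ r₁ ∧ cr ((S.F x)^[N] (ζ, 1)) (S.pt ω k l x (κ k * w)) = 0}

/-- the area of the complement -/
noncomputable def AN (β : ℝ) (ω : Fin s → (Fin n → ℂ) × ℂ → ℂ) (N : ℕ) (r₁ : ℝ) (x : Fin n → ℂ)
    (κ : Fin s → ℂ) : ℝ := (mu β (S.WN ω N r₁ x κ)ᶜ).toReal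

/-- the points of the plane which are not attracted to the marked cycles -/
def KS (x : Fin n → ℂ) : Set ℂ := {ζ | ∀ k, ∀ m : ℕ, ¬ S.InC k x ((S.F x)^[m] (ζ, 1))}

/-- A holomorphic disc of parameters along which the multipliers of the marked cycles are constant,
with scales `κ`. -/
structure Disc (N : Set (Fin n → ℂ)) (r r₂ τ : ℝ) (x : ℂ → (Fin n → ℂ))
    (κ : Fin s → ℂ → ℂ) : Prop where
  hτ : 0 < τ
  xd : DifferentiableOn ℂ x (ball 0 τ)
  xN : ∀ t ∈ ball (0 : ℂ) τ, x t ∈ N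
  κd : ∀ k, DifferentiableOn ℂ (κ k) (ball 0 τ)
  κ0 : ∀ k, ∀ t ∈ ball (0 : ℂ) τ, κ k t ≠ 0
  κr : ∀ k, ∀ t ∈ ball (0 : ℂ) τ, ‖κ k t‖ * r₂ < r
  lamc : ∀ k, ∀ t ∈ ball (0 : ℂ) τ, S.lam k (x t) = S.lam k (x 0)

end Sys

/-- labels of the marked points: critical points and the two base points -/
abbrev Pt (d : ℕ) : Type := Fin (2 * d - 2) ⊕ Fin 2

/-- the base points `0` and `1` -/
noncomputable def bz (j : Fin 2) : ℂ := ((j : ℕ) : ℂ)

/-- the points with given labels -/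
noncomputable def pc {d n s : ℕ} (y : Ix d n s → ℂ) (i : Pt d) : ℂ :=
  match i with
  | Sum.inl i => yc y i
  | Sum.inr j => bz j

/-- the scales -/
def ys {d n s : ℕ} (y : Ix d n s → ℂ) (k : Fin s) : ℂ := y (Sum.inr (Sum.inr k))

namespace Sys

variable {d n s : ℕ} (S : Sys d n s)

/-- structural equations: they vanish iff the `yc y i` are the critical points -/
noncomputable def Er (j : Fin (2 * d - 2)) (y : Ix d n s → ℂ) : ℂ :=
  wr (S.co (yx y)) (((j : ℕ) : ℂ), 1) -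
    wr (S.co (yx y)) (1, 0) * ∏ i : Fin (2 * d - 2), (((j : ℕ) : ℂ) - yc y i)

/-- index set of the other equations, `A` is the set of marked attracted points -/
abbrev Rw (l d s : ℕ) (A : Finset (Pt d)) : Type := Fin l ⊕ (Fin s ⊕ {i // i ∈ A})

/-- the other equations: normalisations, multipliers and the relative positions of the marked
attracted points -/
noncomputable def Gr (KK : Fin s → (Fin n → ℂ) × (ℂ × ℂ) → ℂ) {l : ℕ}
    (e : Fin l → (Fin n → ℂ) → ℂ) (A : Finset (Pt d))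
    (ks : Pt d → Fin s) (ls : Pt d → ℕ) (a : Rw l d s A)
    (y : Ix d n s → ℂ) : ℂ :=
  match a with
  | Sum.inl i => e i (yx y)
  | Sum.inr (Sum.inl k) => S.lam k (yx y)
  | Sum.inr (Sum.inr i) => KK (ks i) (yx y, (S.F (yx y))^[ls i] (pc y i, 1)) / ys y (ks i)

/-- admissible configurations: all multipliers and scales are nonzero, the `yc y i` are the
critical points and the marked points with label in `A` are attracted -/
structure Adm (A : Finset (Pt d)) (ks : Pt d → Fin s) (ls : Pt d → ℕ) (y : Ix d n s → ℂ) :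
    Prop where
  xU : yx y ∈ S.U
  lam0 : ∀ k, S.lam k (yx y) ≠ 0
  kap0 : ∀ k, ys y k ≠ 0
  crit : ∀ j, S.Er j y = 0
  lsp : ∀ i ∈ A, ls i < S.per (ks i)
  att : ∀ i ∈ A, (yx y, (S.F (yx y))^[ls i] (pc y i, 1)) ∈ S.Dom (ks i)

/-- the matrix of partial derivatives, all structural rows and `R` other rows -/
noncomputable def Mx (KK : Fin s → (Fin n → ℂ) × (ℂ × ℂ) → ℂ) {l : ℕ}
    (e : Fin l → (Fin n → ℂ) → ℂ) (A : Finset (Pt d)) (ks : Pt d → Fin s) (ls : Pt d → ℕ) {R : ℕ}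
    (sel : Fin R → Rw l d s A) (col : Fin (2 * d - 2) ⊕ Fin R → Ix d n s) (y : Ix d n s → ℂ) :
    Matrix (Fin (2 * d - 2) ⊕ Fin R) (Fin (2 * d - 2) ⊕ Fin R) ℂ :=
  Matrix.of fun a c =>
    match a with
    | Sum.inl j => fderiv ℂ (S.Er j) y (Pi.single (col c) 1)
    | Sum.inr i => fderiv ℂ (S.Gr KK e A ks ls (sel i)) y (Pi.single (col c) 1)

/-- the leaf through `y₀`, over the compact set `C` of parameters -/
def Leaf (ω : Fin s → (Fin n → ℂ) × ℂ → ℂ) {l : ℕ}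
    (e : Fin l → (Fin n → ℂ) → ℂ) (A : Finset (Pt d)) (ks : Pt d → Fin s) (ls : Pt d → ℕ) (L : ℕ)
    (C : Set (Fin n → ℂ)) (K : ℝ)
    (y₀ : Ix d n s → ℂ) (Fh : Pt d → ℂ) : Set (Ix d n s → ℂ) :=
  {y | yx y ∈ C ∧ (∀ i, e i (yx y) = e i (yx y₀)) ∧
    (∀ k, S.lam k (yx y) = S.lam k (yx y₀)) ∧
    (∀ j, S.Er j y = 0) ∧ (∀ k, ‖ys y k‖ ≤ K) ∧
    ∀ i ∈ A, cr ((S.F (yx y))^[ls i + S.per (ks i) * L] (pc y i, 1))
      (S.cht (ks i) (yx y) (ω (ks i) (yx y, ys y (ks i) * (S.lam (ks i) (yx y₀) ^ L * Fh i)))) = 0}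

end Sys

end Pool.Agent.W757.RD
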