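import Mathlib
import Pool.Agent.W757.RD.Defs

/-! Statements of the project RD, part 1 (adapted from `Pool.Agent.W757.RC.St`). -/

set_option autoImplicit false

open Topology Filter Metric Set MeasureTheory
open Pool.Agent.H790R3.RB (CV hF cr ND wr rt Ix yx yc sp HypTop)

namespace Pool.Agent.W757.RD

/-- The measure `mu`. -/
def StMU : Prop :=
  ∀ β : ℝ, 1 / 2 < β → β < 1 → mu β univ < ⊤ ∧ (∀ E : Set ℂ, volume E = 0 ↔ mu β E = 0)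

/-- Multipliers. -/
def StLAM : Prop :=
  ∀ (d n s : ℕ) (S : Sys d n s),
    (∀ k, DifferentiableOn ℂ (S.lam k) S.U) ∧
    (∀ k, ∀ x ∈ S.U, ‖S.lam k x‖ ≤ S.θ) ∧
    (∀ k, DifferentiableOn ℂ (fun q : (Fin n → ℂ) × ℂ => S.hk k q.1 q.2) (S.U ×ˢ ball 0 (S.r₀ k))) ∧
    (∀ k, ∀ x ∈ S.U, ∀ z : ℂ, ‖z‖ < S.r₀ k → ‖S.hk k x z‖ ≤ S.θ * ‖z‖ ∧
      ∃ a : ℂ, a ≠ 0 ∧ (S.F x)^[S.per k] (S.cht k x z) = a • S.cht k x (S.hk k x z))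

/-- Existence of the Koenigs maps. -/
def StKOE : Prop :=
  ∀ (d n s : ℕ) (S : Sys d n s), ∃ KK : Fin s → (Fin n → ℂ) × (ℂ × ℂ) → ℂ, S.Koe KK

/-- Existence of the local inverses. -/
def StLIN : Prop :=
  ∀ (d n s : ℕ) (S : Sys d n s) (KK : Fin s → (Fin n → ℂ) × (ℂ × ℂ) → ℂ), S.Koe KK →
    ∀ K : Set (Fin n → ℂ), IsCompact K → K ⊆ {x | x ∈ S.U ∧ ∀ k, S.lam k x ≠ 0} →
    ∃ (N : Set (Fin n → ℂ)) (r : ℝ) (ω : Fin s → (Fin n → ℂ) × ℂ → ℂ), K ⊆ N ∧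
      S.Lin KK N r ω

/-- Orbits of the linearised points. -/
def StORB : Prop :=
  ∀ (d n s : ℕ) (S : Sys d n s) (KK : Fin s → (Fin n → ℂ) × (ℂ × ℂ) → ℂ) (r : ℝ)
    (N : Set (Fin n → ℂ)) (ω : Fin s → (Fin n → ℂ) × ℂ → ℂ), S.Koe KK → S.Lin KK N r ω →
    ∀ x ∈ N, ∀ k k', ∀ w w' : ℂ, ‖w‖ < r → ‖w'‖ < r → ∀ a b : ℕ,
      S.pt ω k a x w ≠ 0 ∧
      cr (S.pt ω k (S.per k + a) x w) (S.pt ω k a x (S.lam k x * w)) = 0 ∧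
      (cr (S.pt ω k a x w) (S.pt ω k' b x w') = 0 → k = k' ∧ a % S.per k = b % S.per k ∧
        S.lam k x ^ (a / S.per k) * w = S.lam k x ^ (b / S.per k) * w') ∧
      (S.pt ω k a x w).2 ≠ 0

/-- After a long time the discs are inside the linearised discs. -/
def StCOV : Prop :=
  ∀ (d n s : ℕ) (S : Sys d n s) (KK : Fin s → (Fin n → ℂ) × (ℂ × ℂ) → ℂ) (r : ℝ)
    (N : Set (Fin n → ℂ)) (ω : Fin s → (Fin n → ℂ) × ℂ → ℂ), S.Koe KK → S.Lin KK N r ω →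
    ∀ r₁ : ℝ, 0 < r₁ → ∃ N₀ : ℕ, ∀ x ∈ N, ∀ k, ∀ z : ℂ, ‖z‖ < S.r₀ k → ∀ j : ℕ, N₀ ≤ j →
      ∃ w : ℂ, ‖w‖ ≤ r₁ ∧ ‖w‖ < r ∧
        cr ((S.F x)^[S.per k * j] (S.cht k x z)) (S.cht k x (ω k (x, w))) = 0

/-- Semicontinuity of the area of the set of points which are not attracted to the marked
cycles. -/
def StUSC : Prop :=
  ∀ (β : ℝ) (d n s : ℕ) (S : Sys d n s) (x₁ : Fin n → ℂ), 1 / 2 < β → β < 1 → x₁ ∈ S.U →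
    ∀ η : ℝ, 0 < η → ∃ (σ : ℝ) (N₀ : ℕ), 0 < σ ∧ ∀ x ∈ S.U, ‖x - x₁‖ < σ →
      mu β {ζ : ℂ | ∀ k, ∀ m ≤ N₀, ¬ S.InC k x ((S.F x)^[m] (ζ, 1))} ≤
        mu β (S.KS x₁) + ENNReal.ofReal η

/-- The structural equations say that the `yc y i` are the critical points. -/
def StER : Prop :=
  ∀ (d n s : ℕ) (S : Sys d n s) (y : Ix d n s → ℂ), (∀ j, S.Er j y = 0) →
    ∀ ζ : ℂ, wr (S.co (yx y)) (ζ, 1) =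
      wr (S.co (yx y)) (1, 0) * ∏ i : Fin (2 * d - 2), (ζ - yc y i)

/-- Nonvanishing of a structural minor at simple critical points. -/
def StEMIN : Prop :=
  ∀ (d n s : ℕ) (S : Sys d n s) (y : Ix d n s → ℂ), yx y ∈ S.U → Function.Injective (yc y) →
    ∃ col : Fin (2 * d - 2) → Ix d n s,
      (Matrix.of fun j c : Fin (2 * d - 2) => fderiv ℂ (S.Er j) y (Pi.single (col c) 1)).det ≠ 0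

/-- The equations are holomorphic near admissible configurations. -/
def StADO : Prop :=
  ∀ (d n s l : ℕ) (S : Sys d n s) (KK : Fin s → (Fin n → ℂ) × (ℂ × ℂ) → ℂ)
    (e : Fin l → (Fin n → ℂ) → ℂ) (A : Finset (Pt d)) (ks : Pt d → Fin s) (ls : Pt d → ℕ),
    S.Koe KK → (∀ i, DifferentiableOn ℂ (e i) S.U) →
    ∃ O : Set (Ix d n s → ℂ), IsOpen O ∧
      O = {y | yx y ∈ S.U ∧ (∀ k, S.lam k (yx y) ≠ 0) ∧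
        ∀ i ∈ A, (yx y, (S.F (yx y))^[ls i] (pc y i, 1)) ∈ S.Dom (ks i)} ∧
      (∀ j, DifferentiableOn ℂ (S.Er j) O) ∧
      (∀ i ∈ A, DifferentiableOn ℂ
        (fun y => KK (ks i) (yx y, (S.F (yx y))^[ls i] (pc y i, 1))) O) ∧
      ∀ a, DifferentiableOn ℂ (S.Gr KK e A ks ls a) (O ∩ {y | ∀ k, ys y k ≠ 0})

/-- Points of the leaf with nonzero scales are admissible, with constant equations. -/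
def StLF : Prop :=
  ∀ (d n s l : ℕ) (S : Sys d n s) (KK : Fin s → (Fin n → ℂ) × (ℂ × ℂ) → ℂ) (r : ℝ)
    (N : Set (Fin n → ℂ)) (ω : Fin s → (Fin n → ℂ) × ℂ → ℂ)
    (e : Fin l → (Fin n → ℂ) → ℂ) (A : Finset (Pt d))
    (ks : Pt d → Fin s) (ls : Pt d → ℕ) (L : ℕ) (C : Set (Fin n → ℂ)) (K : ℝ)
    (y₀ y : Ix d n s → ℂ) (Fh : Pt d → ℂ), S.Koe KK → S.Lin KK N r ω →
    (∀ k, S.lam k (yx y₀) ≠ 0) → (∀ i ∈ A, ls i < S.per (ks i)) →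
    (∀ i ∈ A, K * ‖S.lam (ks i) (yx y₀) ^ L * Fh i‖ < r) → yx y ∈ N →
    y ∈ S.Leaf ω e A ks ls L C K y₀ Fh →
    (∀ i ∈ A, (yx y, (S.F (yx y))^[ls i] (pc y i, 1)) ∈ S.Dom (ks i)) ∧
    (∀ i ∈ A, KK (ks i) (yx y, (S.F (yx y))^[ls i] (pc y i, 1)) = ys y (ks i) * Fh i) ∧
    ((∀ k, ys y k ≠ 0) → S.Adm A ks ls y ∧ ∀ i ∈ A,
      KK (ks i) (yx y, (S.F (yx y))^[ls i] (pc y i, 1)) / ys y (ks i) = Fh i)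

/-- The starting point belongs to the leaf. -/
def StIN : Prop :=
  ∀ (d n s l : ℕ) (S : Sys d n s) (KK : Fin s → (Fin n → ℂ) × (ℂ × ℂ) → ℂ) (r : ℝ)
    (N : Set (Fin n → ℂ)) (ω : Fin s → (Fin n → ℂ) × ℂ → ℂ)
    (e : Fin l → (Fin n → ℂ) → ℂ) (A : Finset (Pt d))
    (ks : Pt d → Fin s) (ls : Pt d → ℕ) (C : Set (Fin n → ℂ)) (K : ℝ)
    (y₀ : Ix d n s → ℂ), S.Koe KK → S.Lin KK N r ω → yx y₀ ∈ N → yx y₀ ∈ C →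
    S.Adm A ks ls y₀ → (∀ k, ‖ys y₀ k‖ ≤ K) →
    ∃ L₀ : ℕ, ∀ L ≥ L₀, y₀ ∈ S.Leaf ω e A ks ls L C K y₀
      (fun i => KK (ks i) (yx y₀, (S.F (yx y₀))^[ls i] (pc y₀ i, 1)) / ys y₀ (ks i))

/-- The leaf is compact. -/
def StCPT : Prop :=
  ∀ (d n s l : ℕ) (S : Sys d n s) (KK : Fin s → (Fin n → ℂ) × (ℂ × ℂ) → ℂ) (r : ℝ)
    (N : Set (Fin n → ℂ)) (ω : Fin s → (Fin n → ℂ) × ℂ → ℂ)
    (e : Fin l → (Fin n → ℂ) → ℂ) (A : Finset (Pt d))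
    (ks : Pt d → Fin s) (ls : Pt d → ℕ) (L : ℕ) (C : Set (Fin n → ℂ)) (K : ℝ)
    (y₀ : Ix d n s → ℂ) (Fh : Pt d → ℂ), S.Koe KK → S.Lin KK N r ω →
    (∀ i, DifferentiableOn ℂ (e i) S.U) → IsCompact C → C ⊆ S.U →
    {x | x ∈ C ∧ ∀ k, S.lam k x = S.lam k (yx y₀)} ⊆ N →
    (∀ i ∈ A, K * ‖S.lam (ks i) (yx y₀) ^ L * Fh i‖ < r) →
    IsCompact (S.Leaf ω e A ks ls L C K y₀ Fh)

/-- The leaf is invariant under small discs. -/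
def StOPN : Prop :=
  ∀ (d n s l : ℕ) (S : Sys d n s) (KK : Fin s → (Fin n → ℂ) × (ℂ × ℂ) → ℂ) (r : ℝ)
    (N : Set (Fin n → ℂ)) (ω : Fin s → (Fin n → ℂ) × ℂ → ℂ)
    (e : Fin l → (Fin n → ℂ) → ℂ) (A : Finset (Pt d))
    (ks : Pt d → Fin s) (ls : Pt d → ℕ) (L : ℕ) (C : Set (Fin n → ℂ)) (K τ : ℝ)
    (y₀ : Ix d n s → ℂ) (Fh : Pt d → ℂ) (γ : ℂ → Ix d n s → ℂ), S.Koe KK →
    S.Lin KK N r ω → (∀ k, S.lam k (yx y₀) ≠ 0) → (∀ i ∈ A, ls i < S.per (ks i)) →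
    (∀ i ∈ A, K * ‖S.lam (ks i) (yx y₀) ^ L * Fh i‖ < r) → 0 < τ →
    DifferentiableOn ℂ γ (ball 0 τ) → yx (γ 0) ∈ N → γ 0 ∈ S.Leaf ω e A ks ls L C K y₀ Fh →
    (∀ k, ys (γ 0) k ≠ 0) → (∀ᶠ t in 𝓝 (0 : ℂ), yx (γ t) ∈ C) → (∀ k, ‖ys (γ 0) k‖ < K) →
    (∀ t ∈ ball (0 : ℂ) τ, (∀ j, S.Er j (γ t) = 0) ∧
      ∀ a, S.Gr KK e A ks ls a (γ t) = S.Gr KK e A ks ls a (γ 0)) →
    ∃ τ' : ℝ, 0 < τ' ∧ τ' ≤ τ ∧ ∀ t ∈ ball (0 : ℂ) τ', yx (γ t) ∈ N ∧ (∀ k, ys (γ t) k ≠ 0) ∧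
      γ t ∈ S.Leaf ω e A ks ls L C K y₀ Fh

/-- Positions of the critical values in the linearised discs. -/
def StEXC : Prop :=
  ∀ (d n s l : ℕ) (S : Sys d n s) (KK : Fin s → (Fin n → ℂ) × (ℂ × ℂ) → ℂ) (r : ℝ)
    (N : Set (Fin n → ℂ)) (ω : Fin s → (Fin n → ℂ) × ℂ → ℂ)
    (e : Fin l → (Fin n → ℂ) → ℂ) (A : Finset (Pt d))
    (ks : Pt d → Fin s) (ls : Pt d → ℕ) (L : ℕ) (C : Set (Fin n → ℂ)) (K : ℝ)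
    (y₀ y : Ix d n s → ℂ) (Fh : Pt d → ℂ), S.Koe KK → S.Lin KK N r ω →
    (∀ i ∈ A, K * ‖S.lam (ks i) (yx y₀) ^ L * Fh i‖ < r) → yx y ∈ N →
    y ∈ S.Leaf ω e A ks ls L C K y₀ Fh → (∀ k, ys y k ≠ 0) →
    (∀ i : Fin (2 * d - 2), Sum.inl i ∉ A →
      ∀ k, ∀ m : ℕ, ¬ S.InC k (yx y) ((S.F (yx y))^[m] (yc y i, 1))) →
    ∀ c : ℂ × ℂ, c ≠ 0 → wr (S.co (yx y)) c = 0 → ∀ m : ℕ, ∀ k, ∀ a : ℕ, ∀ w : ℂ,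
      ‖ys y k * w‖ < r → cr ((S.F (yx y))^[m] c) (S.pt ω k a (yx y) (ys y k * w)) = 0 →
      ∃ i : Fin (2 * d - 2), Sum.inl i ∈ A ∧ ks (Sum.inl i) = k ∧
        S.lam k (yx y) ^ (m / S.per k) * Fh (Sum.inl i) =
          S.lam k (yx y) ^ ((a + ls (Sum.inl i)) / S.per k) * w

/-- Addresses of the marked points. -/
def StBAD : Prop :=
  ∀ (d n s l : ℕ) (S : Sys d n s) (KK : Fin s → (Fin n → ℂ) × (ℂ × ℂ) → ℂ) (r : ℝ)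
    (N : Set (Fin n → ℂ)) (ω : Fin s → (Fin n → ℂ) × ℂ → ℂ)
    (e : Fin l → (Fin n → ℂ) → ℂ) (A : Finset (Pt d))
    (ks : Pt d → Fin s) (ls : Pt d → ℕ) (L : ℕ) (C : Set (Fin n → ℂ)) (K : ℝ)
    (y₀ y : Ix d n s → ℂ) (Fh : Pt d → ℂ), S.Koe KK → S.Lin KK N r ω →
    (∀ i ∈ A, K * ‖S.lam (ks i) (yx y₀) ^ L * Fh i‖ < r) → yx y ∈ N →
    y ∈ S.Leaf ω e A ks ls L C K y₀ Fh →
    ∀ i ∈ A, ∀ L' a : ℕ, L ≤ L' →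
      cr ((S.F (yx y))^[ls i + (S.per (ks i) * L' + a)] (pc y i, 1))
        (S.pt ω (ks i) a (yx y) (ys y (ks i) * (S.lam (ks i) (yx y₀) ^ L' * Fh i))) = 0

/-- Fatou's argument: bound of the size of a linearised disc in terms of the critical points and a
pole. -/
def StFAT : Prop :=
  ∃ CK : ℝ, 0 < CK ∧ ∀ (d p : ℕ) (x : CV d) (ψ : ℂ → ℂ) (lam ζ₀ : ℂ) (r rF : ℝ), 2 ≤ d → 1 ≤ p →
    ND x → (hF x (1, 0)).2 = 0 → (hF x (ζ₀, 1)).2 = 0 → 0 < r → 0 < rF → lam ≠ 0 → ‖lam‖ < 1 →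
    DifferentiableOn ℂ ψ (ball 0 r) → InjOn ψ (ball 0 r) →
    (∀ w ∈ ball (0 : ℂ) r, cr ((hF x)^[p] (ψ w, 1)) (ψ (lam * w), 1) = 0) →
    (∀ c : ℂ × ℂ, c ≠ 0 → wr x c = 0 → ∀ m : ℕ, ∀ w ∈ ball (0 : ℂ) r, w ≠ 0 →
      cr ((hF x)^[m] c) (ψ w, 1) = 0 → ‖lam‖ ^ (m / p) * rF ≤ ‖w‖) →
    ‖deriv ψ 0‖ * rF ≤ CK * ‖ψ 0 - ζ₀‖

/-- Consequence of Fatou's argument for the scales. -/
def StFKB : Prop :=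
  ∃ CK : ℝ, 0 < CK ∧ ∀ (d n s l : ℕ) (S : Sys d n s) (KK : Fin s → (Fin n → ℂ) × (ℂ × ℂ) → ℂ)
    (r : ℝ) (N : Set (Fin n → ℂ)) (ω : Fin s → (Fin n → ℂ) × ℂ → ℂ)
    (e : Fin l → (Fin n → ℂ) → ℂ) (A : Finset (Pt d))
    (ks : Pt d → Fin s) (ls : Pt d → ℕ) (L : ℕ) (C : Set (Fin n → ℂ)) (K rF : ℝ)
    (y₀ y : Ix d n s → ℂ) (Fh : Pt d → ℂ) (ζ₀ : ℂ), S.Koe KK → S.Lin KK N r ω →
    (∀ i ∈ A, ls i < S.per (ks i)) →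
    (∀ i ∈ A, K * ‖S.lam (ks i) (yx y₀) ^ L * Fh i‖ < r) → yx y ∈ N →
    y ∈ S.Leaf ω e A ks ls L C K y₀ Fh → (∀ k, ys y k ≠ 0) →
    (∀ i : Fin (2 * d - 2), Sum.inl i ∉ A →
      ∀ k, ∀ m : ℕ, ¬ S.InC k (yx y) ((S.F (yx y))^[m] (yc y i, 1))) →
    (S.F (yx y) (ζ₀, 1)).2 = 0 →
    0 < rF → ∀ k : Fin s, (∀ i : Fin (2 * d - 2), Sum.inl i ∈ A → ks (Sum.inl i) = k →
      Fh (Sum.inl i) ≠ 0 → rF ≤ ‖Fh (Sum.inl i)‖) →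
    ‖ys y k‖ * rF ≤ CK * ‖S.b k (yx y) - ζ₀‖ ∧
      ∃ i : Fin (2 * d - 2), Sum.inl i ∈ A ∧ ks (Sum.inl i) = k ∧ Fh (Sum.inl i) ≠ 0

/-- Locally bounded poles. -/
def StPOLE : Prop :=
  ∀ (d n s : ℕ) (S : Sys d n s) (C : Set (Fin n → ℂ)), IsCompact C → C ⊆ S.U →
    ∃ B : ℝ, ∀ x ∈ C, ∃ ζ₀ : ℂ, (S.F x (ζ₀, 1)).2 = 0 ∧ ‖ζ₀‖ ≤ B

/-- Lower semicontinuity of the area functional. -/
def StLSC : Prop :=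
  ∀ (β : ℝ) (d n s : ℕ) (S : Sys d n s) (KK : Fin s → (Fin n → ℂ) × (ℂ × ℂ) → ℂ) (r : ℝ)
    (N : Set (Fin n → ℂ)) (ω : Fin s → (Fin n → ℂ) × ℂ → ℂ) (Nt : ℕ) (r₁ : ℝ),
    1 / 2 < β → β < 1 → S.Koe KK → S.Lin KK N r ω → 0 < r₁ →
    LowerSemicontinuousOn (fun q : (Fin n → ℂ) × (Fin s → ℂ) => S.AN β ω Nt r₁ q.1 q.2)
      {q | q.1 ∈ N ∧ (∀ k, ‖q.2 k‖ * r₁ < r)}

/-- `ζ` has address `(k, l, w)` at time `t`. -/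
def Ad {d n s : ℕ} (S : Sys d n s) (ω : Fin s → (Fin n → ℂ) × ℂ → ℂ) (Nt : ℕ)
    (x : ℂ → (Fin n → ℂ)) (κ : Fin s → ℂ → ℂ) (t : ℂ) (k : Fin s) (l : ℕ) (w ζ : ℂ) :
    Prop :=
  cr ((S.F (x t))^[Nt] (ζ, 1)) (S.pt ω k l (x t) (κ k t * w)) = 0

/-- The data of the disc inequality. -/
structure DD {d n s : ℕ} (S : Sys d n s) (KK : Fin s → (Fin n → ℂ) × (ℂ × ℂ) → ℂ)
    (r : ℝ) (N : Set (Fin n → ℂ)) (ω : Fin s → (Fin n → ℂ) × ℂ → ℂ) (Nt : ℕ)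
    (r₂ τ : ℝ) (x : ℂ → (Fin n → ℂ)) (κ : Fin s → ℂ → ℂ)
    (Sx : Fin s → ℕ → Set ℂ) : Prop where
  koe : S.Koe KK
  lin : S.Lin KK N r ω
  hr₂ : 0 < r₂
  div : ∀ k, S.per k ∣ Nt
  dsc : S.Disc N r r₂ τ x κ
  fin : ∀ k l, (Sx k l).Finite
  exc : ∀ t ∈ ball (0 : ℂ) τ, ∀ c : ℂ × ℂ, c ≠ 0 → wr (S.co (x t)) c = 0 → ∀ m ≤ Nt, ∀ k,
    ∀ l < S.per k, ∀ w : ℂ, w ≠ 0 → ‖w‖ < r₂ →
    cr ((S.F (x t))^[m] c) (S.pt ω k l (x t) (κ k t * w)) = 0 → w ∈ Sx k l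

/-- The motion of the points with nonexceptional addresses. -/
structure Mo {d n s : ℕ} (S : Sys d n s) (ω : Fin s → (Fin n → ℂ) × ℂ → ℂ) (Nt : ℕ)
    (r₂ τ : ℝ) (x : ℂ → (Fin n → ℂ)) (κ : Fin s → ℂ → ℂ)
    (Sx : Fin s → ℕ → Set ℂ) (W : Set ℂ) (Φ : ℂ → ℂ → ℂ) : Prop where
  Wo : IsOpen W
  mem : ∀ ζ : ℂ, ζ ∈ W ↔ ∃ k, ∃ l < S.per k, ∃ w : ℂ, w ≠ 0 ∧ ‖w‖ < r₂ ∧ w ∉ Sx k l ∧
    Ad S ω Nt x κ 0 k l w ζ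
  Φd : DifferentiableOn ℂ (fun p : ℂ × ℂ => Φ p.1 p.2) (ball 0 τ ×ˢ W)
  Φ0 : ∀ z ∈ W, Φ 0 z = z
  Φi : ∀ t ∈ ball (0 : ℂ) τ, InjOn (Φ t) W
  ad : ∀ k, ∀ l < S.per k, ∀ w : ℂ, w ≠ 0 → ‖w‖ < r₂ → w ∉ Sx k l → ∀ ζ : ℂ,
    Ad S ω Nt x κ 0 k l w ζ → ∀ t ∈ ball (0 : ℂ) τ, Ad S ω Nt x κ t k l w (Φ t ζ)
  unq : ∀ k, ∀ l < S.per k, ∀ w : ℂ, w ≠ 0 → ‖w‖ < r₂ → w ∉ Sx k l → ∀ ζ : ℂ,
    Ad S ω Nt x κ 0 k l w ζ → ∀ Z' : ℂ → ℂ, ContinuousOn Z' (ball 0 τ) →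
    (∃ t₁ ∈ ball (0 : ℂ) τ, Z' t₁ = Φ t₁ ζ) →
    (∀ t ∈ ball (0 : ℂ) τ, Ad S ω Nt x κ t k l w (Z' t)) → ∀ t ∈ ball (0 : ℂ) τ, Z' t = Φ t ζ

/-- Existence of the motion. -/
def StMS : Prop :=
  ∀ (d n s : ℕ) (S : Sys d n s) (KK : Fin s → (Fin n → ℂ) × (ℂ × ℂ) → ℂ)
    (r : ℝ) (N : Set (Fin n → ℂ)) (ω : Fin s → (Fin n → ℂ) × ℂ → ℂ) (Nt : ℕ)
    (r₂ τ : ℝ) (x : ℂ → (Fin n → ℂ)) (κ : Fin s → ℂ → ℂ)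
    (Sx : Fin s → ℕ → Set ℂ), DD S KK r N ω Nt r₂ τ x κ Sx →
    ∃ (W : Set ℂ) (Φ : ℂ → ℂ → ℂ), Mo S ω Nt r₂ τ x κ Sx W Φ

/-- Addresses are unique; only finitely many points have exceptional addresses; the sets `WN` are
closed. -/
def StAU : Prop :=
  ∀ (d n s : ℕ) (S : Sys d n s) (KK : Fin s → (Fin n → ℂ) × (ℂ × ℂ) → ℂ)
    (r : ℝ) (N : Set (Fin n → ℂ)) (ω : Fin s → (Fin n → ℂ) × ℂ → ℂ) (Nt : ℕ)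
    (r₂ τ : ℝ) (x : ℂ → (Fin n → ℂ)) (κ : Fin s → ℂ → ℂ)
    (Sx : Fin s → ℕ → Set ℂ), DD S KK r N ω Nt r₂ τ x κ Sx →
    ∀ t ∈ ball (0 : ℂ) τ,
      (∀ k k', ∀ l < S.per k, ∀ l' < S.per k', ∀ w w' ζ : ℂ, ‖w‖ < r₂ → ‖w'‖ < r₂ →
        Ad S ω Nt x κ t k l w ζ → Ad S ω Nt x κ t k' l' w' ζ → k = k' ∧ l = l' ∧ w = w') ∧
      {ζ : ℂ | ∃ k, ∃ l < S.per k, ∃ w : ℂ, ‖w‖ < r₂ ∧ (w = 0 ∨ w ∈ Sx k l) ∧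
        Ad S ω Nt x κ t k l w ζ}.Finite ∧
      ∀ r₁ : ℝ, 0 < r₁ → r₁ < r₂ → IsClosed (S.WN ω Nt r₁ (x t) (fun k => κ k t))

/-- The motion is a conjugacy, and it fixes the base points if their addresses are constant. -/
def StCNJ : Prop :=
  ∀ (d n s : ℕ) (S : Sys d n s) (KK : Fin s → (Fin n → ℂ) × (ℂ × ℂ) → ℂ)
    (r : ℝ) (N : Set (Fin n → ℂ)) (ω : Fin s → (Fin n → ℂ) × ℂ → ℂ) (Nt : ℕ)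
    (r₂ τ : ℝ) (x : ℂ → (Fin n → ℂ)) (κ : Fin s → ℂ → ℂ)
    (Sx : Fin s → ℕ → Set ℂ) (W : Set ℂ) (Φ : ℂ → ℂ → ℂ),
    DD S KK r N ω Nt r₂ τ x κ Sx → Mo S ω Nt r₂ τ x κ Sx W Φ →
    (∀ z ∈ W, (S.F (x 0) (z, 1)).2 ≠ 0 ∧ (rt (S.co (x 0)) 1 z ∈ W →
      ∀ t ∈ ball (0 : ℂ) τ, (S.F (x t) (Φ t z, 1)).2 ≠ 0 ∧
        rt (S.co (x t)) 1 (Φ t z) = Φ t (rt (S.co (x 0)) 1 z))) ∧
    ∀ b : ℂ, (∃ k, ∃ l < S.per k, ∃ w : ℂ, ‖w‖ < r₂ ∧ ∀ t ∈ ball (0 : ℂ) τ,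
      Ad S ω Nt x κ t k l w b) →
      ∀ z ∈ W, z ≠ b → ∀ t ∈ ball (0 : ℂ) τ, Φ t z ≠ b

/-- The sets `WN` are forward invariant, and their points are attracted. -/
def StFWD : Prop :=
  ∀ (d n s : ℕ) (S : Sys d n s) (KK : Fin s → (Fin n → ℂ) × (ℂ × ℂ) → ℂ)
    (r : ℝ) (N : Set (Fin n → ℂ)) (ω : Fin s → (Fin n → ℂ) × ℂ → ℂ) (Nt : ℕ) (r₁ : ℝ)
    (x : Fin n → ℂ) (κ : Fin s → ℂ), S.Koe KK → S.Lin KK N r ω → x ∈ N → 0 < r₁ →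
    (∀ k, ‖κ k‖ * r₁ < r) → ∀ ζ ∈ S.WN ω Nt r₁ x κ,
      (S.F x (ζ, 1)).2 ≠ 0 ∧ rt (S.co x) 1 ζ ∈ S.WN ω Nt r₁ x κ ∧ ζ ∉ S.KS x

/-- nonvanishing minors at an admissible configuration -/
def Goodc {d n s l : ℕ} (S : Sys d n s) (KK : Fin s → (Fin n → ℂ) × (ℂ × ℂ) → ℂ)
    (e : Fin l → (Fin n → ℂ) → ℂ) (A : Finset (Pt d))
    (ks : Pt d → Fin s) (ls : Pt d → ℕ) (R : ℕ)
    (y : Ix d n s → ℂ) : Prop :=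
  S.Adm A ks ls y ∧ ∃ (sel : Fin R → Sys.Rw l d s A) (col : Fin (2 * d - 2) ⊕ Fin R → Ix d n s),
    (S.Mx KK e A ks ls sel col y).det ≠ 0

/-- At a good configuration with maximal number of attracted critical points the other critical
points are not attracted. -/
def StNU : Prop :=
  ∀ (d n s l : ℕ) (S : Sys d n s) (KK : Fin s → (Fin n → ℂ) × (ℂ × ℂ) → ℂ)
    (e : Fin l → (Fin n → ℂ) → ℂ) (A : Finset (Pt d))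
    (ks : Pt d → Fin s) (ls : Pt d → ℕ) (R : ℕ)
    (y : Ix d n s → ℂ), Goodc S KK e A ks ls R y →
    (∀ (A' : Finset (Pt d)) (ks' : Pt d → Fin s)
      (ls' : Pt d → ℕ), A ⊆ A' → A.card < A'.card → ¬ Goodc S KK e A' ks' ls' 0 y) →
    ∀ i : Fin (2 * d - 2), Sum.inl i ∉ A →
      ∀ k, ∀ m : ℕ, ¬ S.InC k (yx y) ((S.F (yx y))^[m] (yc y i, 1))

/-- If all critical points are marked as attracted then all critical vectors are attracted. -/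
def StALLC : Prop :=
  ∀ (d n s : ℕ) (S : Sys d n s) (ks : Pt d → Fin s)
    (ls : Pt d → ℕ) (y : Ix d n s → ℂ), S.Adm Finset.univ ks ls y →
    ∀ c : ℂ × ℂ, c ≠ 0 → wr (S.co (yx y)) c = 0 → ∃ k, ∃ m : ℕ, S.InC k (yx y) ((S.F (yx y))^[m] c)

/-- A holomorphic function on the leaf with the same zeros as the minor. -/
def StJT : Prop :=
  ∀ (d n s l : ℕ) (S : Sys d n s) (KK : Fin s → (Fin n → ℂ) × (ℂ × ℂ) → ℂ)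
    (e : Fin l → (Fin n → ℂ) → ℂ) (A : Finset (Pt d))
    (ks : Pt d → Fin s) (ls : Pt d → ℕ) (R : ℕ)
    (sel : Fin R → Sys.Rw l d s A) (col : Fin (2 * d - 2) ⊕ Fin R → Ix d n s), S.Koe KK →
    (∀ i, DifferentiableOn ℂ (e i) S.U) →
    ∃ Jt : (Ix d n s → ℂ) → ℂ,
      DifferentiableOn ℂ Jt {y | yx y ∈ S.U ∧ (∀ k, S.lam k (yx y) ≠ 0) ∧
        ∀ i ∈ A, (yx y, (S.F (yx y))^[ls i] (pc y i, 1)) ∈ S.Dom (ks i)} ∧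
      ∀ y : Ix d n s → ℂ, yx y ∈ S.U → (∀ k, S.lam k (yx y) ≠ 0) →
        (∀ i ∈ A, (yx y, (S.F (yx y))^[ls i] (pc y i, 1)) ∈ S.Dom (ks i)) → (∀ k, ys y k ≠ 0) →
        (Jt y = 0 ↔ (S.Mx KK e A ks ls sel col y).det = 0)

/-- Choice of the time: at time `Nt` all points which are attracted before time `N₀` are in the
linearised discs. -/
def StST : Prop :=
  ∀ (d n s : ℕ) (S : Sys d n s) (KK : Fin s → (Fin n → ℂ) × (ℂ × ℂ) → ℂ) (r : ℝ)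
    (N : Set (Fin n → ℂ)) (ω : Fin s → (Fin n → ℂ) × ℂ → ℂ), S.Koe KK → S.Lin KK N r ω →
    ∀ (r₁ : ℝ) (N₀ M₀ : ℕ) (κ₀ : Fin s → ℂ), 0 < r₁ → r₁ < r → (∀ k, κ₀ k ≠ 0) →
    (∀ k, ‖κ₀ k‖ * r₁ < r) → ∃ Nt : ℕ, M₀ ≤ Nt ∧ (∀ k, S.per k ∣ Nt) ∧
      ∀ x ∈ N, ∀ ζ : ℂ, (∃ k, ∃ m ≤ N₀, S.InC k x ((S.F x)^[m] (ζ, 1))) → ζ ∈ S.WN ω Nt r₁ x κ₀

/-- Nonconstancy of the parameter along a disc. -/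
def StNC : Prop :=
  ∀ (d n s : ℕ) (S : Sys d n s) (KK : Fin s → (Fin n → ℂ) × (ℂ × ℂ) → ℂ)
    (A : Finset (Pt d)) (ks : Pt d → Fin s) (ls : Pt d → ℕ) (τ : ℝ)
    (γ : ℂ → Ix d n s → ℂ) (Fh : Pt d → ℂ), 0 < τ → DifferentiableOn ℂ γ (ball 0 τ) →
    deriv γ 0 ≠ 0 → (∀ t ∈ ball (0 : ℂ) τ, S.Adm A ks ls (γ t) ∧ ∀ i ∈ A,
      KK (ks i) (yx (γ t), (S.F (yx (γ t)))^[ls i] (pc (γ t) i, 1)) / ys (γ t) (ks i) = Fh i) →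
    (∀ k : Fin s, ∃ i ∈ A, ks i = k ∧ Fh i ≠ 0) → ∃ t ∈ ball (0 : ℂ) τ, yx (γ t) ≠ yx (γ 0)

/-- If all critical points enter the marked discs then the map is hyperbolic. -/
def StTOP : Prop :=
  ∀ (d n s : ℕ) (S : Sys d n s), ∀ x ∈ S.U,
    (∀ c : ℂ × ℂ, c ≠ 0 → wr (S.co x) c = 0 → ∃ k, ∃ m : ℕ, S.InC k x ((S.F x)^[m] c)) →
    HypTop (sp (S.co x))

/-- Every marked cycle attracts a critical point. -/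
def StONE : Prop :=
  ∀ (d n s : ℕ) (S : Sys d n s) (x : Fin n → ℂ), x ∈ S.U → (∀ k, S.lam k x ≠ 0) →
    ∀ k : Fin s, ∃ c : ℂ × ℂ, c ≠ 0 ∧ wr (S.co x) c = 0 ∧
      ∃ m : ℕ, S.InC k x ((S.F x)^[m] c)

/-- There are at most `2 d - 2` marked cycles. -/
def StNUM : Prop :=
  ∀ (d n s : ℕ) (S : Sys d n s), ∀ x ∈ S.U, (∀ k, S.lam k x ≠ 0) →
    (∃ c : Fin (2 * d - 2) → ℂ, ∀ ζ : ℂ, wr (S.co x) (ζ, 1) = wr (S.co x) (1, 0) * ∏ i, (ζ - c i)) →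
    s ≤ 2 * d - 2

end Pool.Agent.W757.RD
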