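import Mathlib
import Pool.Agent.W757.RD.St
import Pool.Agent.W757.QR.St

/-! Statements of the project RD, part 2: the gain of area along a motion. -/

set_option autoImplicit false

open Topology Filter Metric Set MeasureTheory Polynomial
open Pool.Agent.H790R3.RB (CV hF cr ND wr rt Ix yx yc sp HypTop)
open Pool.Agent.W757.QR (nu de fx fr d1 d2 wn)

namespace Pool.Agent.W757.RD

/-- normalised coefficient vectors: the numerator is monic and infinity is fixed -/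
def Nrm {d : ℕ} (x : CV d) : Prop := x (0, Fin.last d) = 1 ∧ x (1, Fin.last d) = 0

/-- the base point `0` has a simple preimage different from `0`, `1` and infinity -/
def Gz {d : ℕ} (x : CV d) : Prop :=
  ∃ ζ : ℂ, ζ ≠ 0 ∧ ζ ≠ 1 ∧ (nu x).eval ζ = 0 ∧ (derivative (nu x)).eval ζ ≠ 0 ∧ (de x).eval ζ ≠ 0

/-- the logarithmic derivative of the flat structure -/
noncomputable def gg (β : ℝ) (z : ℂ) : ℂ := -(β / z) - β / (z - 1)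

/-- the covariant derivative of a vector field -/
noncomputable def Dv (β : ℝ) (v : ℂ → ℂ) (z : ℂ) : ℂ := deriv v z + gg β z * v z

/-- the derivative of the rational map with coefficients `x` in the direction `ξ` -/
noncomputable def et {d : ℕ} (x ξ : CV d) (z : ℂ) : ℂ :=
  ((nu ξ).eval z * (de x).eval z - (nu x).eval z * (de ξ).eval z) / (de x).eval z ^ 2

/-- the coefficient function of `v` in the differentiated equation -/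
noncomputable def chi {d : ℕ} (β : ℝ) (x : CV d) (z : ℂ) : ℂ :=
  d2 (nu x) (de x) z + d1 (nu x) (de x) z ^ 2 * gg β (fx x z) - d1 (nu x) (de x) z * gg β z

/-- the limit of the vector fields -/
noncomputable def uu {d : ℕ} (β : ℝ) (x ξ : CV d) (z : ℂ) : ℂ :=
  -(d1 (nu x) (de x) z * gg β (fx x z) * et x ξ z + deriv (et x ξ) z) / chi β x z

/-- Algebraic part of the uniform gain. -/
def StUGA : Prop :=
  ∀ (β : ℝ) (d : ℕ) (x : CV d), 1 / 2 < β → β < 1 → 2 ≤ d → ND x → Nrm x → Gz x →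
    {z : ℂ | chi β x z = 0}.Finite ∧
    ∀ ξ : CV d, ξ (0, Fin.last d) = 0 → ξ (1, Fin.last d) = 0 →
      (∀ᵐ z : ℂ, et x ξ z = uu β x ξ (fx x z) - d1 (nu x) (de x) z * uu β x ξ z) → ξ = 0

/-- Uniform gain: a vector field which is almost equivariant up to the infinitesimal perturbation
`ξ` has covariant derivative of square norm at least `c₀ * ‖ξ‖ ^ 2`. -/
def StUG : Prop :=
  ∀ (β : ℝ) (d : ℕ) (x₀ : CV d), 1 / 2 < β → β < 1 → 2 ≤ d → ND x₀ → Nrm x₀ → Gz x₀ →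
    ∃ c₀ ε₀ σ : ℝ, 0 < c₀ ∧ 0 < ε₀ ∧ 0 < σ ∧ ∀ x ξ : CV d, ‖x - x₀‖ < σ → Nrm x →
      ξ (0, Fin.last d) = 0 → ξ (1, Fin.last d) = 0 → ∀ (W K : Set ℂ) (v : ℂ → ℂ), IsOpen W →
      MeasurableSet K → K ⊆ W → mu β Kᶜ ≤ ENNReal.ofReal ε₀ → DifferentiableOn ℂ v W →
      (∀ᵐ z : ℂ, z ∈ K → fx x z ∈ K) →
      (∀ z ∈ W, (de x).eval z ≠ 0 → fx x z ∈ W →
        v (fx x z) - d1 (nu x) (de x) z * v z = et x ξ z) →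
      ENNReal.ofReal (c₀ * ‖ξ‖ ^ 2) ≤ ∫⁻ z in K, ENNReal.ofReal (‖Dv β v z‖ ^ 2) ∂mu β ∧
      (∫⁻ z in K, ENNReal.ofReal (‖Dv β v z‖ ^ 2) ∂mu β = 0 → ∀ᵐ z : ℂ, z ∈ K → v z = 0)

/-- the Taylor coefficients of a motion -/
noncomputable def cf (Φ : ℂ → ℂ → ℂ) (N : ℕ) (z : ℂ) : ℂ :=
  ((Nat.factorial N : ℂ))⁻¹ * iteratedDeriv N (fun t => Φ t z) 0

/-- The gain of area along a motion, integrated over a circle. -/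
def StGAIN : Prop :=
  ∀ (β τ ρ : ℝ) (N : ℕ) (W K : Set ℂ) (Φ : ℂ → ℂ → ℂ) (q : ℝ → ℝ), 1 / 2 < β → β < 1 → 0 < ρ →
    ρ < τ → 1 ≤ N → IsOpen W → MeasurableSet K → K ⊆ W →
    DifferentiableOn ℂ (fun p : ℂ × ℂ => Φ p.1 p.2) (ball 0 τ ×ˢ W) → (∀ z ∈ W, Φ 0 z = z) →
    (∀ t ∈ ball (0 : ℂ) τ, InjOn (Φ t) W) →
    (∀ t ∈ ball (0 : ℂ) τ, ∀ z ∈ W, z ≠ 0 → z ≠ 1 → Φ t z ≠ 0 ∧ Φ t z ≠ 1) →
    (∀ z ∈ W, ∀ k : ℕ, 1 ≤ k → k < N → cf Φ k z = 0) →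
    Continuous q → (∀ θ, 0 ≤ q θ) →
    (∀ θ : ℝ, ENNReal.ofReal (q θ) + mu β (Φ (circleMap 0 ρ θ) '' K) ≤ mu β univ) →
    ENNReal.ofReal (∫ θ in (0 : ℝ)..(2 * Real.pi), q θ) + ENNReal.ofReal (2 * Real.pi) *
      (mu β K + ∫⁻ z in K, ENNReal.ofReal (ρ ^ (2 * N) * ‖Dv β (cf Φ N) z‖ ^ 2) ∂mu β) ≤
      ENNReal.ofReal (2 * Real.pi) * mu β univ

/-- The disc inequality. -/
def StDI : Prop :=
  ∀ (β : ℝ) (d : ℕ) (x₀ : CV d), 1 / 2 < β → β < 1 → 2 ≤ d → ND x₀ → Nrm x₀ → Gz x₀ →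
    ∃ c₀ ε₀ σ : ℝ, 0 < c₀ ∧ 0 < ε₀ ∧ 0 < σ ∧
    ∀ (n s : ℕ) (S : Sys d n s), (∀ x ∈ S.U, Nrm (S.co x)) →
    ∀ (KK : Fin s → (Fin n → ℂ) × (ℂ × ℂ) → ℂ) (r : ℝ) (N : Set (Fin n → ℂ))
      (ω : Fin s → (Fin n → ℂ) × ℂ → ℂ) (Nt : ℕ) (r₁ r₂ τ : ℝ) (x : ℂ → (Fin n → ℂ))
      (κ : Fin s → ℂ → ℂ) (Sx : Fin s → ℕ → Set ℂ), DD S KK r N ω Nt r₂ τ x κ Sx →
      0 < r₁ → r₁ < r₂ →
      (∀ j : Fin 2, ∃ k, ∃ l < S.per k, ∃ w : ℂ, ‖w‖ < r₂ ∧ ∀ t ∈ ball (0 : ℂ) τ,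
        Ad S ω Nt x κ t k l w (bz j)) →
      ‖S.co (x 0) - x₀‖ < σ → S.AN β ω Nt r₁ (x 0) (fun k => κ k 0) ≤ ε₀ →
      (∃ t ∈ ball (0 : ℂ) τ, S.co (x t) ≠ S.co (x 0)) →
      ∃ ρ₁ : ℝ, 0 < ρ₁ ∧ ρ₁ ≤ τ ∧ ∀ ρ : ℝ, 0 < ρ → ρ < ρ₁ → ∀ q : ℝ → ℝ, Continuous q →
      (∀ θ, 0 ≤ q θ ∧
        q θ ≤ S.AN β ω Nt r₁ (x (circleMap 0 ρ θ)) (fun k => κ k (circleMap 0 ρ θ))) →
      ∫ θ in (0 : ℝ)..(2 * Real.pi), (q θ + c₀ * ∑ i : Fin 2 × Fin (d + 1),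
        ‖S.co (x (circleMap 0 ρ θ)) i - S.co (x 0) i‖ ^ 2) ≤
        2 * Real.pi * S.AN β ω Nt r₁ (x 0) (fun k => κ k 0)

end Pool.Agent.W757.RD
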