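import Mathlib
import Pool.Agent.W757.RD.StG

/-! Statements of the project RD, part 3: the universal family of rational maps which fix infinity
and extensions of it by marked cycles. -/

set_option autoImplicit false

open Topology Filter Metric Set MeasureTheory
open Pool.Agent.H790R3.RB (CV hF cr ND wr rt Ix yx yc sp HypTop Attd Sink)
open scoped OnePoint

namespace Pool.Agent.W757.RD

/-- the rational map with monic numerator and with the coordinates of `u` as the other coefficients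
of the numerator and the coefficients of the denominator, which has degree less than `d` -/
noncomputable def fam {d : ℕ} (u : Fin (2 * d) → ℂ) : CV d := fun p =>
  if h : (p.2 : ℕ) < d then
    u ⟨(p.1 : ℕ) * d + (p.2 : ℕ), by
      have h1 : (p.1 : ℕ) ≤ 1 := Nat.lt_succ_iff.mp p.1.isLt
      have h2 : (p.1 : ℕ) * d ≤ 1 * d := Nat.mul_le_mul_right d h1
      omega⟩
  else if p.1 = 0 then 1 else 0

/-- the parameters of rational maps of degree `d` for which infinity is not a critical point -/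
def U₀ (d : ℕ) : Set (Fin (2 * d) → ℂ) :=
  {u | ND (fam u) ∧ wr (fam u) (1, 0) ≠ 0}

/-- the parameter of the universal family -/
def xp {m s : ℕ} (x : Fin (m + s) → ℂ) : Fin m → ℂ := fun i => x (Fin.castAdd s i)

/-- the additional coordinates: positions of the marked points -/
def bp {m s : ℕ} (x : Fin (m + s) → ℂ) (k : Fin s) : ℂ := x (Fin.natAdd m k)

/-- The points `p k` are attracting periodic points, with periods `per`, of the map with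
parameter `u`, and they belong to different cycles. -/
structure Mk {d : ℕ} (u : Fin (2 * d) → ℂ) (s : ℕ) (per : Fin s → ℕ) (p : Fin s → ℂ) : Prop where
  xU : u ∈ U₀ d
  pp : ∀ k, 1 ≤ per k
  cyc : ∀ k, cr ((hF (fam u))^[per k] (p k, 1)) (p k, 1) = 0
  mul : ∀ k, ‖deriv (rt (fam u) (per k)) (p k)‖ < 1
  dis : ∀ k k', ∀ m : ℕ, cr ((hF (fam u))^[m] (p k, 1)) (p k', 1) = 0 → k = k' ∧ per k ∣ m

/-- `S` extends the universal family by marked cycles. -/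
structure Ext {d s : ℕ} (S : Sys d (2 * d + s) s) : Prop where
  U : ∀ x ∈ S.U, xp x ∈ U₀ d
  co : ∀ x ∈ S.U, S.co x = fam (xp x)
  bl : ∀ x ∈ S.U, ∀ᶠ x' in 𝓝 x, xp x' = xp x → ∀ k, S.b k x' = S.b k x

/-- the normalisations of an extension -/
noncomputable def ee {d s : ℕ} (S : Sys d (2 * d + s) s) (k : Fin s) (x : Fin (2 * d + s) → ℂ) : ℂ :=
  bp x k - S.b k x

/-- The universal family. -/
def StFM : Prop :=
  ∀ d : ℕ, 2 ≤ d → IsOpen (U₀ d) ∧ Differentiable ℂ (fam : (Fin (2 * d) → ℂ) → CV d) ∧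
    (∀ u u' : Fin (2 * d) → ℂ, ‖fam u - fam u'‖ = ‖u - u'‖) ∧
    (∀ u : Fin (2 * d) → ℂ, Nrm (fam u)) ∧ ∀ x : CV d, Nrm x → ∃ u : Fin (2 * d) → ℂ, fam u = x

/-- Continuation of marked cycles. -/
def StLOCM : Prop :=
  ∀ (d : ℕ) (u₁ : Fin (2 * d) → ℂ) (s : ℕ) (per : Fin s → ℕ) (p : Fin s → ℂ), 2 ≤ d →
    Mk u₁ s per p → ∃ (ε r θ : ℝ) (b : Fin s → (Fin (2 * d) → ℂ) → ℂ), 0 < ε ∧ 0 < r ∧ 0 ≤ θ ∧
      θ < 1 ∧ ball u₁ ε ⊆ U₀ d ∧ (∀ k, b k u₁ = p k) ∧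
      (∀ k, DifferentiableOn ℂ (b k) (ball u₁ ε)) ∧
      (∀ u ∈ ball u₁ ε, ∀ k, ‖b k u - p k‖ < r / 8) ∧
      (∀ u ∈ ball u₁ ε, ∀ k, ∀ z : ℂ, ‖z‖ < r → ∃ a z' : ℂ, a ≠ 0 ∧
        ‖z'‖ ≤ θ * ‖z‖ ∧ (hF (fam u))^[per k] (b k u + z, 1) = a • ((b k u + z', 1) : ℂ × ℂ)) ∧
      (∀ u ∈ ball u₁ ε, ∀ k k', ∀ z z' a : ℂ, ∀ m : ℕ, ‖z‖ < r → ‖z'‖ < r →
        (hF (fam u))^[m] (b k u + z, 1) = a • ((b k' u + z', 1) : ℂ × ℂ) → k = k' ∧ per k ∣ m) ∧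
      ∀ u ∈ ball u₁ ε, ∀ k : Fin s, ∀ z : ℂ, ‖z - p k‖ < r →
        cr ((hF (fam u))^[per k] (z, 1)) (z, 1) = 0 → z = b k u

/-- The marked configurations with given multipliers form a compact set. -/
def StDCL : Prop :=
  ∀ (d : ℕ) (B : Set (Fin (2 * d) → ℂ)) (s : ℕ) (per : Fin s → ℕ) (v : Fin s → ℂ), 2 ≤ d →
    IsCompact B → B ⊆ U₀ d → (∀ k, 1 ≤ per k) → (∀ k, ‖v k‖ < 1) →
    IsCompact {q : Fin (2 * d + s) → ℂ | xp q ∈ B ∧ Mk (xp q) s per (bp q) ∧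
      ∀ k, deriv (rt (fam (xp q)) (per k)) (bp q k) = v k}

/-- Existence of extensions. -/
def StMARK : Prop :=
  ∀ (d : ℕ) (B : Set (Fin (2 * d) → ℂ)), 2 ≤ d → IsCompact B → B ⊆ U₀ d → ∀ u₁ ∈ B, ∀ (s : ℕ)
    (per : Fin s → ℕ) (p : Fin s → ℂ), Mk u₁ s per p →
    ∃ (S : Sys d (2 * d + s) s) (q₀ : Fin (2 * d + s) → ℂ), Ext S ∧ S.per = per ∧
      q₀ ∈ S.U ∧ xp q₀ = u₁ ∧ (∀ k, bp q₀ k = p k) ∧ (∀ k, S.b k q₀ = p k) ∧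
      IsCompact {q | q ∈ S.U ∧ xp q ∈ B ∧ (∀ k, S.b k q = bp q k) ∧
        ∀ k, S.lam k q = S.lam k q₀}

/-- The notions which are used do not depend on the extension (and on the position `bp` of the
additional coordinates, as long as the marked points are the same). -/
def StTRF : Prop :=
  ∀ (d s : ℕ) (S₁ S₂ : Sys d (2 * d + s) s), Ext S₁ → Ext S₂ →
    S₁.per = S₂.per → ∀ q₁ q₂ : Fin (2 * d + s) → ℂ, q₁ ∈ S₁.U → q₂ ∈ S₂.U → xp q₁ = xp q₂ →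
    (∀ k, S₁.b k q₁ = S₂.b k q₂) → S₁.KS q₁ = S₂.KS q₂ ∧ (∀ k, S₁.lam k q₁ = S₂.lam k q₂) ∧
    ∀ (KK₁ KK₂ : Fin s → (Fin (2 * d + s) → ℂ) × (ℂ × ℂ) → ℂ)
      (A : Finset (Pt d)) (ks : Pt d → Fin s) (ls : Pt d → ℕ) (R : ℕ)
      (y₁ y₂ : Ix d (2 * d + s) s → ℂ),
      S₁.Koe KK₁ → S₂.Koe KK₂ → yx y₁ = q₁ → yx y₂ = q₂ → yc y₁ = yc y₂ → ys y₁ = ys y₂ →
      Goodc S₁ KK₁ (ee S₁) A ks ls R y₁ → Goodc S₂ KK₂ (ee S₂) A ks ls R y₂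

/-- All attracting cycles can be marked, if infinity is not attracting. -/
def StSMK : Prop :=
  ∀ (d : ℕ) (u : Fin (2 * d) → ℂ), 2 ≤ d → u ∈ U₀ d → (∀ p : ℕ, ¬ Sink (sp (fam u)) p ∞) →
    ∃ (s : ℕ) (per : Fin s → ℕ) (p : Fin s → ℂ),
    Mk u s per p ∧ ∀ (S : Sys d (2 * d + s) s) (q : Fin (2 * d + s) → ℂ), Ext S → S.per = per →
      q ∈ S.U → xp q = u → (∀ k, S.b k q = p k) →
      ∀ ζ : ℂ, Attd (sp (fam u)) (ζ : OnePoint ℂ) → ∃ k, ∃ m : ℕ, S.InC k q ((S.F q)^[m] (ζ, 1))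

/-- The map has simple finite critical points, which are not periodic of period dividing `q`. -/
def Gnr {d : ℕ} (q : ℕ) (x : CV d) : Prop :=
  wr x (1, 0) ≠ 0 ∧ (∃ c : Fin (2 * d - 2) → ℂ, Function.Injective c ∧
    ∀ ζ : ℂ, wr x (ζ, 1) = wr x (1, 0) * ∏ i, (ζ - c i)) ∧
  ∀ p : ℂ × ℂ, p ≠ 0 → wr x p = 0 → cr ((hF x)^[q] p) p ≠ 0

/-- Genericity in the universal family. -/
def StGENX : Prop :=
  ∀ (d : ℕ) (u₁ : Fin (2 * d) → ℂ) (q : ℕ), 2 ≤ d → 1 ≤ q → ∀ ε : ℝ, 0 < ε →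
    ∃ u : Fin (2 * d) → ℂ, ‖u - u₁‖ < ε ∧ Gnr q (fam u)

/-- Cycles without critical points have nonzero multipliers. -/
def StLNE : Prop :=
  ∀ (d n s : ℕ) (S : Sys d n s) (q : ℕ), ∀ x ∈ S.U, (∀ k, S.per k ∣ q) → 1 ≤ q →
    (∀ p : ℂ × ℂ, p ≠ 0 → wr (S.co x) p = 0 → cr ((hF (S.co x))^[q] p) p ≠ 0) →
    ∀ k, S.lam k x ≠ 0

/-- Good configurations near a map for which infinity is not attracting and the base points are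
attracted. -/
def StSTART : Prop :=
  ∀ (β : ℝ) (d : ℕ) (u₁ : Fin (2 * d) → ℂ), 1 / 2 < β → β < 1 → 2 ≤ d → u₁ ∈ U₀ d →
    (∀ p : ℕ, ¬ Sink (sp (fam u₁)) p ∞) →
    (∀ j : Fin 2, Attd (sp (fam u₁)) ((bz j : ℂ) : OnePoint ℂ)) →
    ∀ ε : ℝ, 0 < ε → ∃ (s : ℕ) (S : Sys d (2 * d + s) s)
      (KK : Fin s → (Fin (2 * d + s) → ℂ) × (ℂ × ℂ) → ℂ) (ks : Pt d → Fin s) (ls : Pt d → ℕ)
      (y : Ix d (2 * d + s) s → ℂ),
      Ext S ∧ S.Koe KK ∧ ‖xp (yx y) - u₁‖ < ε ∧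
      mu β (S.KS (yx y)) ≤ mu β {ζ : ℂ | ¬ Attd (sp (fam u₁)) (ζ : OnePoint ℂ)} +
        ENNReal.ofReal ε ∧
      Goodc S KK (ee S) {Sum.inr 0, Sum.inr 1} ks ls 0 y

/-- The minimal principle. -/
def StMINP : Prop :=
  ∀ (β : ℝ) (d : ℕ) (u₀ : Fin (2 * d) → ℂ), 1 / 2 < β → β < 1 → 2 ≤ d → u₀ ∈ U₀ d →
    Gz (fam u₀) → ∃ C₁ ε₁ σ₁ : ℝ, 0 < C₁ ∧ 0 < ε₁ ∧ 0 < σ₁ ∧ closedBall u₀ σ₁ ⊆ U₀ d ∧
    ∀ (s : ℕ) (S : Sys d (2 * d + s) s) (KK : Fin s → (Fin (2 * d + s) → ℂ) × (ℂ × ℂ) → ℂ)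
      (A : Finset (Pt d)) (ks : Pt d → Fin s) (ls : Pt d → ℕ) (R : ℕ)
      (y : Ix d (2 * d + s) s → ℂ), Ext S → S.Koe KK → (∀ k, S.b k (yx y) = bp (yx y) k) →
      IsCompact {q | q ∈ S.U ∧ xp q ∈ closedBall u₀ σ₁ ∧ (∀ k, S.b k q = bp q k) ∧
        ∀ k, S.lam k q = S.lam k (yx y)} →
      ‖xp (yx y) - u₀‖ < σ₁ / 2 → ∀ a : ℝ, 0 ≤ a → a < ε₁ →
      mu β (S.KS (yx y)) ≤ ENNReal.ofReal a →
      Goodc S KK (ee S) A ks ls R y → Sum.inr 0 ∈ A → Sum.inr 1 ∈ A → A.card < 2 * d →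
      ∀ η : ℝ, 0 < η →
      ∃ (A' : Finset (Pt d)) (ks' : Pt d → Fin s) (ls' : Pt d → ℕ)
        (z : Ix d (2 * d + s) s → ℂ), ‖xp (yx z) - xp (yx y)‖ ≤ C₁ * Real.sqrt a + η ∧
        mu β (S.KS (yx z)) ≤ ENNReal.ofReal (a + η) ∧ Sum.inr 0 ∈ A' ∧ Sum.inr 1 ∈ A' ∧
        ((A.card < A'.card ∧ Goodc S KK (ee S) A' ks' ls' 0 z) ∨
          (A'.card = A.card ∧ Goodc S KK (ee S) A' ks' ls' (R + 1) z))

/-- The distance to the hyperbolic maps in the universal family. -/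
def StSEL : Prop :=
  ∀ (β : ℝ) (d : ℕ) (u₀ : Fin (2 * d) → ℂ), 1 / 2 < β → β < 1 → 2 ≤ d → u₀ ∈ U₀ d →
    Gz (fam u₀) → ∃ C₂ ε₂ σ₂ : ℝ, 0 < C₂ ∧ 0 < ε₂ ∧ 0 < σ₂ ∧
    ∀ u₁ : Fin (2 * d) → ℂ, ‖u₁ - u₀‖ < σ₂ → (∀ p : ℕ, ¬ Sink (sp (fam u₁)) p ∞) →
      (∀ j : Fin 2, Attd (sp (fam u₁)) ((bz j : ℂ) : OnePoint ℂ)) →
      ∀ a : ℝ, 0 ≤ a → a < ε₂ →
      mu β {ζ : ℂ | ¬ Attd (sp (fam u₁)) (ζ : OnePoint ℂ)} ≤ ENNReal.ofReal a →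
      ∀ η : ℝ, 0 < η → ∃ u : Fin (2 * d) → ℂ, ‖u - u₁‖ ≤ C₂ * Real.sqrt a + η ∧ u ∈ U₀ d ∧
        HypTop (sp (fam u))

end Pool.Agent.W757.RD
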