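import Mathlib
import Pool.Agent.W757.RD.St
import Pool.Agent.H790R3.RB.Basic

/-! Existence of the Koenigs maps. -/

set_option autoImplicit false

open Topology Filter Metric Set MeasureTheory

open Pool.Agent.H790R3.RB

namespace Pool.Agent.W757.RD

namespace KOE

/-- charts -/
noncomputable def chh {s : ℕ} {X : Type} (b : Fin s → X → ℂ) (k : Fin s) (x : X) (z : ℂ) : ℂ × ℂ :=
  (b k x + z, 1)

/-- local coordinates -/
noncomputable def lcc {s : ℕ} {X : Type} (b : Fin s → X → ℂ) (k : Fin s) (x : X)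
    (p : ℂ × ℂ) : ℂ := p.1 / p.2 - b k x

/-- the coordinate which is nonzero in the chart -/
noncomputable def den {s : ℕ} (_ : Fin s) (p : ℂ × ℂ) : ℂ := p.2

theorem den_continuous {s : ℕ} (k : Fin s) : Continuous (den k) := continuous_snd

theorem loc_smul_ch {s : ℕ} {X : Type} (b : Fin s → X → ℂ) (k : Fin s) (x : X)
    {a : ℂ} (z : ℂ) (ha : a ≠ 0) : lcc b k x (a • chh b k x z) = z := by
  simp only [lcc, chh, Prod.smul_fst, Prod.smul_snd, smul_eq_mul, mul_one]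
  field_simp
  ring

theorem ch_ne_zero {s : ℕ} {X : Type} (b : Fin s → X → ℂ) (k : Fin s) (x : X) (z : ℂ) :
    chh b k x z ≠ 0 := by
  intro h
  have := congrArg Prod.snd h
  simp [chh] at this

theorem den_smul_ch {s : ℕ} {X : Type} (b : Fin s → X → ℂ) (k : Fin s) (x : X) (a z : ℂ) :
    den k (a • chh b k x z) = a := by
  simp [den, chh]

theorem eq_smul_ch {s : ℕ} {X : Type} (b : Fin s → X → ℂ) (k : Fin s) (x : X)
    {p : ℂ × ℂ} (h : den k p ≠ 0) : p = den k p • chh b k x (lcc b k x p) := by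
  have h' : p.2 ≠ 0 := h
  ext
  · simp only [den, chh, lcc, Prod.smul_fst, smul_eq_mul]
    field_simp
    ring
  · simp [den, chh, lcc]

variable {d n s : ℕ} (S : Sys d n s)

theorem inC_iff (k : Fin s) (x : Fin n → ℂ) (p : ℂ × ℂ) :
    S.InC k x p ↔ den k p ≠ 0 ∧ ‖lcc S.b k x p‖ < (S.r₀ k) := by
  constructor
  · rintro ⟨a, z, ha, hz, rfl⟩
    change den k (a • chh S.b k x z) ≠ 0 ∧ ‖lcc S.b k x (a • chh S.b k x z)‖ < S.r₀ k
    rw [den_smul_ch, loc_smul_ch _ _ _ _ ha]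
    exact ⟨ha, hz⟩
  · rintro ⟨h1, h2⟩
    exact ⟨den k p, lcc S.b k x p, h1, h2, eq_smul_ch S.b k x h1⟩

theorem isOpen_U : IsOpen S.U := S.hU

theorem isOpen_B (hLAM : StLAM) (k : Fin s) : IsOpen {x | x ∈ S.U ∧ S.lam k x ≠ 0} := by
  have h := ((hLAM d n s S).1 k).continuousOn
  have h1 := h.isOpen_inter_preimage (isOpen_U S) (isOpen_compl_singleton (x := (0 : ℂ)))
  exact h1

/-- iterates as functions of the parameter and the point -/
theorem F_diffAt (N : ℕ) {q : (Fin n → ℂ) × (ℂ × ℂ)} (hq : q.1 ∈ S.U) :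
    DifferentiableAt ℂ (fun q : (Fin n → ℂ) × (ℂ × ℂ) => (S.F q.1)^[N] q.2) q := by
  have h1 : DifferentiableAt ℂ S.co q.1 := S.hco.differentiableAt (S.hU.mem_nhds hq)
  have h2 : DifferentiableAt ℂ (fun q : (Fin n → ℂ) × (ℂ × ℂ) => (S.co q.1, q.2)) q :=
    (h1.comp q differentiableAt_fst).prodMk differentiableAt_snd
  exact ((hF_iter_differentiable d N) (S.co q.1, q.2)).comp q h2

theorem loc_diffAt (k : Fin s) {q : (Fin n → ℂ) × (ℂ × ℂ)} (hq : q.1 ∈ S.U)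
    (hd : den k q.2 ≠ 0) :
    DifferentiableAt ℂ (fun q : (Fin n → ℂ) × (ℂ × ℂ) => lcc S.b k q.1 q.2) q := by
  have h' : q.2.2 ≠ 0 := hd
  have hb : DifferentiableAt ℂ (S.b k) q.1 := (S.hb k).differentiableAt (S.hU.mem_nhds hq)
  show DifferentiableAt ℂ (fun q : (Fin n → ℂ) × (ℂ × ℂ) => q.2.1 / q.2.2 - S.b k q.1) q
  have e1 : DifferentiableAt ℂ (fun q : (Fin n → ℂ) × (ℂ × ℂ) => q.2.2) q := by fun_prop
  have e2 : DifferentiableAt ℂ (fun q : (Fin n → ℂ) × (ℂ × ℂ) => q.2.1) q := by fun_prop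
  have e3 : DifferentiableAt ℂ (fun q : (Fin n → ℂ) × (ℂ × ℂ) => q.2.1 * (q.2.2)⁻¹ - S.b k q.1) q :=
    (e2.mul (e1.inv h')).sub (hb.comp q differentiableAt_fst)
  simpa only [div_eq_mul_inv] using e3

theorem locF_diffAt (k : Fin s) (N : ℕ) {q : (Fin n → ℂ) × (ℂ × ℂ)} (hq : q.1 ∈ S.U)
    (hd : den k ((S.F q.1)^[N] q.2) ≠ 0) :
    DifferentiableAt ℂ (fun q : (Fin n → ℂ) × (ℂ × ℂ) =>
      lcc S.b k q.1 ((S.F q.1)^[N] q.2)) q := by
  have h1 := F_diffAt S N hq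
  have h2 : DifferentiableAt ℂ (fun q : (Fin n → ℂ) × (ℂ × ℂ) => (q.1, (S.F q.1)^[N] q.2)) q :=
    differentiableAt_fst.prodMk h1
  exact DifferentiableAt.comp (f := fun q : (Fin n → ℂ) × (ℂ × ℂ) => (q.1, (S.F q.1)^[N] q.2))
    (g := fun q : (Fin n → ℂ) × (ℂ × ℂ) => lcc S.b k q.1 q.2) q
    (loc_diffAt S k (q := (q.1, (S.F q.1)^[N] q.2)) hq hd) h2

/-- `InC` at time `N` is an open condition -/
theorem ev_inC (k : Fin s) (N : ℕ) {q : (Fin n → ℂ) × (ℂ × ℂ)} (hq : q.1 ∈ S.U)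
    (h : S.InC k q.1 ((S.F q.1)^[N] q.2)) :
    ∀ᶠ q' in 𝓝 q, S.InC k q'.1 ((S.F q'.1)^[N] q'.2) := by
  obtain ⟨h1, h2⟩ := (inC_iff S k _ _).1 h
  have c1 : ContinuousAt (fun q : (Fin n → ℂ) × (ℂ × ℂ) => den k ((S.F q.1)^[N] q.2)) q :=
    (den_continuous k).continuousAt.comp (F_diffAt S N hq).continuousAt
  have c2 : ContinuousAt (fun q : (Fin n → ℂ) × (ℂ × ℂ) =>
      ‖lcc S.b k q.1 ((S.F q.1)^[N] q.2)‖) q := (locF_diffAt S k N hq h1).continuousAt.norm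
  filter_upwards [c1.eventually_ne h1, c2.eventually_lt continuousAt_const h2] with q' e1 e2
  exact (inC_iff S k _ _).2 ⟨e1, e2⟩

theorem isOpen_Dom (hLAM : StLAM) (k : Fin s) : IsOpen (S.Dom k) := by
  rw [isOpen_iff_mem_nhds]
  rintro q ⟨h1, h2, N, h3⟩
  have e1 := (isOpen_B S hLAM k).mem_nhds (show q.1 ∈ {x | x ∈ S.U ∧ S.lam k x ≠ 0} from ⟨h1, h2⟩)
  have e2 : ∀ᶠ q' : (Fin n → ℂ) × (ℂ × ℂ) in 𝓝 q, q'.1 ∈ {x | x ∈ S.U ∧ S.lam k x ≠ 0} :=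
    continuousAt_fst.eventually e1
  filter_upwards [e2, ev_inC S k _ h1 h3] with q' a1 a2
  exact ⟨a1.1, a1.2, N, a2⟩

theorem step (hLAM : StLAM) (k : Fin s) {x : Fin n → ℂ} (hx : x ∈ S.U) {z : ℂ}
    (hz : ‖z‖ < (S.r₀ k)) {a : ℂ} (ha : a ≠ 0) : ∃ a' : ℂ, a' ≠ 0 ∧
      (S.F x)^[S.per k] (a • S.cht k x z) = a' • S.cht k x (S.hk k x z) := by
  obtain ⟨-, a', ha', h1⟩ := (hLAM d n s S).2.2.2 k x hx z hz
  refine ⟨a ^ (d ^ S.per k) * a', mul_ne_zero (pow_ne_zero _ ha) ha', ?_⟩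
  have h2 : (S.F x)^[S.per k] (a • S.cht k x z) =
      a ^ (d ^ S.per k) • (S.F x)^[S.per k] (S.cht k x z) := hF_iter_smul _ _ _ _
  rw [h2, h1, smul_smul]

theorem hk_lt (hLAM : StLAM) (k : Fin s) {x : Fin n → ℂ} (hx : x ∈ S.U) {z : ℂ}
    (hz : ‖z‖ < (S.r₀ k)) : ‖S.hk k x z‖ < (S.r₀ k) := by
  obtain ⟨h1, -⟩ := (hLAM d n s S).2.2.2 k x hx z hz
  refine h1.trans_lt ?_
  calc S.θ * ‖z‖ ≤ 1 * ‖z‖ := mul_le_mul_of_nonneg_right S.hθ.le (norm_nonneg _)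
    _ = ‖z‖ := one_mul _
    _ < (S.r₀ k) := hz

/-- the orbit after `N` returns -/
theorem orbit (hLAM : StLAM) (k : Fin s) {x : Fin n → ℂ} (hx : x ∈ S.U)
    (L : ℂ → ℂ) (hL : ∀ z ∈ ball (0 : ℂ) (S.r₀ k), L (S.hk k x z) = S.lam k x * L z)
    {p : ℂ × ℂ} {N : ℕ} {z a : ℂ} (hz : ‖z‖ < (S.r₀ k)) (ha : a ≠ 0)
    (h : (S.F x)^[S.per k * N] p = a • S.cht k x z) (m : ℕ) :
    ∃ z' a' : ℂ, ‖z'‖ < (S.r₀ k) ∧ a' ≠ 0 ∧ (S.F x)^[S.per k * (N + m)] p = a' • S.cht k x z' ∧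
      L z' = S.lam k x ^ m * L z := by
  induction m with
  | zero => exact ⟨z, a, hz, ha, h, by simp⟩
  | succ m ih =>
    obtain ⟨z', a', hz', ha', h1, h2⟩ := ih
    obtain ⟨a'', ha'', h3⟩ := step S hLAM k hx hz' ha'
    refine ⟨S.hk k x z', a'', hk_lt S hLAM k hx hz', ha'', ?_, ?_⟩
    · have e : S.per k * (N + (m + 1)) = S.per k + S.per k * (N + m) := by ring
      rw [e, Function.iterate_add_apply, h1, h3]
    · rw [hL z' (by simpa using hz'), h2]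
      ring

open Classical in
/-- the Koenigs map of the cycle `k` -/
noncomputable def KK (L : Fin s → (Fin n → ℂ) → ℂ → ℂ) (k : Fin s)
    (q : (Fin n → ℂ) × (ℂ × ℂ)) : ℂ :=
  if h : q ∈ S.Dom k then
    (S.lam k q.1)⁻¹ ^ h.2.2.choose *
      L k q.1 (lcc S.b k q.1 ((S.F q.1)^[S.per k * h.2.2.choose] q.2)) else 0

theorem KK_val (hLAM : StLAM) (L : Fin s → (Fin n → ℂ) → ℂ → ℂ) (k : Fin s)
    {x : Fin n → ℂ} (hx : x ∈ S.U) (hl : S.lam k x ≠ 0)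
    (hL : ∀ z ∈ ball (0 : ℂ) (S.r₀ k), L k x (S.hk k x z) = S.lam k x * L k x z)
    {p : ℂ × ℂ} {N : ℕ} {z a : ℂ} (hz : ‖z‖ < (S.r₀ k)) (ha : a ≠ 0)
    (h : (S.F x)^[S.per k * N] p = a • S.cht k x z) :
    KK S L k (x, p) = (S.lam k x)⁻¹ ^ N * L k x z := by
  have hD : (x, p) ∈ S.Dom k := ⟨hx, hl, N, a, z, ha, hz, h⟩
  have hloc : ∀ {a z : ℂ}, a ≠ 0 → lcc S.b k x (a • S.cht k x z) = z := fun {a z} ha =>
    loc_smul_ch S.b k x z ha
  unfold KK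
  rw [dif_pos hD]
  show (S.lam k x)⁻¹ ^ hD.2.2.choose *
      L k x (lcc S.b k x ((S.F x)^[S.per k * hD.2.2.choose] p)) = _
  obtain ⟨a0, z0, ha0, hz0, h0⟩ := hD.2.2.choose_spec
  generalize hD.2.2.choose = N0 at h0 ⊢
  have h0' : (S.F x)^[S.per k * N0] p = a0 • S.cht k x z0 := h0
  rw [h0', hloc ha0]
  rcases le_total N N0 with hN | hN
  · obtain ⟨m, rfl⟩ := Nat.exists_eq_add_of_le hN
    obtain ⟨z', a', hz', ha', h1, h2⟩ := orbit S hLAM k hx (L k x) hL hz ha h m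
    have e : z' = z0 := by
      rw [← hloc (z := z') ha', ← h1, h0', hloc ha0]
    rw [← e, h2, pow_add]
    have : S.lam k x ^ m ≠ 0 := pow_ne_zero _ hl
    rw [inv_pow, inv_pow]
    field_simp
  · obtain ⟨m, rfl⟩ := Nat.exists_eq_add_of_le hN
    obtain ⟨z', a', hz', ha', h1, h2⟩ := orbit S hLAM k hx (L k x) hL hz0 ha0 h0' m
    have e : z' = z := by
      rw [← hloc (z := z') ha', ← h1, h, hloc ha]
    rw [← e, h2, pow_add]
    have : S.lam k x ^ m ≠ 0 := pow_ne_zero _ hl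
    rw [inv_pow, inv_pow]
    field_simp

end KOE

open KOE in
/-- Existence of the Koenigs maps. -/
theorem KOE (hLAM : StLAM) (hKOEN : StKOEN) : StKOE := by
  intro d n s S
  have hex : ∀ k : Fin s, ∃ L : (Fin n → ℂ) → ℂ → ℂ,
      DifferentiableOn ℂ (fun p : (Fin n → ℂ) × ℂ => L p.1 p.2)
        ({x | x ∈ S.U ∧ S.lam k x ≠ 0} ×ˢ ball 0 (S.r₀ k)) ∧
      ∀ x ∈ {x | x ∈ S.U ∧ S.lam k x ≠ 0}, L x 0 = 0 ∧ deriv (L x) 0 = 1 ∧
        ∀ z ∈ ball (0 : ℂ) (S.r₀ k), L x (S.hk k x z) = deriv (S.hk k x) 0 * L x z := by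
    intro k
    refine hKOEN (Fin n → ℂ) {x | x ∈ S.U ∧ S.lam k x ≠ 0} (S.r₀ k) S.θ (S.hk k)
      (isOpen_B S hLAM k) (S.hr₀ k) S.hθ ?_ ?_ ?_
    · exact ((hLAM d n s S).2.2.1 k).mono (prod_mono (fun x hx => hx.1) le_rfl)
    · intro x hx z hz
      exact ((hLAM d n s S).2.2.2 k x hx.1 z (by simpa using hz)).1
    · intro x hx
      exact hx.2
  choose L hLd hL using hex
  have hL3 : ∀ k, ∀ x ∈ S.U, S.lam k x ≠ 0 → ∀ z ∈ ball (0 : ℂ) (S.r₀ k),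
      L k x (S.hk k x z) = S.lam k x * L k x z := fun k x hx hl z hz => (hL k x ⟨hx, hl⟩).2.2 z hz
  refine ⟨KK S L, isOpen_Dom S hLAM, ?_, ?_, ?_, ?_, ?_⟩
  · -- holomorphic
    intro k q hq
    obtain ⟨h1, h2, N, h3⟩ := hq
    refine DifferentiableAt.differentiableWithinAt ?_
    obtain ⟨hden, hlt⟩ := (inC_iff S k _ _).1 h3
    have e1 := (isOpen_B S hLAM k).mem_nhds (show q.1 ∈ {x | x ∈ S.U ∧ S.lam k x ≠ 0} from ⟨h1, h2⟩)
    have e2 : ∀ᶠ q' : (Fin n → ℂ) × (ℂ × ℂ) in 𝓝 q, q'.1 ∈ {x | x ∈ S.U ∧ S.lam k x ≠ 0} :=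
      continuousAt_fst.eventually e1
    have hev : (fun q' : (Fin n → ℂ) × (ℂ × ℂ) => (S.lam k q'.1)⁻¹ ^ N *
        L k q'.1 (lcc S.b k q'.1 ((S.F q'.1)^[S.per k * N] q'.2))) =ᶠ[𝓝 q] KK S L k := by
      filter_upwards [e2, ev_inC S k _ h1 h3] with q' a1 a2
      obtain ⟨a, z, ha, hz, h4⟩ := a2
      have h5 := KK_val S hLAM L k a1.1 a1.2 (hL3 k q'.1 a1.1 a1.2) hz ha h4
      have h6 : lcc S.b k q'.1 ((S.F q'.1)^[S.per k * N] q'.2) = z := by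
        rw [h4]
        exact KOE.loc_smul_ch S.b k q'.1 z ha
      rw [h6]
      exact h5.symm
    refine DifferentiableAt.congr_of_eventuallyEq ?_ hev.symm
    have d1 : DifferentiableAt ℂ (fun q' : (Fin n → ℂ) × (ℂ × ℂ) => S.lam k q'.1) q := by
      have := ((hLAM d n s S).1 k).differentiableAt ((isOpen_U S).mem_nhds h1)
      exact this.comp q differentiableAt_fst
    have d2 := locF_diffAt S k (S.per k * N) h1 hden
    have d3 : DifferentiableAt ℂ (fun p : (Fin n → ℂ) × ℂ => L k p.1 p.2)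
        (q.1, lcc S.b k q.1 ((S.F q.1)^[S.per k * N] q.2)) := by
      refine (hLd k).differentiableAt (((isOpen_B S hLAM k).prod isOpen_ball).mem_nhds ?_)
      exact ⟨⟨h1, h2⟩, by simpa using hlt⟩
    have d4 : DifferentiableAt ℂ (fun q' : (Fin n → ℂ) × (ℂ × ℂ) =>
        L k q'.1 (lcc S.b k q'.1 ((S.F q'.1)^[S.per k * N] q'.2))) q :=
      DifferentiableAt.comp (f := fun q' : (Fin n → ℂ) × (ℂ × ℂ) =>
        (q'.1, lcc S.b k q'.1 ((S.F q'.1)^[S.per k * N] q'.2)))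
        (g := fun p : (Fin n → ℂ) × ℂ => L k p.1 p.2) q d3 (differentiableAt_fst.prodMk d2)
    exact ((d1.inv h2).pow N).mul d4
  · -- homogeneous
    intro k x p hq a ha
    obtain ⟨h1, h2, N, a0, z, ha0, hz, h3⟩ := hq
    have h4 : (S.F x)^[S.per k * N] (a • p) = (a ^ (d ^ (S.per k * N)) * a0) • S.cht k x z := by
      have e : (S.F x)^[S.per k * N] (a • p) =
        a ^ (d ^ (S.per k * N)) • (S.F x)^[S.per k * N] p := hF_iter_smul _ _ _ _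
      have h3' : (S.F x)^[S.per k * N] p = a0 • S.cht k x z := h3
      rw [e, h3', smul_smul]
    rw [KK_val S hLAM L k h1 h2 (hL3 k x h1 h2) hz (mul_ne_zero (pow_ne_zero _ ha) ha0) h4,
      KK_val S hLAM L k h1 h2 (hL3 k x h1 h2) hz ha0 h3]
  · -- functional equation
    intro k x p hq
    obtain ⟨h1, h2, N, a0, z, ha0, hz, h3⟩ := hq
    have h3' : (S.F x)^[S.per k * N] p = a0 • S.cht k x z := h3
    obtain ⟨a', ha', h4⟩ := step S hLAM k h1 hz ha0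
    have h5 : (S.F x)^[S.per k * N] ((S.F x)^[S.per k] p) = a' • S.cht k x (S.hk k x z) := by
      rw [← Function.iterate_add_apply, Nat.add_comm, Function.iterate_add_apply, h3', h4]
    rw [KK_val S hLAM L k h1 h2 (hL3 k x h1 h2) (hk_lt S hLAM k h1 hz) ha' h5,
      KK_val S hLAM L k h1 h2 (hL3 k x h1 h2) hz ha0 h3,
      hL3 k x h1 h2 z (by simpa using hz)]
    ring
  · -- value at the base point
    intro k x hx hl
    have h := KK_val S hLAM L k hx hl (hL3 k x hx hl) (p := S.cht k x 0) (N := 0) (z := 0) (a := 1)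
      (by simpa using (S.hr₀ k)) one_ne_zero (by simp)
    rw [h, (hL k x ⟨hx, hl⟩).1, mul_zero]
  · -- derivative at the base point
    intro k x hx hl
    have hev : (fun z => KK S L k (x, S.cht k x z)) =ᶠ[𝓝 0] L k x := by
      filter_upwards [ball_mem_nhds (0 : ℂ) (S.hr₀ k)] with z hz
      have h := KK_val S hLAM L k hx hl (hL3 k x hx hl) (p := S.cht k x z) (N := 0) (z := z)
        (a := 1) (by simpa using hz) one_ne_zero (by simp)
      rw [h, pow_zero, one_mul]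
    rw [hev.deriv_eq]
    exact (hL k x ⟨hx, hl⟩).2.1

end Pool.Agent.W757.RD
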