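import Mathlib
import Pool.Agent.W757.RD.St4

/-! Statements of the project RD, part 4: normalisation by a fixed point at infinity and two
attracted base points. -/

set_option autoImplicit false

open Topology Filter Metric Set MeasureTheory
open Pool.Agent.H790R3.RB (CV hF cr ND wr rt sp pr hc HypTop Attd Sink)
open scoped OnePoint

namespace Pool.Agent.W757.RD

/-- the spherical area -/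
noncomputable def sar (E : Set ℂ) : ENNReal := ∫⁻ z in E, ENNReal.ofReal (1 / (1 + ‖z‖ ^ 2) ^ 2)

/-- The fixed point formula: some fixed point is not attracting. -/
def StNAF : Prop :=
  ∀ (d : ℕ) (x : CV d), 2 ≤ d → ND x →
    ∃ q : OnePoint ℂ, sp x q = q ∧ ∀ p : ℕ, ¬ Sink (sp x) p q

/-- Fixed points near superattracting fixed points are attracting. -/
def StNAC : Prop :=
  ∀ (d : ℕ) (x₀ : CV d) (q₀ : OnePoint ℂ), 2 ≤ d → ND x₀ → sp x₀ q₀ = q₀ → wr x₀ (hc q₀) = 0 →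
    ∃ δ : ℝ, 0 < δ ∧ ∃ V ∈ 𝓝 q₀, ∀ x : CV d, ‖x - x₀‖ < δ → ∀ q ∈ V, sp x q = q →
      Sink (sp x) 1 q

/-- the Möbius transformation which maps `a₁`, `a₂`, `Q` to `0`, `1`, `∞` in homogeneous
coordinates -/
def mb (a₁ a₂ : ℂ) (Q p : ℂ × ℂ) : ℂ × ℂ :=
  (cr p (a₁, 1) * cr (a₂, 1) Q, cr p Q * cr (a₂, 1) (a₁, 1))

/-- Normalisation near a noncritical fixed point. -/
def StNM : Prop :=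
  ∀ (d : ℕ) (x₀ : CV d) (q₀ : OnePoint ℂ), 2 ≤ d → ND x₀ → sp x₀ q₀ = q₀ → wr x₀ (hc q₀) ≠ 0 →
    ∃ (b₁ b₂ : ℂ) (u₀ : Fin (2 * d) → ℂ), b₁ ≠ b₂ ∧ (b₁ : OnePoint ℂ) ≠ q₀ ∧
      (b₂ : OnePoint ℂ) ≠ q₀ ∧ u₀ ∈ U₀ d ∧ Gz (fam u₀) ∧
      ∀ ε : ℝ, 0 < ε → ∃ (C δ : ℝ), 0 < C ∧ 0 < δ ∧ ∃ V ∈ 𝓝 q₀, ∀ x : CV d, ‖x - x₀‖ < δ →
        ∀ q ∈ V, sp x q = q → ∀ a₁ a₂ : ℂ, ‖a₁ - b₁‖ < δ → ‖a₂ - b₂‖ < δ →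
        ∃ (u₁ : Fin (2 * d) → ℂ) (h : OnePoint ℂ ≃ₜ OnePoint ℂ) (Q : ℂ × ℂ), Q ≠ 0 ∧ pr Q = q ∧
          (∀ p : ℂ × ℂ, p ≠ 0 → h (pr p) = pr (mb a₁ a₂ Q p)) ∧ h q = ∞ ∧
          h (a₁ : OnePoint ℂ) = ((0 : ℂ) : OnePoint ℂ) ∧
          h (a₂ : OnePoint ℂ) = ((1 : ℂ) : OnePoint ℂ) ∧ ‖u₁ - u₀‖ < ε ∧
          (∀ z, h (sp x z) = sp (fam u₁) (h z)) ∧
          ∀ u : Fin (2 * d) → ℂ, ‖u - u₁‖ < 1 → ND (fam u) → ∃ x' : CV d,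
            ‖x' - x‖ ≤ C * ‖u - u₁‖ ∧ ND x' ∧ ∀ z, h (sp x' z) = sp (fam u) (h z)

/-- Choice of the base points. -/
def StNA : Prop :=
  ∀ (β : ℝ) (q₀ : OnePoint ℂ) (b₁ b₂ : ℂ), 1 / 2 < β → β < 1 → b₁ ≠ b₂ →
    (b₁ : OnePoint ℂ) ≠ q₀ → (b₂ : OnePoint ℂ) ≠ q₀ → ∀ ε : ℝ, 0 < ε →
    ∃ B δ : ℝ, 0 < B ∧ 0 < δ ∧ ∃ V ∈ 𝓝 q₀, ∀ q ∈ V, ∀ E : Set ℂ, MeasurableSet E → ∀ a : ℝ,
      0 < a → a < δ → sar E ≤ ENNReal.ofReal a → ∃ a₁ a₂ : ℂ, ‖a₁ - b₁‖ < ε ∧ ‖a₂ - b₂‖ < ε ∧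
        a₁ ∉ E ∧ a₂ ∉ E ∧ ∀ (h : OnePoint ℂ ≃ₜ OnePoint ℂ) (Q : ℂ × ℂ), Q ≠ 0 → pr Q = q →
          (∀ p : ℂ × ℂ, p ≠ 0 → h (pr p) = pr (mb a₁ a₂ Q p)) →
          mu β {w : ℂ | ∃ z ∈ E, h (z : OnePoint ℂ) = (w : OnePoint ℂ)} ≤
            ENNReal.ofReal (B * a ^ (2 * β - 1))

/-- Normalisation. -/
def StNORM : Prop :=
  ∀ (β : ℝ) (d : ℕ) (x₀ : CV d) (q₀ : OnePoint ℂ), 1 / 2 < β → β < 1 → 2 ≤ d → ND x₀ →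
    sp x₀ q₀ = q₀ → wr x₀ (hc q₀) ≠ 0 → ∃ u₀ : Fin (2 * d) → ℂ, u₀ ∈ U₀ d ∧ Gz (fam u₀) ∧
      ∀ ε : ℝ, 0 < ε → ∃ C B δ : ℝ, 0 < C ∧ 0 < B ∧ 0 < δ ∧ ∃ V ∈ 𝓝 q₀, ∀ x : CV d,
        ‖x - x₀‖ < δ → ∀ q ∈ V, sp x q = q → (∀ p : ℕ, ¬ Sink (sp x) p q) → ∀ a : ℝ, 0 < a →
        a < δ → sar {z : ℂ | ¬ Attd (sp x) (z : OnePoint ℂ)} ≤ ENNReal.ofReal a →
        ∃ u₁ : Fin (2 * d) → ℂ, ‖u₁ - u₀‖ < ε ∧ (∀ p : ℕ, ¬ Sink (sp (fam u₁)) p ∞) ∧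
          (∀ j : Fin 2, Attd (sp (fam u₁)) ((bz j : ℂ) : OnePoint ℂ)) ∧
          mu β {z : ℂ | ¬ Attd (sp (fam u₁)) (z : OnePoint ℂ)} ≤
            ENNReal.ofReal (B * a ^ (2 * β - 1)) ∧
          ∀ u : Fin (2 * d) → ℂ, ‖u - u₁‖ < 1 → ND (fam u) → HypTop (sp (fam u)) →
            ∃ x' : CV d, ‖x' - x‖ ≤ C * ‖u - u₁‖ ∧ ND x' ∧ HypTop (sp x')

/-- There are hyperbolic maps. -/
def StHEX : Prop := ∀ d : ℕ, 2 ≤ d → ∃ x : CV d, ND x ∧ HypTop (sp x)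

/-- Part I: local bound of the distance to the hyperbolic maps by the area of the set of points
which are not attracted to attracting cycles. -/
def StSEQ : Prop :=
  ∀ (γ : ℝ) (d : ℕ) (x₀ : CV d), 0 < γ → γ < 1 / 2 → 2 ≤ d → ND x₀ →
    ∃ C δ : ℝ, 0 < C ∧ 0 < δ ∧ ∀ x : CV d, ‖x - x₀‖ < δ → ∀ a : ℝ, 0 < a →
      sar {z : ℂ | ¬ Attd (sp x) (z : OnePoint ℂ)} ≤ ENNReal.ofReal a →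
      ∃ x' : CV d, ‖x' - x‖ ≤ C * a ^ γ ∧ ND x' ∧ HypTop (sp x')

end Pool.Agent.W757.RD
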