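import Mathlib
import Pool.Agent.W757.RD.TORB

/-! Addresses of the marked points; forward invariance of the sets `WN`. -/

set_option autoImplicit false

open Topology Filter Metric Set MeasureTheory

open Pool.Agent.H790R3.RB

namespace Pool.Agent.W757.RD

theorem BAD (hLAM : StLAM) : StBAD := by
  intro d n s l S KK r N ω e A ks ls L C K y₀ y Fh hKoe hLin hK hyN hleaf i hi L' a hLL
  obtain ⟨-, -, hlam, hEr, hykK, hcrA⟩ := hleaf
  set x := yx y with hx
  have hxU : x ∈ S.U := hLin.NU hyN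
  have hnd : ND (S.co x) := S.nd x hxU
  have hp0 : ((pc y i, (1 : ℂ)) : ℂ × ℂ) ≠ 0 := by
    intro h; have := congrArg Prod.snd h; simp at this
  set k := ks i with hk
  set w1 : ℂ := ys y k * (S.lam k (yx y₀) ^ L * Fh i) with hw1
  have hw1r : ‖w1‖ < r := by
    rw [hw1, norm_mul]
    exact lt_of_le_of_lt (mul_le_mul_of_nonneg_right (hykK k) (norm_nonneg _)) (hK i hi)
  have h1 : cr ((S.F x)^[ls i + S.per k * L] (pc y i, 1)) (S.pt ω k 0 x w1) = 0 := hcrA i hi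
  obtain ⟨m, rfl⟩ : ∃ m, L' = L + m := ⟨L' - L, by omega⟩
  have hFne : ∀ M : ℕ, (S.F x)^[M] (pc y i, 1) ≠ 0 := fun M => hnd.iter_ne M hp0
  have h2 : cr ((S.F x)^[S.per k * m + a] ((S.F x)^[ls i + S.per k * L] (pc y i, 1)))
      ((S.F x)^[S.per k * m + a] (S.pt ω k 0 x w1)) = 0 :=
    cr_iter (S.co x) _ (hFne _) (ORB.pt_ne hLin hyN k 0 w1) h1
  rw [ORB.pt_add, add_zero, ← Function.iterate_add_apply] at h2
  have h3 := ORB.many hLAM hLin hyN k a m w1 hw1r
  have h4 := cr_trans (ORB.pt_ne hLin hyN k _ _) h2 h3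
  have e1 : S.per k * m + a + (ls i + S.per k * L) = ls i + (S.per k * (L + m) + a) := by ring
  have e2 : S.lam k x ^ m * w1 = ys y k * (S.lam k (yx y₀) ^ (L + m) * Fh i) := by
    rw [hw1, hlam k, pow_add]
    ring
  rw [e1, e2] at h4
  exact h4

theorem FWD (hLAM : StLAM) (hORB : StORB) : StFWD := by
  intro d n s S KK r N ω Nt r₁ x κ hKoe hLin hxN hr₁ hκ ζ hζ
  obtain ⟨k, l, hl, w, hw, h1⟩ := hζ
  have hxU : x ∈ S.U := hLin.NU hxN
  have hnd : ND (S.co x) := S.nd x hxU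
  have hζ0 : ((ζ, (1 : ℂ)) : ℂ × ℂ) ≠ 0 := by
    intro h; have := congrArg Prod.snd h; simp at this
  have hr := hLin.hr
  have hwr : ‖κ k * w‖ < r := by
    rw [norm_mul]
    exact lt_of_le_of_lt (mul_le_mul_of_nonneg_left hw (norm_nonneg _)) (hκ k)
  have hpt2 : ∀ a : ℕ, (S.pt ω k a x (κ k * w)).2 ≠ 0 := fun a =>
    (hORB d n s S KK r N ω hKoe hLin x hxN k k _ _ hwr hwr a a).2.2.2
  have hptne : ∀ (a : ℕ) (w' : ℂ), S.pt ω k a x w' ≠ 0 := fun a w' => ORB.pt_ne hLin hxN k a w'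
  have hFne : ∀ M : ℕ, (S.F x)^[M] (ζ, 1) ≠ 0 := fun M => hnd.iter_ne M hζ0
  -- one more step
  have h2 : cr ((S.F x)^[Nt + 1] (ζ, 1)) (S.pt ω k (l + 1) x (κ k * w)) = 0 := by
    have := cr_iter (S.co x) 1 (hFne Nt) (hptne l (κ k * w)) h1
    change cr ((S.F x)^[1] ((S.F x)^[Nt] (ζ, 1))) ((S.F x)^[1] (S.pt ω k l x (κ k * w))) = 0 at this
    rw [ORB.pt_add, ← Function.iterate_add_apply, add_comm 1 Nt, add_comm 1 l] at this
    exact this
  have hne2 : (S.F x (ζ, 1)).2 ≠ 0 := by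
    intro h
    have h3 : ((S.F x)^[Nt] (S.F x (ζ, 1))).2 = 0 := inf_iter S hxU h Nt
    rw [← Function.iterate_succ_apply] at h3
    obtain ⟨A, hA, h4⟩ := (cr_eq_zero_iff (hFne (Nt + 1)) (hptne _ _)).mp h2
    rw [h4] at h3
    rw [Prod.smul_snd, smul_eq_mul] at h3
    exact mul_ne_zero hA (hpt2 _) h3
  refine ⟨hne2, ?_, ?_⟩
  · -- the image
    set u := rt (S.co x) 1 ζ with hu
    obtain ⟨c, hc⟩ : ∃ c : ℂ, c = (S.F x (ζ, 1)).2 := ⟨_, rfl⟩
    have hu1 : S.F x (ζ, 1) = c • ((u, 1) : ℂ × ℂ) := by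
      rw [hc]
      apply Prod.ext
      · simp only [Prod.smul_fst, smul_eq_mul, hu, rt, Function.iterate_one]
        change (S.F x (ζ, 1)).1 = (S.F x (ζ, 1)).2 * ((S.F x (ζ, 1)).1 / (S.F x (ζ, 1)).2)
        field_simp
      · simp
    have hu2 : (S.F x)^[Nt + 1] (ζ, 1) =
        (c ^ (d ^ Nt)) • (S.F x)^[Nt] (u, 1) := by
      rw [Function.iterate_succ_apply, hu1]
      exact hF_iter_smul (S.co x) Nt c (u, 1)
    rw [← hc] at hne2
    rw [hu2, cr_smul_left] at h2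
    have h5 : cr ((S.F x)^[Nt] (u, 1)) (S.pt ω k (l + 1) x (κ k * w)) = 0 :=
      (mul_eq_zero.mp h2).resolve_left (pow_ne_zero _ hne2)
    by_cases hl1 : l + 1 < S.per k
    · exact ⟨k, l + 1, hl1, w, hw, h5⟩
    · have hl2 : l + 1 = S.per k + 0 := by omega
      rw [hl2] at h5
      have h6 := ORB.one hLin hxN k 0 (κ k * w) hwr
      have h7 := cr_trans (hptne _ _) h5 h6
      refine ⟨k, 0, S.hper k, S.lam k x * w, ?_, ?_⟩
      · rw [norm_mul]
        have h8 := (hLAM d n s S).2.1 k x hxU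
        have h9 : ‖S.lam k x‖ ≤ 1 := h8.trans S.hθ.le
        calc ‖S.lam k x‖ * ‖w‖ ≤ 1 * r₁ :=
              mul_le_mul h9 hw (norm_nonneg _) zero_le_one
          _ = r₁ := one_mul _
      · have e : S.lam k x * (κ k * w) = κ k * (S.lam k x * w) := by ring
        rw [e] at h7
        exact h7
  · -- the point is attracted
    intro hK
    have h3 : cr ((S.F x)^[(S.per k - l) + Nt] (ζ, 1))
        (S.pt ω k ((S.per k - l) + l) x (κ k * w)) = 0 := by
      have := cr_iter (S.co x) (S.per k - l) (hFne Nt) (hptne l (κ k * w)) h1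
      change cr ((S.F x)^[S.per k - l] ((S.F x)^[Nt] (ζ, 1)))
        ((S.F x)^[S.per k - l] (S.pt ω k l x (κ k * w))) = 0 at this
      rw [ORB.pt_add, ← Function.iterate_add_apply] at this
      exact this
    have e1 : (S.per k - l) + l = S.per k + 0 := by omega
    rw [e1] at h3
    have h6 := ORB.one hLin hxN k 0 (κ k * w) hwr
    have h7 := cr_trans (hptne _ _) h3 h6
    have hwr' : ‖S.lam k x * (κ k * w)‖ < r := ORB.norm_lam_mul hLAM hLin hxN k _ hwr
    obtain ⟨A, hA, h8⟩ := (cr_eq_zero_iff (hFne _) (hptne _ _)).mp h7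
    exact hK k _ ⟨A, ω k (x, S.lam k x * (κ k * w)), hA, (hLin.ωr k x hxN _ hwr').1, h8⟩

end Pool.Agent.W757.RD
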