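import Mathlib
import Pool.Agent.W757.RD.St
import Pool.Agent.H790R3.RB.Basic

/-! Task COV: after a long time the discs are inside the linearised discs. -/

set_option autoImplicit false

open Topology Filter Metric Set MeasureTheory

open Pool.Agent.H790R3.RB

namespace Pool.Agent.W757.RD

namespace COV

theorem iter_smul {d n s : ℕ} (S : Sys d n s) (x : Fin n → ℂ) (m : ℕ) {a : ℂ} (ha : a ≠ 0)
    (p : ℂ × ℂ) : ∃ c : ℂ, c ≠ 0 ∧ (S.F x)^[m] (a • p) = c • (S.F x)^[m] p :=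
  ⟨a ^ (d ^ m), pow_ne_zero _ ha, hF_iter_smul (S.co x) m a p⟩

theorem step {d n s : ℕ} (S : Sys d n s) {x : Fin n → ℂ} (hx : x ∈ S.U) (k : Fin s)
    {z : ℂ} (hz : ‖z‖ < (S.r₀ k)) (j : ℕ) : ∃ a z' : ℂ, a ≠ 0 ∧ ‖z'‖ ≤ S.θ ^ j * ‖z‖ ∧
      (S.F x)^[S.per k * j] (S.cht k x z) = a • S.cht k x z' := by
  induction j with
  | zero => exact ⟨1, z, one_ne_zero, by simp, by simp⟩
  | succ j ih =>
    obtain ⟨a, z', ha, hz', h⟩ := ih
    have hzr : ‖z'‖ < (S.r₀ k) := by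
      refine lt_of_le_of_lt (hz'.trans ?_) hz
      have := pow_le_one₀ S.hθ0 S.hθ.le (n := j)
      nlinarith [norm_nonneg z]
    obtain ⟨a', z'', ha', hz'', h'⟩ := S.contr x hx k z' hzr
    obtain ⟨c, hc, h2⟩ := iter_smul S x (S.per k) ha (S.cht k x z')
    refine ⟨c * a', z'', mul_ne_zero hc ha', ?_, ?_⟩
    · rw [pow_succ']
      have := mul_le_mul_of_nonneg_left hz' S.hθ0
      linarith
    · have h3 : S.per k * (j + 1) = S.per k + S.per k * j := by ring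
      rw [h3, Function.iterate_add_apply, h, h2, mul_smul]
      congr 1

theorem lin {d n s : ℕ} (S : Sys d n s) {KK : Fin s → (Fin n → ℂ) × (ℂ × ℂ) → ℂ}
    (hK : S.Koe KK) {x : Fin n → ℂ} (hx : x ∈ S.U) (k : Fin s) (hl : S.lam k x ≠ 0)
    {z : ℂ} (hz : ‖z‖ < (S.r₀ k)) (j : ℕ) : ∃ a z' : ℂ, a ≠ 0 ∧ ‖z'‖ ≤ ‖z‖ ∧
      (S.F x)^[S.per k * j] (S.cht k x z) = a • S.cht k x z' ∧
      KK k (x, S.cht k x z') = S.lam k x ^ j * KK k (x, S.cht k x z) := by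
  induction j with
  | zero => exact ⟨1, z, one_ne_zero, le_rfl, by simp, by simp⟩
  | succ j ih =>
    obtain ⟨a, z', ha, hz', h, hk⟩ := ih
    have hzr : ‖z'‖ < (S.r₀ k) := lt_of_le_of_lt hz' hz
    obtain ⟨a', z'', ha', hz'', h'⟩ := S.contr x hx k z' hzr
    have hz3 : ‖z''‖ ≤ ‖z'‖ := by
      refine hz''.trans ?_
      nlinarith [norm_nonneg z', S.hθ]
    obtain ⟨c, hc, h2⟩ := iter_smul S x (S.per k) ha (S.cht k x z')
    have hd : ∀ u : ℂ, ‖u‖ < (S.r₀ k) → (x, S.cht k x u) ∈ S.Dom k := by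
      intro u hu
      exact ⟨hx, hl, 0, 1, u, one_ne_zero, hu, by simp⟩
    refine ⟨c * a', z'', mul_ne_zero hc ha', hz3.trans hz', ?_, ?_⟩
    · have h3 : S.per k * (j + 1) = S.per k + S.per k * j := by ring
      rw [h3, Function.iterate_add_apply, h, h2, mul_smul]
      congr 1
    · have h4 := hK.hom k x (S.cht k x z'') (hd z'' (lt_of_le_of_lt hz3 hzr)) a' ha'
      have h5 := hK.fe k x (S.cht k x z') (hd z' hzr)
      have h6 : (S.F x)^[S.per k] (S.cht k x z') = a' • S.cht k x z'' := h'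
      rw [h6, h4, hk] at h5
      rw [h5]
      ring

end COV

theorem COV (hLAM : StLAM) : StCOV := by
  intro d n s S KK r N ω hK hL r₁ hr₁
  obtain ⟨r', r'', hr'', hrr, hrS, hinv⟩ := hL.inv
  obtain ⟨-, hlam, -⟩ := hLAM d n s S
  have ht := tendsto_pow_atTop_nhds_zero_of_lt_one S.hθ0 S.hθ
  obtain ⟨j₀, hj₀⟩ : ∃ j₀ : ℕ, ∀ k, S.θ ^ j₀ * (S.r₀ k) < r'' := by
    have h1 : ∀ k, ∀ᶠ j : ℕ in atTop, S.θ ^ j * (S.r₀ k) < r'' := by
      intro k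
      have h1 := ht.mul_const (S.r₀ k)
      rw [zero_mul] at h1
      exact h1.eventually (gt_mem_nhds hr'')
    exact (eventually_all.2 h1).exists
  obtain ⟨i₀, hi₀⟩ : ∃ i₀ : ℕ, S.θ ^ i₀ * r < r₁ := by
    have h1 := ht.mul_const r
    rw [zero_mul] at h1
    exact (h1.eventually (gt_mem_nhds hr₁)).exists
  refine ⟨j₀ + i₀, ?_⟩
  intro x hx k z hz j hj
  have hxU := hL.NU hx
  have hl := hL.lam0 x hx k
  obtain ⟨i, rfl⟩ : ∃ i, j = j₀ + i := ⟨j - j₀, by omega⟩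
  have hi : i₀ ≤ i := by omega
  obtain ⟨a, z₀, ha, hz₀, h1⟩ := COV.step S hxU k hz j₀
  have hz₀' : ‖z₀‖ < r'' := by
    refine lt_of_le_of_lt (hz₀.trans ?_) (hj₀ k)
    exact mul_le_mul_of_nonneg_left hz.le (pow_nonneg S.hθ0 _)
  obtain ⟨a', z₁, ha', hz₁, h2, h3⟩ :=
    COV.lin S hK hxU k hl (lt_of_lt_of_le hz₀' (hrr.trans (hrS k))) i
  obtain ⟨-, hi2, hi3⟩ := hinv k x hx
  have hw₀ := hi3 z₀ hz₀'
  have hz₁' : ‖z₁‖ < r'' := lt_of_le_of_lt hz₁ hz₀'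
  have hw₁ := hi3 z₁ hz₁'
  have hω := hi2 z₁ (lt_of_lt_of_le hz₁' hrr) hw₁
  refine ⟨KK k (x, S.cht k x z₁), ?_, hw₁, ?_⟩
  · rw [h3, norm_mul, norm_pow]
    have h4 : ‖S.lam k x‖ ^ i ≤ S.θ ^ i := pow_le_pow_left₀ (norm_nonneg _) (hlam k x hxU) i
    have h5 : S.θ ^ i ≤ S.θ ^ i₀ := pow_le_pow_of_le_one S.hθ0 S.hθ.le hi
    calc ‖S.lam k x‖ ^ i * ‖KK k (x, S.cht k x z₀)‖ ≤ S.θ ^ i₀ * r :=
          mul_le_mul (h4.trans h5) hw₀.le (norm_nonneg _) (pow_nonneg S.hθ0 _)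
      _ ≤ r₁ := hi₀.le
  · rw [hω]
    obtain ⟨c, hc, h4⟩ := COV.iter_smul S x (S.per k * i) ha (S.cht k x z₀)
    have h5 : S.per k * (j₀ + i) = S.per k * i + S.per k * j₀ := by ring
    rw [h5, Function.iterate_add_apply, h1, h4, h2, cr_smul_left, cr_smul_left, cr_self]
    simp

end Pool.Agent.W757.RD
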