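import Mathlib
import Pool.Agent.W757.RD.St
import Pool.Agent.H790R3.RB.Basic

set_option autoImplicit false

open Topology Filter Metric Set MeasureTheory

open Pool.Agent.H790R3.RB

namespace Pool.Agent.W757.RD

namespace FKB

variable {d n s : ℕ}

theorem deriv_omega (S : Sys d n s) (KK : Fin s → (Fin n → ℂ) × (ℂ × ℂ) → ℂ) (r : ℝ)
    (N : Set (Fin n → ℂ)) (ω : Fin s → (Fin n → ℂ) × ℂ → ℂ) (hK : S.Koe KK)
    (hL : S.Lin KK N r ω) (k : Fin s) {x : Fin n → ℂ} (hx : x ∈ N) :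
    HasDerivAt (fun w : ℂ => ω k (x, w)) 1 0 := by
  have hxU := hL.NU hx
  have hl := hL.lam0 x hx k
  have h1 : deriv (fun z => KK k (x, S.cht k x z)) 0 = 1 := hK.der k x hxU hl
  have h2 : DifferentiableAt ℂ (fun z => KK k (x, S.cht k x z)) 0 :=
    differentiableAt_of_deriv_ne_zero (by rw [h1]; exact one_ne_zero)
  have h3 : HasDerivAt (fun z => KK k (x, S.cht k x z)) 1 0 := by
    rw [← h1]; exact h2.hasDerivAt
  have hopen : IsOpen (N ×ˢ ball (0 : ℂ) r) := hL.No.prod isOpen_ball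
  have h4 : DifferentiableAt ℂ (ω k) (x, (0 : ℂ)) :=
    (hL.ωd k).differentiableAt (hopen.mem_nhds ⟨hx, mem_ball_self hL.hr⟩)
  have h5 : DifferentiableAt ℂ (fun w : ℂ => ω k (x, w)) 0 := by
    have : (fun w : ℂ => ω k (x, w)) = ω k ∘ (fun w : ℂ => (x, w)) := rfl
    rw [this]
    apply DifferentiableAt.comp
    · exact h4
    · exact (differentiableAt_const x).prodMk differentiableAt_id
  have h0 : ω k (x, (0 : ℂ)) = 0 := hL.ω0 k x hx
  have h6 : HasDerivAt (fun w : ℂ => KK k (x, S.cht k x (ω k (x, w))))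
      (1 * deriv (fun w : ℂ => ω k (x, w)) 0) 0 := by
    have h3' : HasDerivAt (fun z => KK k (x, S.cht k x z)) 1 ((fun w : ℂ => ω k (x, w)) 0) := by
      simpa only [h0] using h3
    exact HasDerivAt.comp (0 : ℂ) h3' h5.hasDerivAt
  have h7 : (fun w : ℂ => KK k (x, S.cht k x (ω k (x, w)))) =ᶠ[𝓝 0] fun w => w := by
    filter_upwards [isOpen_ball.mem_nhds (mem_ball_self hL.hr : (0 : ℂ) ∈ ball (0 : ℂ) r)] with w hw
    exact (hL.ωr k x hx w (by simpa using hw)).2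
  have h8 : HasDerivAt (fun w : ℂ => w) (1 * deriv (fun w : ℂ => ω k (x, w)) 0) 0 :=
    h6.congr_of_eventuallyEq h7.symm
  have h9 := h8.unique (hasDerivAt_id (0 : ℂ))
  rw [one_mul] at h9
  have := h5.hasDerivAt
  rwa [h9] at this

end FKB

open FKB in
theorem FKB (hFAT : StFAT) (hEXC : StEXC) (hLAM : StLAM) : StFKB := by
  obtain ⟨CK, hCK, hFAT⟩ := hFAT
  refine ⟨CK, hCK, ?_⟩
  intro d n s l S KK r N ω e A ks ls L ρ₂ K rF y₀ y Fh ζ₀ hK hL hls hsm hyN hleaf hk0 hnatt hζ₀ hrF k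
    hFh
  set x := yx y with hx
  set κ := ys y k with hκ
  have hκ0 : κ ≠ 0 := hk0 _
  have hκn : 0 < ‖κ‖ := norm_pos_iff.mpr hκ0
  have hxU : x ∈ S.U := hL.NU hyN
  obtain ⟨-, hlamθ, -, -⟩ := hLAM d n s S
  have hlam0 := hL.lam0 x hyN k
  have hlam1 : ‖S.lam k x‖ < 1 := lt_of_le_of_lt (hlamθ _ x hxU) S.hθ
  have hball : ∀ w ∈ ball (0 : ℂ) (r / ‖κ‖), ‖κ * w‖ < r := by
    intro w hw
    have hw' : ‖w‖ < r / ‖κ‖ := by simpa using hw
    rw [norm_mul]
    rw [lt_div_iff₀ hκn] at hw'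
    linarith [mul_comm ‖w‖ ‖κ‖]
  have key : ∀ rF' : ℝ, 0 < rF' → (∀ c : ℂ × ℂ, c ≠ 0 → wr (S.co x) c = 0 → ∀ m : ℕ,
      ∀ w ∈ ball (0 : ℂ) (r / ‖κ‖), w ≠ 0 →
      cr ((S.F x)^[m] c) (S.pt ω k 0 x (κ * w)) = 0 →
      ‖S.lam k x‖ ^ (m / S.per k) * rF' ≤ ‖w‖) → ‖κ‖ * rF' ≤ CK * ‖S.b k x - ζ₀‖ := by
    intro rF' hrF' hc
    have hdo := deriv_omega S KK r N ω hK hL k hyN
    have hder : HasDerivAt (fun w : ℂ => S.b k x + ω k (x, κ * w)) κ 0 := by
      have h1 : HasDerivAt (fun w : ℂ => κ * w) κ 0 := by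
        simpa using (hasDerivAt_id (0 : ℂ)).const_mul κ
      have h2 : HasDerivAt (fun w : ℂ => ω k (x, w)) 1 ((fun w : ℂ => κ * w) 0) := by
        simpa using hdo
      have h3 := HasDerivAt.comp (0 : ℂ) h2 h1
      rw [one_mul] at h3
      exact h3.const_add (S.b k x)
    have hmain := hFAT d (S.per k) (S.co x)
      (fun w => S.b k x + ω k (x, κ * w)) (S.lam k x) ζ₀ (r / ‖κ‖) rF'
      S.hd (S.hper _) (S.nd x hxU) (S.hinf x hxU) hζ₀ (div_pos hL.hr hκn) hrF' hlam0 hlam1 ?_ ?_ ?_ ?_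
    · rw [hder.deriv] at hmain
      have e0 : ω k (x, κ * 0) = 0 := by rw [mul_zero]; exact hL.ω0 k x hyN
      simp only [e0, add_zero] at hmain
      exact hmain
    · intro w hw
      have hopen : IsOpen (N ×ˢ ball (0 : ℂ) r) := hL.No.prod isOpen_ball
      have h4 : DifferentiableAt ℂ (ω k) (x, κ * w) :=
        (hL.ωd k).differentiableAt
          (hopen.mem_nhds ⟨hyN, by simpa using hball w hw⟩)
      apply DifferentiableAt.differentiableWithinAt
      apply DifferentiableAt.const_add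
      have : (fun w : ℂ => ω k (x, κ * w)) = ω k ∘ (fun w : ℂ => (x, κ * w)) := rfl
      rw [this]
      apply DifferentiableAt.comp
      · exact h4
      · exact (differentiableAt_const x).prodMk (differentiableAt_id.const_mul κ)
    · intro w hw w' hw' h
      have h1 : ω k (x, κ * w) = ω k (x, κ * w') := add_left_cancel h
      have h2 := (hL.ωr k x hyN (κ * w) (hball w hw)).2
      have h3 := (hL.ωr k x hyN (κ * w') (hball w' hw')).2
      rw [h1, h3] at h2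
      exact (mul_left_cancel₀ hκ0 h2).symm
    · intro w hw
      obtain ⟨a, -, ha⟩ := hL.fe k x hyN (κ * w) (hball w hw)
      have h1 : (hF (S.co x))^[S.per k] (S.b k x + ω k (x, κ * w), 1) =
          a • S.cht k x (ω k (x, S.lam k x * (κ * w))) := ha
      have h2 : (S.b k x + ω k (x, κ * (S.lam k x * w)), (1 : ℂ)) =
          S.cht k x (ω k (x, S.lam k x * (κ * w))) := by
        have : κ * (S.lam k x * w) = S.lam k x * (κ * w) := by ring
        rw [this]; rfl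
      show cr ((hF (S.co x))^[S.per k] (S.b k x + ω k (x, κ * w), 1))
        (S.b k x + ω k (x, κ * (S.lam k x * w)), 1) = 0
      rw [h1, h2, cr_smul_left, cr_self, mul_zero]
    · intro c hc0 hwr m w hw hw0 hcr
      exact hc c hc0 hwr m w hw hw0 hcr
  have hex : ∀ c : ℂ × ℂ, c ≠ 0 → wr (S.co x) c = 0 → ∀ m : ℕ,
      ∀ w ∈ ball (0 : ℂ) (r / ‖κ‖), w ≠ 0 →
      cr ((S.F x)^[m] c) (S.pt ω k 0 x (κ * w)) = 0 →
      ∃ i : Fin (2 * d - 2), Sum.inl i ∈ A ∧ ks (Sum.inl i) = k ∧ Fh (Sum.inl i) ≠ 0 ∧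
        ‖w‖ = ‖S.lam k x‖ ^ (m / S.per k) * ‖Fh (Sum.inl i)‖ := by
    intro c hc0 hwr m w hw hw0 hcr
    obtain ⟨i, hiA, hik, hi⟩ := hEXC d n s l S KK r N ω e A ks ls L ρ₂ K y₀ y Fh hK hL hsm hyN
      hleaf hk0 hnatt c hc0 hwr m k 0 w (hball w hw) hcr
    have h1 : (0 + ls (Sum.inl i)) / S.per k = 0 := by
      rw [zero_add]
      apply Nat.div_eq_of_lt
      have := hls (Sum.inl i) hiA
      rwa [hik] at this
    rw [h1, pow_zero, one_mul] at hi
    have hi' : S.lam k x ^ (m / S.per k) * Fh (Sum.inl i) = w := hi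
    refine ⟨i, hiA, hik, ?_, ?_⟩
    · intro h0
      rw [h0, mul_zero] at hi'
      exact hw0 hi'.symm
    · rw [← hi', norm_mul, norm_pow]
  constructor
  · have h := key rF hrF (by
      intro c hc0 hwr m w hw hw0 hcr
      obtain ⟨i, hiA, hik, hi0, hi⟩ := hex c hc0 hwr m w hw hw0 hcr
      rw [hi]
      exact mul_le_mul_of_nonneg_left (hFh i hiA hik hi0) (by positivity))
    exact h
  · by_contra hno
    push Not at hno
    have h := key ((CK * ‖S.b k x - ζ₀‖ + 1) / ‖κ‖) (by positivity) (by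
      intro c hc0 hwr m w hw hw0 hcr
      obtain ⟨i, hiA, hik, hi0, hi⟩ := hex c hc0 hwr m w hw hw0 hcr
      exact absurd (hno i hiA hik) hi0)
    rw [mul_div_cancel₀ _ hκn.ne'] at h
    linarith

end Pool.Agent.W757.RD
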