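import Mathlib
import Pool.Agent.W757.RD.St
import Pool.Agent.H790R3.RB.Basic

/-! LSC: lower semicontinuity of the area functional (proof: helper439) -/

set_option autoImplicit false

open Topology Filter Metric Set MeasureTheory

open Pool.Agent.H790R3.RB

namespace Pool.Agent.W757.RD

namespace LSC

theorem F_cont {d n s : ℕ} (S : Sys d n s) (m : ℕ) {x : Fin n → ℂ} (hx : x ∈ S.U) (p : ℂ × ℂ) :
    ContinuousAt (fun z : (Fin n → ℂ) × (ℂ × ℂ) => (S.F z.1)^[m] z.2) (x, p) := by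
  have h1 : ContinuousAt S.co x :=
    (S.hco.differentiableAt (S.hU.mem_nhds hx)).continuousAt
  have h2 : ContinuousAt (fun z : (Fin n → ℂ) × (ℂ × ℂ) => (S.co z.1, z.2)) (x, p) :=
    ContinuousAt.prodMk (ContinuousAt.comp (f := Prod.fst) h1 continuousAt_fst) continuousAt_snd
  exact ContinuousAt.comp (f := fun z : (Fin n → ℂ) × (ℂ × ℂ) => (S.co z.1, z.2))
    (hF_iter_continuous d m).continuousAt h2

theorem cht_cont {d n s : ℕ} (S : Sys d n s) (k : Fin s) {x : Fin n → ℂ} (hx : x ∈ S.U)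
    (w : ℂ) : ContinuousAt (fun z : (Fin n → ℂ) × ℂ => S.cht k z.1 z.2) (x, w) := by
  have h1 : ContinuousAt (S.b k) x :=
    ((S.hb k).differentiableAt (S.hU.mem_nhds hx)).continuousAt
  have h2 : ContinuousAt (fun z : (Fin n → ℂ) × ℂ => S.b k z.1) (x, w) :=
    ContinuousAt.comp (f := Prod.fst) h1 continuousAt_fst
  show ContinuousAt (fun z : (Fin n → ℂ) × ℂ => (S.b k z.1 + z.2, (1 : ℂ))) (x, w)
  exact (h2.add continuousAt_snd).prodMk continuousAt_const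

theorem pt_cont {d n s : ℕ} (S : Sys d n s)
    (KK : Fin s → (Fin n → ℂ) × (ℂ × ℂ) → ℂ) (r : ℝ)
    (N : Set (Fin n → ℂ)) (ω : Fin s → (Fin n → ℂ) × ℂ → ℂ) (hL : S.Lin KK N r ω)
    (k : Fin s) (l : ℕ) {x : Fin n → ℂ} (hx : x ∈ N) {w : ℂ} (hw : ‖w‖ < r) :
    ContinuousAt (fun z : (Fin n → ℂ) × ℂ => S.pt ω k l z.1 z.2) (x, w) := by
  have h1 : ContinuousAt (ω k) (x, w) :=
    ((hL.ωd k).differentiableAt ((hL.No.prod isOpen_ball).mem_nhds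
      ⟨hx, mem_ball_zero_iff.2 hw⟩)).continuousAt
  have h2 : ContinuousAt (fun z : (Fin n → ℂ) × ℂ => S.cht k z.1 (ω k z)) (x, w) :=
    ContinuousAt.comp (g := fun z : (Fin n → ℂ) × ℂ => S.cht k z.1 z.2)
      (f := fun z : (Fin n → ℂ) × ℂ => (z.1, ω k z))
      (cht_cont S k (hL.NU hx) _) (continuousAt_fst.prodMk h1)
  exact ContinuousAt.comp (g := fun z : (Fin n → ℂ) × (ℂ × ℂ) => (S.F z.1)^[l] z.2)
      (f := fun z : (Fin n → ℂ) × ℂ => (z.1, S.cht k z.1 (ω k z)))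
    (F_cont S l (hL.NU hx) _) (continuousAt_fst.prodMk h2)

theorem key {d n s : ℕ} (S : Sys d n s)
    (KK : Fin s → (Fin n → ℂ) × (ℂ × ℂ) → ℂ) (r : ℝ)
    (N : Set (Fin n → ℂ)) (ω : Fin s → (Fin n → ℂ) × ℂ → ℂ) (Nt : ℕ) (r₁ : ℝ)
    (hL : S.Lin KK N r ω) (hr₁ : 0 < r₁)
    (q₀ : (Fin n → ℂ) × (Fin s → ℂ)) (hq : q₀.1 ∈ N) (hk : ∀ k, ‖q₀.2 k‖ * r₁ < r)
    (ζ₀ : ℂ) (hζ : ζ₀ ∉ S.WN ω Nt r₁ q₀.1 q₀.2) :
    ∀ᶠ z : ((Fin n → ℂ) × (Fin s → ℂ)) × ℂ in 𝓝 (q₀, ζ₀),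
      z.2 ∉ S.WN ω Nt r₁ z.1.1 z.1.2 := by
  have h1 : ∀ k, ∀ l ∈ {l | l < S.per k},
      ∀ᶠ z : ((Fin n → ℂ) × (Fin s → ℂ)) × ℂ in 𝓝 (q₀, ζ₀), ∀ w ∈ closedBall (0 : ℂ) r₁,
        cr ((S.F z.1.1)^[Nt] (z.2, 1)) (S.pt ω k l z.1.1 (z.1.2 k * w)) ≠ 0 := by
    intro k l hl
    apply (isCompact_closedBall (0 : ℂ) r₁).eventually_forall_of_forall_eventually
    intro w hw
    have hw' : ‖w‖ ≤ r₁ := mem_closedBall_zero_iff.1 hw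
    have hkw : ‖q₀.2 k * w‖ < r := by
      rw [norm_mul]
      exact (mul_le_mul_of_nonneg_left hw' (norm_nonneg _)).trans_lt (hk k)
    have c1 : ContinuousAt (fun y : (((Fin n → ℂ) × (Fin s → ℂ)) × ℂ) × ℂ =>
        (S.F y.1.1.1)^[Nt] (y.1.2, 1)) ((q₀, ζ₀), w) :=
      ContinuousAt.comp (x := ((q₀, ζ₀), w))
        (g := fun z : (Fin n → ℂ) × (ℂ × ℂ) => (S.F z.1)^[Nt] z.2)
        (f := fun y : (((Fin n → ℂ) × (Fin s → ℂ)) × ℂ) × ℂ =>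
        (y.1.1.1, (y.1.2, (1 : ℂ)))) (F_cont S Nt (hL.NU hq) (ζ₀, 1)) (by fun_prop)
    have c2 : ContinuousAt (fun y : (((Fin n → ℂ) × (Fin s → ℂ)) × ℂ) × ℂ =>
        S.pt ω k l y.1.1.1 (y.1.1.2 k * y.2)) ((q₀, ζ₀), w) :=
      ContinuousAt.comp (x := ((q₀, ζ₀), w))
        (g := fun z : (Fin n → ℂ) × ℂ => S.pt ω k l z.1 z.2)
        (f := fun y : (((Fin n → ℂ) × (Fin s → ℂ)) × ℂ) × ℂ =>
        (y.1.1.1, y.1.1.2 k * y.2)) (pt_cont S KK r N ω hL k l hq hkw) (by fun_prop)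
    have c3 : ContinuousAt (fun y : (((Fin n → ℂ) × (Fin s → ℂ)) × ℂ) × ℂ =>
        cr ((S.F y.1.1.1)^[Nt] (y.1.2, 1)) (S.pt ω k l y.1.1.1 (y.1.1.2 k * y.2)))
        ((q₀, ζ₀), w) := by
      unfold cr
      exact (c1.fst.mul c2.snd).sub (c1.snd.mul c2.fst)
    apply c3.eventually_ne
    intro h0
    exact hζ ⟨k, l, hl, w, hw', h0⟩
  have h2 : ∀ k, ∀ᶠ z : ((Fin n → ℂ) × (Fin s → ℂ)) × ℂ in 𝓝 (q₀, ζ₀),
      ∀ l ∈ {l | l < S.per k}, ∀ w ∈ closedBall (0 : ℂ) r₁,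
        cr ((S.F z.1.1)^[Nt] (z.2, 1)) (S.pt ω k l z.1.1 (z.1.2 k * w)) ≠ 0 := fun k =>
    (eventually_all_finite (Set.finite_lt_nat (S.per k))).2 (h1 k)
  filter_upwards [eventually_all.2 h2] with z hz
  rintro ⟨k, l, hl, w, hw, h0⟩
  exact hz k l hl w (mem_closedBall_zero_iff.2 hw) h0

end LSC

open LSC in
theorem LSC (hMU : StMU) : StLSC := by
  intro β d n s S KK r N ω Nt r₁ hβ1 hβ2 _ hL hr₁ q₀ hq₀ y hy
  obtain ⟨hqN, hqk⟩ := hq₀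
  haveI : IsFiniteMeasure (mu β) := ⟨(hMU β hβ1 hβ2).1⟩
  by_cases hy0 : y < 0
  · filter_upwards with q
    exact hy0.trans_le ENNReal.toReal_nonneg
  rw [not_lt] at hy0
  set O : Set ℂ := (S.WN ω Nt r₁ q₀.1 q₀.2)ᶜ with hO
  have hkey := key S KK r N ω Nt r₁ hL hr₁ q₀ hqN hqk
  have hOo : IsOpen O := by
    rw [isOpen_iff_mem_nhds]
    intro ζ hζ
    have h1 := hkey ζ hζ
    have h2 : Tendsto (fun ζ' : ℂ => (q₀, ζ')) (𝓝 ζ) (𝓝 (q₀, ζ)) :=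
      (Continuous.prodMk_right q₀).tendsto ζ
    exact h2.eventually h1
  have hfin : ∀ E : Set ℂ, mu β E ≠ ⊤ := fun E => measure_ne_top _ _
  have hlt : ENNReal.ofReal y < mu β O := by
    rw [← ENNReal.ofReal_toReal (hfin _)]
    have h3 : y < (mu β O).toReal := hy
    exact (ENNReal.ofReal_lt_ofReal_iff (hy0.trans_lt h3)).2 h3
  obtain ⟨C, hCO, hC, hyC⟩ := hOo.exists_lt_isCompact hlt
  have hev : ∀ᶠ q in 𝓝 q₀, ∀ ζ ∈ C, ζ ∉ S.WN ω Nt r₁ q.1 q.2 := by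
    apply hC.eventually_forall_of_forall_eventually
    intro ζ hζ
    exact hkey ζ (hCO hζ)
  filter_upwards [nhdsWithin_le_nhds hev, self_mem_nhdsWithin] with q hq hqQ
  have h4 : mu β C ≤ mu β (S.WN ω Nt r₁ q.1 q.2)ᶜ := measure_mono fun ζ hζ => hq ζ hζ
  have h5 : ENNReal.ofReal y < mu β (S.WN ω Nt r₁ q.1 q.2)ᶜ := hyC.trans_le h4
  show y < (mu β (S.WN ω Nt r₁ q.1 q.2)ᶜ).toReal
  rwa [← ENNReal.ofReal_lt_iff_lt_toReal hy0 (hfin _)]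

end Pool.Agent.W757.RD
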