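import Mathlib
import Pool.Agent.W757.RD.St
import Pool.Agent.H790R3.RB.Basic

/-! Choice of the time. -/

set_option autoImplicit false
set_option linter.unusedVariables false

open Topology Filter Metric Set MeasureTheory

open Pool.Agent.H790R3.RB

namespace Pool.Agent.W757.RD

namespace ST

theorem fsmul {d n s : ℕ} (S : Sys d n s) (x : Fin n → ℂ) (m : ℕ) (a : ℂ) (p : ℂ × ℂ) :
    (S.F x)^[m] (a • p) = a ^ (d ^ m) • (S.F x)^[m] p :=
  hF_iter_smul (S.co x) m a p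

theorem arith (Q p N1 N₀ m : ℕ) (hp : 1 ≤ p) (hpQ : p ≤ Q) (hm : m ≤ N₀) :
    N1 ≤ (Q * (N1 + N₀ + 1) - m) / p ∧ m ≤ Q * (N1 + N₀ + 1) := by
  have hQ : 1 ≤ Q := hp.trans hpQ
  have h1 : N₀ ≤ Q * N₀ := Nat.le_mul_of_pos_left _ hQ
  have h2 : p * (N1 + 1) ≤ Q * (N1 + 1) := Nat.mul_le_mul_right _ hpQ
  have h3 : Q * (N1 + N₀ + 1) = Q * (N1 + 1) + Q * N₀ := by ring
  have h4 : p * N1 ≤ p * (N1 + 1) := Nat.mul_le_mul_left _ (by omega)
  refine ⟨?_, by omega⟩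
  rw [Nat.le_div_iff_mul_le hp, mul_comm]
  omega

end ST

theorem ST (hCOV : StCOV) : StST := by
  intro d n s S KK r N ω hK hL r₁ N₀ M₀ κ₀ hr₁ hr₁r hκ₀ hκ₀r
  rcases isEmpty_or_nonempty (Fin s) with hs | hs
  · exact ⟨M₀, le_rfl, fun k => (hs.false k).elim, fun x hx ζ ⟨k, _⟩ => (hs.false k).elim⟩
  -- lower bound of the scales
  obtain ⟨k0, hk0⟩ := Finite.exists_min (fun k => ‖κ₀ k‖)
  have hc : 0 < ‖κ₀ k0‖ := norm_pos_iff.2 (hκ₀ k0)
  set c := min 1 ‖κ₀ k0‖ with hcdef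
  have hc0 : 0 < c := lt_min one_pos hc
  have hr' : 0 < r₁ * c := mul_pos hr₁ hc0
  obtain ⟨N1', hN1'⟩ := hCOV d n s S KK r N ω hK hL (r₁ * c) hr'
  set N1 := N1' + M₀ with hN1def
  have hN1 := fun (x : Fin n → ℂ) (hx : x ∈ N) (k : Fin s) (z : ℂ) (hz : ‖z‖ < S.r₀ k) (j : ℕ)
    (hj : N1 ≤ j) => hN1' x hx k z hz j (by omega)
  set Q : ℕ := ∏ k, S.per k with hQ
  have hQ1 : 1 ≤ Q := Nat.one_le_iff_ne_zero.2 (Finset.prod_ne_zero_iff.2 fun k _ => by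
    have := S.hper k; omega)
  have hdvd : ∀ k, S.per k ∣ Q := fun k => Finset.dvd_prod_of_mem _ (Finset.mem_univ k)
  have hle : ∀ k, S.per k ≤ Q := fun k => Nat.le_of_dvd hQ1 (hdvd k)
  have hM : M₀ ≤ Q * (N1 + N₀ + 1) :=
    le_trans (by omega) (Nat.le_mul_of_pos_left (N1 + N₀ + 1) hQ1)
  refine ⟨Q * (N1 + N₀ + 1), hM, fun k => (hdvd k).mul_right _, ?_⟩
  · rintro x hx ζ ⟨k, m, hm, a, z, ha, hz, he⟩
    obtain ⟨hj, hmN⟩ := ST.arith Q (S.per k) N1 N₀ m (S.hper k) (hle k) hm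
    set D := Q * (N1 + N₀ + 1) - m with hD
    obtain ⟨w, hw1, hw2, hw3⟩ := hN1 x hx k z hz (D / S.per k) hj
    have hkn : 0 < ‖κ₀ k‖ := norm_pos_iff.2 (hκ₀ k)
    refine ⟨k, D % S.per k, Nat.mod_lt _ (S.hper k), w / κ₀ k, ?_, ?_⟩
    · rw [norm_div, div_le_iff₀ hkn]
      refine hw1.trans ?_
      refine mul_le_mul_of_nonneg_left ?_ hr₁.le
      exact (min_le_right _ _).trans (hk0 k)
    · rw [mul_div_cancel₀ _ (hκ₀ k)]
      have hsplit : Q * (N1 + N₀ + 1) = D % S.per k + (S.per k * (D / S.per k) + m) := by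
        have := Nat.div_add_mod D (S.per k)
        omega
      have hxU : x ∈ S.U := hL.NU hx
      have hnd := S.nd x hxU
      rw [hsplit, Function.iterate_add_apply, Function.iterate_add_apply, he, ST.fsmul, ST.fsmul,
        cr_smul_left]
      have hne1 : (S.F x)^[S.per k * (D / S.per k)] (S.cht k x z) ≠ 0 :=
        hnd.iter_ne _ (ch_ne_zero S.b (some k) x z)
      have hne2 : S.cht k x (ω k (x, w)) ≠ 0 := ch_ne_zero S.b (some k) x _
      have h6 : cr ((S.F x)^[D % S.per k] ((S.F x)^[S.per k * (D / S.per k)] (S.cht k x z)))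
          (S.pt ω k (D % S.per k) x w) = 0 :=
        cr_iter (S.co x) (D % S.per k) hne1 hne2 hw3
      rw [h6, mul_zero]

end Pool.Agent.W757.RD
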