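import Mathlib
import Pool.Agent.H790R3.RB.Main
import Pool.Agent.W54.RE.MU
import Pool.Agent.W440.RE.Lam
import Pool.Agent.W366.REUSC
import Pool.Agent.W440.RE.Ermin
import Pool.Agent.W462.READO
import Pool.Agent.W440.RE.Opn
import Pool.Agent.W364.REFAT
import Pool.Agent.W469.REPOLE
import Pool.Agent.W63.REMS
import Pool.Agent.W63.REAU
import Pool.Agent.W63.RECNJ
import Pool.Agent.W440.RE.Nu
import Pool.Agent.W440.RE.Jt
import Pool.Agent.W440.RE.Nc
import Pool.Agent.W440.RE.Top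
import Pool.Agent.W440.RE.One
import Pool.Agent.W402.RE.UGA
import Pool.Agent.W973.REUG
import Pool.Agent.W342.REGAIN
import Pool.Agent.W366.REDI
import Pool.Agent.W469.REFM
import Pool.Agent.W462.RELOCM
import Pool.Agent.W440.RE.Lne
import Pool.Agent.W571.RENAF
import Pool.Agent.W364.RENAC
import Pool.Agent.W571.REHEX
import Pool.Agent.W757.RD.TKOE
import Pool.Agent.W757.RD.TLIN
import Pool.Agent.W757.RD.TORB
import Pool.Agent.W757.RD.TCOV
import Pool.Agent.W757.RD.TST
import Pool.Agent.W757.RD.TLF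
import Pool.Agent.W757.RD.TIN
import Pool.Agent.W757.RD.TCPT
import Pool.Agent.W757.RD.TEXC
import Pool.Agent.W757.RD.TBAD
import Pool.Agent.W757.RD.TFKB
import Pool.Agent.W757.RD.TLSC
import Pool.Agent.W757.RD.TNUM
import Pool.Agent.W757.RD.TTRF

/-! The statements of `RD.St` which are proved. -/

set_option autoImplicit false

namespace Pool.Agent.W757.RD

open Pool.Agent.H790R3.RB (WR INV KOEN)

theorem p_MU : StMU := _root_.W54.RE.taskMU
theorem p_LAM : StLAM := Pool.Agent.W440.RE.LAM.task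
theorem p_USC : StUSC := Pool.Agent.W366.REUSC.task p_MU
theorem p_ER : StER := Pool.Agent.W440.RE.ERMIN.task.1
theorem p_EMIN : StEMIN := Pool.Agent.W440.RE.ERMIN.task.2
theorem p_ADO : StADO := Pool.Agent.W462.READO.task p_LAM
theorem p_KOE : StKOE := KOE p_LAM KOEN
theorem p_LIN : StLIN := LIN p_LAM INV
theorem p_ORB : StORB := ORB p_LAM
theorem p_COV : StCOV := COV p_LAM
theorem p_ST : StST := ST p_COV
theorem p_LF : StLF := LF
theorem p_IN : StIN := IN
theorem p_CPT : StCPT := CPT p_LAM WR p_ER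
theorem p_OPN : StOPN := Pool.Agent.W440.RE.OPN.task p_LF
theorem p_EXC : StEXC := EXC WR p_ER p_ORB
theorem p_BAD : StBAD := BAD p_LAM
theorem p_FWD : StFWD := FWD p_LAM p_ORB
theorem p_FAT : StFAT := Pool.Agent.W364.REFAT.task
theorem p_FKB : StFKB := FKB p_FAT p_EXC p_LAM
theorem p_POLE : StPOLE := Pool.Agent.W469.REPOLE.task
theorem p_LSC : StLSC := LSC p_MU
theorem p_MS : StMS := Pool.Agent.W63.REMS.task p_ORB
theorem p_AU : StAU := Pool.Agent.W63.REAU.task p_ORB
theorem p_CNJ : StCNJ := Pool.Agent.W63.RECNJ.task p_ORB p_AU p_LAM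
theorem p_NU : StNU := (Pool.Agent.W440.RE.NU.task p_ER).1
theorem p_ALLC : StALLC := (Pool.Agent.W440.RE.NU.task p_ER).2
theorem p_JT : StJT := Pool.Agent.W440.RE.JT.task p_LAM p_ADO
theorem p_NC : StNC := Pool.Agent.W440.RE.NC.task p_ER
theorem p_TOP : StTOP := Pool.Agent.W440.RE.TOP.task
theorem p_ONE : StONE := Pool.Agent.W440.RE.ONE.task p_FAT p_LAM p_KOE p_LIN p_POLE
theorem p_NUM : StNUM := NUM p_ONE
theorem p_UGA : StUGA := Pool.Agent.W402.RE.UGA.task
theorem p_UG : StUG := Pool.Agent.W973.UG.task p_UGA p_MU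
theorem p_GAIN : StGAIN := Pool.Agent.W342.RE.task
theorem p_DI : StDI := Pool.Agent.W366.REDI.task p_UG p_GAIN p_MS p_AU p_CNJ p_FWD p_MU p_LAM
theorem p_FM : StFM := Pool.Agent.W469.REFM.task
theorem p_LOCM : StLOCM := Pool.Agent.W462.RELOCM.task p_FM
theorem p_TRF : StTRF := TRF.task p_LAM p_ADO
theorem p_LNE : StLNE := Pool.Agent.W440.RE.LNE.task
theorem p_NAF : StNAF := Pool.Agent.W571.RENAF.task
theorem p_NAC : StNAC := Pool.Agent.W364.RENAC.task
theorem p_HEX : StHEX := Pool.Agent.W571.REHEX.task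

end Pool.Agent.W757.RD
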