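import Mathlib
import Pool.Agent.W757.RD.StN
import Pool.Agent.W757.Q2.St

/-! Final step of the project RD: combination of the two parts. -/

set_option autoImplicit false

open Topology Filter Metric Set MeasureTheory
open Pool.Agent.H790R3.RB (CV hF cr ND wr rt sp pr hc HypTop Attd Sink)
open Pool.Agent.W757.RF (sarea JS)
open scoped OnePoint

namespace Pool.Agent.W757.RD

theorem sar_eq (E : Set ℂ) : sar E = sarea E := rfl

theorem sarea_univ_lt : sarea (univ : Set ℂ) < ⊤ := by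
  -- `1/(1+|z|^2)^2` is dominated by the density of `mu`
  have h := integrable_one_add_norm (E := ℂ) (μ := volume) (r := 4) (by
    simp only [Complex.finrank_real_complex]; norm_num)
  have h2 : (∫⁻ z : ℂ, ENNReal.ofReal ((1 + ‖z‖) ^ (-(4:ℝ)))) < ⊤ := by
    have := h.lintegral_lt_top
    simpa using this
  unfold sarea
  rw [Measure.restrict_univ]
  have h3 : ∀ z : ℂ, ENNReal.ofReal (1 / (1 + ‖z‖ ^ 2) ^ 2) ≤
      4 * ENNReal.ofReal ((1 + ‖z‖) ^ (-(4:ℝ))) := by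
    intro z
    have h4 : (4 : ENNReal) = ENNReal.ofReal 4 := by norm_num
    rw [h4, ← ENNReal.ofReal_mul (by norm_num)]
    apply ENNReal.ofReal_le_ofReal
    have hz := norm_nonneg z
    have e1 : (1 + ‖z‖) ^ (-(4:ℝ)) = 1 / (1 + ‖z‖) ^ 4 := by
      rw [Real.rpow_neg (by positivity), show (4:ℝ) = ((4:ℕ):ℝ) by norm_num, Real.rpow_natCast]
      simp
    rw [e1, mul_one_div]
    rw [div_le_div_iff₀ (by positivity) (by positivity)]
    have h5 : (1 + ‖z‖) ^ 2 ≤ 2 * (1 + ‖z‖ ^ 2) := by nlinarith [sq_nonneg (‖z‖ - 1)]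
    have h6 : ((1 + ‖z‖) ^ 2) ^ 2 ≤ (2 * (1 + ‖z‖ ^ 2)) ^ 2 :=
      pow_le_pow_left₀ (by positivity) h5 2
    nlinarith
  calc (∫⁻ z : ℂ, ENNReal.ofReal (1 / (1 + ‖z‖ ^ 2) ^ 2))
      ≤ ∫⁻ z : ℂ, 4 * ENNReal.ofReal ((1 + ‖z‖) ^ (-(4:ℝ))) := lintegral_mono h3
    _ = 4 * ∫⁻ z : ℂ, ENNReal.ofReal ((1 + ‖z‖) ^ (-(4:ℝ))) := by
        rw [lintegral_const_mul']
        exact ENNReal.ofNat_ne_top
    _ < ⊤ := ENNReal.mul_lt_top (by exact ENNReal.ofNat_lt_top) h2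

theorem sarea_lt (E : Set ℂ) : sarea E < ⊤ :=
  lt_of_le_of_lt (lintegral_mono_set (subset_univ E)) sarea_univ_lt

/-- the main theorem from the two parts -/
theorem dist_hyp (hSEQ : StSEQ) (hAPX : Pool.Agent.W757.Q2.StAPX2) (γ : ℝ) (d : ℕ)
    (x₀ : CV d) (hγ : 0 < γ) (hγ2 : γ < 1 / 2) (hd : 2 ≤ d) (hx₀ : ND x₀) :
    ∃ C δ : ℝ, 0 < C ∧ 0 < δ ∧ ∀ x : CV d, ND x → ‖x - x₀‖ < δ → ∀ η : ℝ, 0 < η →
      ∃ x' : CV d, ‖x' - x‖ ≤ C * (sarea (JS (sp x))).toReal ^ γ + η ∧ ND x' ∧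
        HypTop (sp x') := by
  obtain ⟨C, δ, hC, hδ, H⟩ := hSEQ γ d x₀ hγ hγ2 hd hx₀
  refine ⟨C, δ, hC, hδ, fun x hx hxd η hη => ?_⟩
  set A : ℝ := (sarea (JS (sp x))).toReal with hA
  have hA0 : 0 ≤ A := ENNReal.toReal_nonneg
  have hAe : sarea (JS (sp x)) = ENNReal.ofReal A :=
    (ENNReal.ofReal_toReal (sarea_lt _).ne).symm
  -- continuity of `s ↦ C * (A + s) ^ γ + s` at `0`
  have hc : Tendsto (fun s : ℝ => C * (A + s) ^ γ + s) (𝓝[>] 0) (𝓝 (C * A ^ γ)) := by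
    have h1 : ContinuousAt (fun s : ℝ => C * (A + s) ^ γ + s) 0 := by
      apply ContinuousAt.add _ continuousAt_id
      apply ContinuousAt.mul continuousAt_const
      apply ContinuousAt.rpow_const
      · exact continuousAt_const.add continuousAt_id
      · right; exact hγ.le
    have h2 := h1.tendsto
    simp only [add_zero] at h2
    exact h2.mono_left nhdsWithin_le_nhds
  have hev : ∀ᶠ s : ℝ in 𝓝[>] 0, C * (A + s) ^ γ + s < C * A ^ γ + η :=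
    hc.eventually (gt_mem_nhds (by linarith))
  have hev2 : ∀ᶠ s : ℝ in 𝓝[>] 0, s < δ - ‖x - x₀‖ := by
    apply eventually_nhdsWithin_of_eventually_nhds
    exact gt_mem_nhds (by linarith)
  obtain ⟨s, ⟨h1, h2⟩, h3⟩ := ((hev.and hev2).and self_mem_nhdsWithin).exists
  have hs : 0 < s := h3
  obtain ⟨x₁, hx₁, hx₁n, hx₁a⟩ := hAPX d x hd hx s hs
  obtain ⟨x', hx', hx'n, hx'h⟩ := H x₁ (by
      calc ‖x₁ - x₀‖ = ‖(x₁ - x) + (x - x₀)‖ := by congr 1; abel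
        _ ≤ ‖x₁ - x‖ + ‖x - x₀‖ := norm_add_le _ _
        _ < δ := by linarith) (A + s) (by linarith) (by
      rw [sar_eq]
      refine hx₁a.trans ?_
      rw [hAe, ← ENNReal.ofReal_add hA0 hs.le])
  refine ⟨x', ?_, hx'n, hx'h⟩
  calc ‖x' - x‖ = ‖(x' - x₁) + (x₁ - x)‖ := by congr 1; abel
    _ ≤ ‖x' - x₁‖ + ‖x₁ - x‖ := norm_add_le _ _
    _ ≤ C * (A + s) ^ γ + s := by linarith
    _ ≤ C * A ^ γ + η := h1.le

end Pool.Agent.W757.RD
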