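import Mathlib
import Pool.Agent.W757.RD.St4

/-! Existence of extensions (port of `Pool.Agent.W345.RQMARK`). -/

set_option autoImplicit false
set_option linter.style.haveILetI false

open Topology Filter Metric Set MeasureTheory
open Pool.Agent.H790R3.RB
open scoped OnePoint

namespace Pool.Agent.W757.RD

namespace MARK

theorem xp_append {n s : ℕ} (x : Fin n → ℂ) (β : Fin s → ℂ) : xp (Fin.append x β) = x := by
  funext i; simp [xp]

theorem bp_append {n s : ℕ} (x : Fin n → ℂ) (β : Fin s → ℂ) : bp (Fin.append x β) = β := by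
  funext i; simp [bp]

theorem xp_diff (n s : ℕ) : Differentiable ℂ (xp : (Fin (n + s) → ℂ) → (Fin n → ℂ)) := by
  rw [differentiable_pi]
  intro i
  exact differentiable_apply (Fin.castAdd s i)

theorem bp_diff (n s : ℕ) (k : Fin s) : Differentiable ℂ (fun q : Fin (n + s) → ℂ => bp q k) :=
  differentiable_apply (Fin.natAdd n k)

theorem inf_of_Nrm {d : ℕ} {x : CV d} (h : Nrm x) : (hF x (1, 0)).2 = 0 := by
  unfold hF
  simp only
  rw [Finset.sum_eq_single (Fin.last d)]
  · simp [h.2]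
  · intro j _ hj
    have : (j : ℕ) < d := lt_of_le_of_ne (Nat.lt_succ_iff.mp j.2) (fun h => hj (Fin.ext h))
    have h2 : d - (j : ℕ) ≠ 0 := by omega
    simp [h2]
  · intro h; exact absurd (Finset.mem_univ _) h

theorem pt_ne (a : ℂ) : ((a, (1 : ℂ)) : ℂ × ℂ) ≠ 0 := by
  intro h
  have := congrArg Prod.snd h
  simp at this

end MARK

open MARK in
theorem MARK (hFM : StFM) (hLOCM : StLOCM) (hDCL : StDCL) : StMARK := by
  intro d Bc hd hBc hBU x₀ hx₀ s per β hMk
  classical
  obtain ⟨hU0o, hfd, hfn, hfN, -⟩ := hFM d hd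
  -- the multipliers
  set v : Fin s → ℂ := fun k => deriv (rt (fam x₀) (per k)) (β k) with hv
  set C0 : Set (Fin (2 * d + s) → ℂ) := {q | xp q ∈ Bc ∧ Mk (xp q) s per (bp q) ∧
      ∀ k, deriv (rt (fam (xp q)) (per k)) (bp q k) = v k} with hC0
  have hC0c : IsCompact C0 := hDCL d Bc s per v hd hBc hBU hMk.pp hMk.mul
  set q₀ : Fin (2 * d + s) → ℂ := Fin.append x₀ β with hq₀
  have hxq₀ : xp q₀ = x₀ := xp_append x₀ β
  have hbq₀ : bp q₀ = β := bp_append x₀ β
  have hq₀C : q₀ ∈ C0 := by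
    refine ⟨?_, ?_, ?_⟩
    · rw [hxq₀]; exact hx₀
    · rw [hxq₀, hbq₀]; exact hMk
    · intro k; rw [hxq₀, hbq₀]
  -- the local systems
  have hloc : ∀ q1 : C0, _ := fun q1 => hLOCM d (xp q1.1) s per (bp q1.1) hd q1.2.2.1
  choose ε r θ b hε hr hθ0 hθ1 hball hb0 hbd hb8 hcontr hsep huniq using hloc
  set V : C0 → Set (Fin (2 * d + s) → ℂ) := fun q1 =>
    {q | xp q ∈ ball (xp q1.1) (ε q1) ∧ ∀ k, ‖bp q k - bp q1.1 k‖ < r q1 / 8} with hV
  have hVo : ∀ q1, IsOpen (V q1) := by
    intro q1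
    refine IsOpen.inter (isOpen_ball.preimage (xp_diff (2 * d) s).continuous) ?_
    have : {q : Fin (2 * d + s) → ℂ | ∀ k, ‖bp q k - bp q1.1 k‖ < r q1 / 8} =
        ⋂ k, {q | ‖bp q k - bp q1.1 k‖ < r q1 / 8} := by ext q; simp
    change IsOpen {q : Fin (2 * d + s) → ℂ | ∀ k, ‖bp q k - bp q1.1 k‖ < r q1 / 8}
    rw [this]
    refine isOpen_iInter_of_finite fun k => ?_
    exact isOpen_lt (((bp_diff (2 * d) s k).continuous.sub continuous_const).norm) continuous_const
  have hVm : ∀ q1 : C0, q1.1 ∈ V q1 := by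
    intro q1
    refine ⟨mem_ball_self (hε q1), fun k => ?_⟩
    rw [sub_self, norm_zero]
    have := hr q1
    linarith
  obtain ⟨t, ht⟩ := hC0c.elim_finite_subcover V hVo
    (fun q hq => mem_iUnion.2 ⟨⟨q, hq⟩, hVm ⟨q, hq⟩⟩)
  -- periodicity of the continued points
  have hper0 : ∀ (i : C0), ∀ x ∈ ball (xp i.1) (ε i), ∀ k : Fin s,
      ∃ a : ℂ, a ≠ 0 ∧ (hF (fam x))^[per k] (b i k x + 0, 1) = a • ((b i k x + 0, 1) : ℂ × ℂ) := by
    intro i x hx k
    obtain ⟨a, z', ha, hz', he⟩ := hcontr i x hx k 0 (by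
      rw [norm_zero]
      exact hr i)
    rw [norm_zero, mul_zero] at hz'
    have hz0 : z' = 0 := norm_le_zero_iff.1 hz'
    rw [hz0] at he
    exact ⟨a, ha, he⟩
  -- uniqueness
  have huq : ∀ (i : C0) (q : Fin (2 * d + s) → ℂ), q ∈ V i → ∀ (k : Fin s) (z : ℂ),
      ‖z - bp q k‖ < r i / 2 → cr ((hF (fam (xp q)))^[per k] (z, 1)) (z, 1) = 0 →
      z = b i k (xp q) := by
    intro i q hq k z hz hcr
    refine huniq i (xp q) hq.1 k z ?_ hcr
    have h1 := hq.2 k
    have h2 : z - bp i.1 k = (z - bp q k) + (bp q k - bp i.1 k) := by ring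
    rw [h2]
    refine (norm_add_le _ _).trans_lt ?_
    have := hr i
    linarith
  have hcrb : ∀ (j : C0) (q : Fin (2 * d + s) → ℂ), q ∈ V j → ∀ k : Fin s,
      cr ((hF (fam (xp q)))^[per k] (b j k (xp q), 1)) (b j k (xp q), 1) = 0 := by
    intro j q hq k
    obtain ⟨a, -, he⟩ := hper0 j (xp q) hq.1 k
    rw [add_zero] at he
    rw [he, cr_smul_left, cr_self, mul_zero]
  have hdist : ∀ (j : C0) (q : Fin (2 * d + s) → ℂ), q ∈ V j → ∀ k : Fin s,
      ‖b j k (xp q) - bp q k‖ < r j / 4 := by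
    intro j q hq k
    have h1 := hq.2 k
    have h2 := hb8 j (xp q) hq.1 k
    have h3 : b j k (xp q) - bp q k = (b j k (xp q) - bp j.1 k) - (bp q k - bp j.1 k) := by ring
    rw [h3]
    refine (norm_sub_le _ _).trans_lt ?_
    linarith
  have hcons : ∀ (i j : C0) (q : Fin (2 * d + s) → ℂ), q ∈ V i → q ∈ V j → ∀ k : Fin s,
      b j k (xp q) = b i k (xp q) := by
    have key : ∀ (i j : C0) (q : Fin (2 * d + s) → ℂ), q ∈ V i → q ∈ V j → r j ≤ r i →
        ∀ k : Fin s, b j k (xp q) = b i k (xp q) := by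
      intro i j q hi hj hij k
      refine huq i q hi k _ ?_ (hcrb j q hj k)
      have h1 := hdist j q hj k
      have := hr i
      linarith
    intro i j q hi hj k
    rcases le_total (r j) (r i) with h | h
    · exact key i j q hi hj h k
    · exact (key j i q hj hi h k).symm
  -- the system
  set U : Set (Fin (2 * d + s) → ℂ) := ⋃ i ∈ t, V i with hU
  have hUmem : ∀ q, q ∈ U ↔ ∃ i ∈ t, q ∈ V i := by
    intro q; simp [hU]
  have hUo : IsOpen U := isOpen_biUnion fun i _ => hVo i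
  have hC0U : C0 ⊆ U := ht
  obtain ⟨i₀, hi₀, hi₀V⟩ := (hUmem q₀).1 (hC0U hq₀C)
  have hne : t.Nonempty := ⟨i₀, hi₀⟩
  set rm : ℝ := t.inf' hne r with hrm
  have hrm0 : 0 < rm := (Finset.lt_inf'_iff hne).2 fun i _ => hr i
  have hrmle : ∀ i ∈ t, rm ≤ r i := fun i hi => Finset.inf'_le r hi
  set θm : ℝ := t.sup' hne θ with hθm
  have hθmle : ∀ i ∈ t, θ i ≤ θm := fun i hi => Finset.le_sup' θ hi
  have hθm0 : 0 ≤ θm := (hθ0 i₀).trans (hθmle i₀ hi₀)
  have hθm1 : θm < 1 := (Finset.sup'_lt_iff hne).2 fun i _ => hθ1 i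
  set B : Fin s → (Fin (2 * d + s) → ℂ) → ℂ := fun k q =>
    if h : ∃ i ∈ t, q ∈ V i then b h.choose k (xp q) else 0 with hB
  have hBeq : ∀ i ∈ t, ∀ q ∈ V i, ∀ k, B k q = b i k (xp q) := by
    intro i hi q hq k
    have h : ∃ i ∈ t, q ∈ V i := ⟨i, hi, hq⟩
    simp only [hB]
    rw [dif_pos h]
    exact hcons i h.choose q hq h.choose_spec.2 k
  let S : Pool.Agent.W757.RD.Sys d (2 * d + s) s :=
    { co := fun q => fam (xp q)
      U := U
      per := per
      b := B
      r₀ := fun _ => rm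
      θ := θm
      hd := hd
      hU := hUo
      hr₀ := fun _ => hrm0
      hθ0 := hθm0
      hθ := hθm1
      hper := hMk.pp
      hco := (hfd.comp (xp_diff (2 * d) s)).differentiableOn
      hb := by
        intro k q hq
        obtain ⟨i, hi, hqi⟩ := (hUmem q).1 hq
        have h1 : DifferentiableAt ℂ (fun q => b i k (xp q)) q := by
          have h2 := (hbd i k).differentiableAt (isOpen_ball.mem_nhds hqi.1)
          exact h2.comp q (xp_diff (2 * d) s q)
        refine (h1.congr_of_eventuallyEq ?_).differentiableWithinAt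
        filter_upwards [(hVo i).mem_nhds hqi] with q' hq'
        exact hBeq i hi q' hq' k
      nd := by
        intro q hq
        obtain ⟨i, hi, hqi⟩ := (hUmem q).1 hq
        exact (hball i hqi.1).1
      hinf := fun q _ => inf_of_Nrm (hfN _)
      hwr := by
        intro q hq
        obtain ⟨i, hi, hqi⟩ := (hUmem q).1 hq
        exact (hball i hqi.1).2
      contr := by
        intro q hq k z hz
        obtain ⟨i, hi, hqi⟩ := (hUmem q).1 hq
        obtain ⟨a, z', ha, hz', he⟩ := hcontr i (xp q) hqi.1 k z (lt_of_lt_of_le hz (hrmle i hi))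
        refine ⟨a, z', ha, hz'.trans (mul_le_mul_of_nonneg_right (hθmle i hi) (norm_nonneg _)), ?_⟩
        rw [hBeq i hi q hqi k]
        exact he
      sep := by
        intro q hq k k' z z' a m hz hz' he
        obtain ⟨i, hi, hqi⟩ := (hUmem q).1 hq
        rw [hBeq i hi q hqi k, hBeq i hi q hqi k'] at he
        exact hsep i (xp q) hqi.1 k k' z z' a m (lt_of_lt_of_le hz (hrmle i hi))
          (lt_of_lt_of_le hz' (hrmle i hi)) he }
  have hlamret : ∀ (k : Fin s) (q : Fin (2 * d + s) → ℂ), (∀ k, S.b k q = bp q k) →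
      S.lam k q = deriv (rt (fam (xp q)) (per k)) (bp q k) := by
    intro k q h
    have h1 : S.hk k q = fun z => rt (fam (xp q)) (per k) (bp q k + z) - bp q k := by
      funext z
      have h2 : S.hk k q z = rt (fam (xp q)) (per k) (S.b k q + z) - S.b k q := rfl
      rw [h2, h k]
    unfold Pool.Agent.W757.RD.Sys.lam
    rw [h1, deriv_sub_const]
    have h3 := deriv_comp_const_add (f := rt (fam (xp q)) (per k)) (bp q k) 0
    rw [h3, add_zero]
  have hSb : ∀ q ∈ C0, ∀ k, S.b k q = bp q k := by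
    intro q hq k
    obtain ⟨i, hi, hqi⟩ := (hUmem q).1 (hC0U hq)
    change B k q = bp q k
    rw [hBeq i hi q hqi k]
    refine (huq i q hqi k (bp q k) ?_ ?_).symm
    · rw [sub_self, norm_zero]; have := hr i; linarith
    · exact hq.2.1.cyc k
  have hlam₀ : ∀ k, S.lam k q₀ = v k := by
    intro k
    rw [hlamret k q₀ (hSb q₀ hq₀C)]
    exact hq₀C.2.2 k
  refine ⟨S, q₀, ?_, rfl, hC0U hq₀C, hxq₀, fun k => by rw [hbq₀],
    fun k => by rw [hSb q₀ hq₀C k, hbq₀], ?_⟩
  · refine ⟨?_, fun x _ => rfl, ?_⟩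
    · intro q hq
      obtain ⟨i, hi, hqi⟩ := (hUmem q).1 hq
      exact hball i hqi.1
    · intro q hq
      obtain ⟨i, hi, hqi⟩ := (hUmem q).1 hq
      filter_upwards [(hVo i).mem_nhds hqi] with q' hq' hxx k
      change B k q' = B k q
      rw [hBeq i hi q' hq' k, hBeq i hi q hqi k, hxx]
  · have hset : {q | q ∈ S.U ∧ xp q ∈ Bc ∧ (∀ k, S.b k q = bp q k) ∧
        ∀ k, S.lam k q = S.lam k q₀} = C0 := by
      ext q
      constructor
      · rintro ⟨hq, hqb, hbb, hll⟩
        obtain ⟨i, hi, hqi⟩ := (hUmem q).1 hq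
        refine ⟨hqb, ⟨hball i hqi.1, hMk.pp, ?_, ?_, ?_⟩, ?_⟩
        · intro k
          obtain ⟨a, z', ha, hz', he⟩ := S.contr q hq k 0 (by rw [norm_zero]; exact S.hr₀ k)
          rw [norm_zero, mul_zero] at hz'
          have hz0 : z' = 0 := norm_le_zero_iff.1 hz'
          rw [hz0, add_zero, hbb k] at he
          have he' : (hF (fam (xp q)))^[per k] (bp q k, 1) = a • ((bp q k, 1) : ℂ × ℂ) := he
          rw [he', cr_smul_left, cr_self, mul_zero]
        · intro k
          rw [← hlamret k q hbb, hll k, hlam₀ k]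
          exact hMk.mul k
        · intro k k' m hcr
          have hnd : ND (fam (xp q)) := (hball i hqi.1).1
          obtain ⟨a, -, ha⟩ := (cr_eq_zero_iff (hnd.iter_ne m (pt_ne (bp q k)))
            (pt_ne (bp q k'))).1 hcr
          refine S.sep q hq k k' 0 0 a m (by rw [norm_zero]; exact S.hr₀ k)
            (by rw [norm_zero]; exact S.hr₀ k') ?_
          rw [add_zero, add_zero, hbb k, hbb k']
          exact ha
        · intro k
          rw [← hlamret k q hbb, hll k, hlam₀ k]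
      · intro hq
        refine ⟨hC0U hq, hq.1, hSb q hq, fun k => ?_⟩
        rw [hlam₀ k, hlamret k q (hSb q hq)]
        exact hq.2.2 k
    rw [hset]
    exact hC0c

end Pool.Agent.W757.RD
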