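import Mathlib
import Pool.Agent.W757.RD.St4

/-! The distance to the hyperbolic maps in the universal family (adapted from
`Pool.Agent.W40.RQSEL`). -/

set_option autoImplicit false
set_option linter.style.haveILetI false

open Topology Filter Metric Set MeasureTheory
open Pool.Agent.H790R3.RB (CV hF cr ND wr rt Ix yx yc sp HypTop Attd Sink)
open scoped OnePoint

namespace Pool.Agent.W757.RD

namespace SEL

theorem sel_inj {d n s l : ℕ} {S : Sys d n s} {KK : Fin s → (Fin n → ℂ) × (ℂ × ℂ) → ℂ}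
    {e : Fin l → (Fin n → ℂ) → ℂ} {A : Finset (Pt d)}
    {ks : Pt d → Fin s} {ls : Pt d → ℕ} {R : ℕ}
    {y : Ix d n s → ℂ} (sel : Fin R → Sys.Rw l d s A)
    (col : Fin (2 * d - 2) ⊕ Fin R → Ix d n s) (h : (S.Mx KK e A ks ls sel col y).det ≠ 0) :
    Function.Injective sel := by
  intro i i' hii
  by_contra hne
  apply h
  have hne' : (Sum.inr i : Fin (2 * d - 2) ⊕ Fin R) ≠ Sum.inr i' :=
    fun h => hne (Sum.inr_injective h)
  refine Matrix.det_zero_of_row_eq hne' ?_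
  funext c
  simp only [Sys.Mx, Matrix.of_apply]
  rw [hii]

theorem R_le {d n s l : ℕ} {S : Sys d n s} {KK : Fin s → (Fin n → ℂ) × (ℂ × ℂ) → ℂ}
    {e : Fin l → (Fin n → ℂ) → ℂ} {A : Finset (Pt d)}
    {ks : Pt d → Fin s} {ls : Pt d → ℕ} {R : ℕ}
    {y : Ix d n s → ℂ} (h : Goodc S KK e A ks ls R y) :
    R ≤ l + (s + A.card) := by
  obtain ⟨-, sel, col, h⟩ := h
  have h1 := Fintype.card_le_of_injective sel (sel_inj sel col h)
  simp only [Fintype.card_fin, Fintype.card_sum, Fintype.card_coe] at h1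
  omega

theorem s_le (hNUM : StNUM) (hER : StER) {d n s l : ℕ} {S : Sys d n s}
    {KK : Fin s → (Fin n → ℂ) × (ℂ × ℂ) → ℂ}
    {e : Fin l → (Fin n → ℂ) → ℂ} {A : Finset (Pt d)}
    {ks : Pt d → Fin s} {ls : Pt d → ℕ} {R : ℕ}
    {y : Ix d n s → ℂ} (h : Goodc S KK e A ks ls R y) : s ≤ 2 * d - 2 :=
  hNUM d n s S (yx y) h.1.xU h.1.lam0 ⟨yc y, hER d n s S y h.1.crit⟩

theorem card_le {d : ℕ} (hd : 2 ≤ d) (A : Finset (Pt d)) : A.card ≤ 2 * d := by
  have := Finset.card_le_univ A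
  simp only [Fintype.card_sum, Fintype.card_fin] at this
  omega

/-- configurations with potential at least `j` -/
def Cf (d : ℕ) (β : ℝ) (u₁ : Fin (2 * d) → ℂ) (j : ℕ) (x b : ℝ) : Prop :=
  ∃ (s : ℕ) (S : Sys d (2 * d + s) s) (KK : Fin s → (Fin (2 * d + s) → ℂ) × (ℂ × ℂ) → ℂ)
    (A : Finset (Pt d)) (ks : Pt d → Fin s)
    (ls : Pt d → ℕ) (R : ℕ) (y : Ix d (2 * d + s) s → ℂ), Ext S ∧ S.Koe KK ∧
    ‖xp (yx y) - u₁‖ ≤ x ∧ mu β (S.KS (yx y)) ≤ ENNReal.ofReal b ∧
    Sum.inr 0 ∈ A ∧ Sum.inr 1 ∈ A ∧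
    Goodc S KK (ee S) A ks ls R y ∧ (A.card = 2 * d ∨ j ≤ A.card * (6 * d) + R)

theorem cr_smul_self (a : ℂ) (v : ℂ × ℂ) : cr (a • v) v = 0 := by
  unfold cr
  simp only [Prod.smul_fst, Prod.smul_snd, smul_eq_mul]
  ring

theorem par_of_cr {b : ℂ} {v : ℂ × ℂ} (h : cr v (b, 1) = 0) : ∃ a : ℂ, v = a • ((b, 1) : ℂ × ℂ) := by
  unfold cr at h
  simp only at h
  refine ⟨v.2, ?_⟩
  have h2 : v.1 = v.2 * b := by linear_combination h
  ext
  · simpa using h2
  · simp

theorem mk_of (hLAM : StLAM) {d s : ℕ} {S : Sys d (2 * d + s) s} (hE : Ext S)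
    {q : Fin (2 * d + s) → ℂ} (hq : q ∈ S.U) : Mk (xp q) s S.per (fun k => S.b k q) where
  xU := hE.U q hq
  pp := S.hper
  cyc := by
    intro k
    obtain ⟨a, z', _, hz', h⟩ := S.contr q hq k 0 (by simpa using S.hr₀ k)
    have hz0 : z' = 0 := by simpa using hz'
    rw [hz0, hE.co q hq, add_zero] at h
    rw [h]
    exact cr_smul_self _ _
  mul := by
    intro k
    have h1 := (hLAM d (2 * d + s) s S).2.1 k q hq
    have h2 : S.lam k q = deriv (rt (fam (xp q)) (S.per k)) (S.b k q) := by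
      have h1 : S.hk k q = fun z => rt (fam (xp q)) (S.per k) (S.b k q + z) - S.b k q := by
        funext z
        unfold Sys.hk Sys.F Sys.cht
        rw [hE.co q hq]
        rfl
      unfold Sys.lam
      rw [h1, deriv_sub_const]
      have h3 := deriv_comp_const_add (f := rt (fam (xp q)) (S.per k)) (S.b k q) 0
      rw [h3, add_zero]
    rw [← h2]
    exact lt_of_le_of_lt h1 S.hθ
  dis := by
    intro k k' m h
    obtain ⟨a, ha⟩ := par_of_cr h
    rw [← hE.co q hq] at ha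
    exact S.sep q hq k k' 0 0 a m (by simpa using S.hr₀ k) (by simpa using S.hr₀ k')
      (by simpa using ha)

end SEL

open SEL in
theorem SEL (hSTART : StSTART) (hMARK : StMARK) (hTRF : StTRF) (hMINP : StMINP) (hNUM : StNUM)
    (hALLC : StALLC) (hTOP : StTOP) (hER : StER) (hLAM : StLAM) (hKOE : StKOE) : StSEL := by
  classical
  intro β d u₀ hβ hβ1 hd hu₀ hGz
  obtain ⟨C₁, ε₁, σ₁, hC₁, hε₁, hσ₁, hBU, hmin⟩ := hMINP β d u₀ hβ hβ1 hd hu₀ hGz
  -- one step
  have hstep : ∀ (u₁ : Fin (2 * d) → ℂ) (j : ℕ) (x b : ℝ), 0 ≤ b → b < ε₁ →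
      x + ‖u₁ - u₀‖ < σ₁ / 2 → Cf d β u₁ j x b → ∀ η : ℝ, 0 < η →
      Cf d β u₁ (j + 1) (x + (C₁ * Real.sqrt b + η)) (b + η) := by
    rintro u₁ j x b hb hbε hx ⟨s, S, KK, A, ks, ls, R, y, h1, h2, h3, h4, hA0, hA1, h5, h6⟩ η hη
    have hsq : 0 ≤ C₁ * Real.sqrt b := mul_nonneg hC₁.le (Real.sqrt_nonneg _)
    by_cases hcard : A.card = 2 * d
    · refine ⟨s, S, KK, A, ks, ls, R, y, h1, h2, by linarith, ?_, hA0, hA1, h5, Or.inl hcard⟩
      exact h4.trans (ENNReal.ofReal_le_ofReal (by linarith))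
    have hlt : A.card < 2 * d := lt_of_le_of_ne (card_le hd A) hcard
    have hj : j ≤ A.card * (6 * d) + R := h6.resolve_left hcard
    have hq : yx y ∈ S.U := h5.1.xU
    have hMk := mk_of hLAM h1 hq
    have hdist : ‖xp (yx y) - u₀‖ < σ₁ / 2 := by
      have : xp (yx y) - u₀ = (xp (yx y) - u₁) + (u₁ - u₀) := by abel
      rw [this]
      exact lt_of_le_of_lt (norm_add_le _ _) (by linarith)
    obtain ⟨S', q₀, g1, g2, g3, g4, g5, g6, g7⟩ := hMARK d (closedBall u₀ σ₁) hd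
      (isCompact_closedBall _ _) hBU (xp (yx y)) (by
        rw [mem_closedBall, dist_eq_norm]
        linarith) s S.per _ hMk
    obtain ⟨KK', hKK'⟩ := hKOE d (2 * d + s) s S'
    let y' : Ix d (2 * d + s) s → ℂ := Sum.elim q₀ (Sum.elim (yc y) (fun k => ys y k))
    have hyx : yx y' = q₀ := rfl
    have hyc : yc y = yc y' := rfl
    have hyk : ys y = ys y' := rfl
    obtain ⟨t1, t2, t3⟩ := hTRF d s S S' h1 g1 g2.symm (yx y) q₀ hq g3 g4.symm
      (fun k => (g6 k).symm)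
    have hG' := t3 KK KK' A ks ls R y y' h2 hKK' rfl rfl hyc hyk h5
    obtain ⟨A', ks', ls', z, z1, z2, z3, z3', z4⟩ := hmin s S' KK' A ks ls R y' g1 hKK'
      (fun k => by rw [hyx, g6, g5]) (by
        rw [hyx]
        exact g7) (by
        rw [hyx, g4]
        exact hdist) b hb hbε (by
        rw [hyx, ← t1]
        exact h4) hG' hA0 hA1 hlt η hη
    have hz : ‖xp (yx z) - u₁‖ ≤ x + (C₁ * Real.sqrt b + η) := by
      rw [hyx, g4] at z1
      have : xp (yx z) - u₁ = (xp (yx y) - u₁) + (xp (yx z) - xp (yx y)) := by abel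
      rw [this]
      exact (norm_add_le _ _).trans (by linarith)
    have hRle := R_le h5
    have hsle := s_le hNUM hER h5
    rcases z4 with ⟨z5, z6⟩ | ⟨z5, z6⟩
    · refine ⟨s, S', KK', A', ks', ls', 0, z, g1, hKK', hz, z2, z3, z3', z6, Or.inr ?_⟩
      have h7 : (A.card + 1) * (6 * d) ≤ A'.card * (6 * d) := Nat.mul_le_mul_right _ z5
      have h8 : (A.card + 1) * (6 * d) = A.card * (6 * d) + 6 * d := by ring
      omega
    · refine ⟨s, S', KK', A', ks', ls', R + 1, z, g1, hKK', hz, z2, z3, z3', z6, Or.inr ?_⟩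
      rw [z5]
      omega
  -- constants
  set T : ℕ := 2 * d * (6 * d) + 6 * d with hT
  have hT0 : (0 : ℝ) ≤ (T : ℝ) := Nat.cast_nonneg _
  set M : ℝ := T * C₁ with hM
  have hM0 : 0 ≤ M := mul_nonneg hT0 hC₁.le
  set ρ : ℝ := σ₁ / (8 * (M + 1)) with hρ
  have hρ0 : 0 < ρ := by positivity
  have hMρ : M * ρ < σ₁ / 8 := by
    have h1 : (M + 1) * ρ = σ₁ / 8 := by
      rw [hρ]; field_simp
    linarith
  refine ⟨M + 1, min (ε₁ / 2) (ρ ^ 2), σ₁ / 8, by linarith, lt_min (by linarith) (by positivity),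
    by linarith, ?_⟩
  intro u₁ hu₁ hsink hatt a ha0 ha hmu η hη
  have haε : a < ε₁ / 2 := lt_of_lt_of_le ha (min_le_left _ _)
  have haρ : Real.sqrt a < ρ := by
    rw [Real.sqrt_lt' hρ0]
    exact lt_of_lt_of_le ha (min_le_right _ _)
  have hu₁U : u₁ ∈ U₀ d := hBU (by
    rw [mem_closedBall, dist_eq_norm]
    linarith)
  -- choice of the small number
  obtain ⟨η', hη'0, hη'1, hη'2⟩ : ∃ η' : ℝ, 0 < η' ∧ (T + 1) * η' + M * Real.sqrt ((T + 1) * η') <
      min η (σ₁ / 8) ∧ (T + 1) * η' < ε₁ / 2 := by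
    have hc : Continuous fun t : ℝ => (T + 1) * t + M * Real.sqrt ((T + 1) * t) := by fun_prop
    have h1 : ∀ᶠ t : ℝ in 𝓝 0, (T + 1) * t + M * Real.sqrt ((T + 1) * t) < min η (σ₁ / 8) := by
      refine (hc.tendsto 0).eventually_lt_const ?_
      simp only [mul_zero, Real.sqrt_zero, add_zero]
      exact lt_min hη (by linarith)
    have hc2 : Continuous fun t : ℝ => ((T : ℝ) + 1) * t := by fun_prop
    have h2 : ∀ᶠ t : ℝ in 𝓝 0, ((T : ℝ) + 1) * t < ε₁ / 2 := by
      refine (hc2.tendsto 0).eventually_lt_const ?_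
      simp only [mul_zero]
      linarith
    obtain ⟨t, ⟨ht1, ht2⟩, ht3⟩ := (((h1.and h2).filter_mono nhdsWithin_le_nhds).and
      (self_mem_nhdsWithin : Ioi (0 : ℝ) ∈ 𝓝[>] (0 : ℝ))).exists
    exact ⟨t, ht3, ht1, ht2⟩
  set b : ℝ := a + (T + 1) * η' with hb
  have hsqb : Real.sqrt b ≤ Real.sqrt a + Real.sqrt ((T + 1) * η') := by
    have hc0 : (0 : ℝ) ≤ (T + 1) * η' := by positivity
    rw [Real.sqrt_le_iff]
    refine ⟨by positivity, ?_⟩
    have e1 := Real.sq_sqrt ha0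
    have e2 := Real.sq_sqrt hc0
    have e3 : 0 ≤ Real.sqrt a * Real.sqrt ((T + 1) * η') := by positivity
    rw [hb]
    nlinarith
  have hMb : M * Real.sqrt b ≤ M * Real.sqrt a + M * Real.sqrt ((T + 1) * η') := by
    rw [← mul_add]
    exact mul_le_mul_of_nonneg_left hsqb hM0
  have hMa : M * Real.sqrt a ≤ M * ρ := mul_le_mul_of_nonneg_left haρ.le hM0
  have hη'3 := lt_of_lt_of_le hη'1 (min_le_left _ _)
  have hη'4 := lt_of_lt_of_le hη'1 (min_le_right _ _)
  -- the induction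
  have hind : ∀ j : ℕ, j ≤ T → Cf d β u₁ j ((j + 1) * η' + j * (C₁ * Real.sqrt b))
      (a + (j + 1) * η') := by
    intro j
    induction j with
    | zero =>
      intro _
      obtain ⟨s, S, KK, ks, ls, y, h1, h2, h3, h4, h5⟩ :=
        hSTART β d u₁ hβ hβ1 hd hu₁U hsink hatt η' hη'0
      refine ⟨s, S, KK, {Sum.inr 0, Sum.inr 1}, ks, ls, 0, y, h1, h2, by simpa using h3.le, ?_,
        by simp, by simp, h5, Or.inr (Nat.zero_le _)⟩
      refine h4.trans ?_
      refine (add_le_add_left hmu _).trans ?_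
      rw [← ENNReal.ofReal_add ha0 hη'0.le]
      apply ENNReal.ofReal_le_ofReal
      simp
    | succ j ih =>
      intro hj
      have hjT : (j : ℝ) + 1 ≤ T := by exact_mod_cast hj
      have hj0 : (0 : ℝ) ≤ j := Nat.cast_nonneg _
      have hCf := ih (by omega)
      have hbj : a + (j + 1) * η' ≤ b := by
        rw [hb]
        have : ((j : ℝ) + 1) * η' ≤ (T + 1) * η' :=
          mul_le_mul_of_nonneg_right (by linarith) hη'0.le
        linarith
      have hsb : 0 ≤ C₁ * Real.sqrt b := mul_nonneg hC₁.le (Real.sqrt_nonneg _)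
      have h7 := hstep u₁ j _ _ (by positivity) (by linarith) (by
        have e1 : ((j : ℝ) + 1) * η' ≤ (T + 1) * η' :=
          mul_le_mul_of_nonneg_right (by linarith) hη'0.le
        have e2 : (j : ℝ) * (C₁ * Real.sqrt b) ≤ T * (C₁ * Real.sqrt b) :=
          mul_le_mul_of_nonneg_right (by linarith) hsb
        have e3 : (T : ℝ) * (C₁ * Real.sqrt b) = M * Real.sqrt b := by rw [hM]; ring
        linarith) hCf η' hη'0
      obtain ⟨s, S, KK, A, ks, ls, R, y, h1, h2, h3, h4, h5⟩ := h7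
      refine ⟨s, S, KK, A, ks, ls, R, y, h1, h2, h3.trans ?_, h4.trans ?_, h5⟩
      · have e1 : C₁ * Real.sqrt (a + (j + 1) * η') ≤ C₁ * Real.sqrt b :=
          mul_le_mul_of_nonneg_left (Real.sqrt_le_sqrt hbj) hC₁.le
        push_cast
        linarith
      · apply ENNReal.ofReal_le_ofReal
        push_cast
        linarith
  obtain ⟨s, S, KK, A, ks, ls, R, y, h1, h2, h3, h4, hA0, hA1, h5, h6⟩ := hind T le_rfl
  have hcard : A.card = 2 * d := by
    by_contra hcard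
    have h7 := h6.resolve_left hcard
    have hRle := R_le h5
    have hsle := s_le hNUM hER h5
    have hlt : A.card + 1 ≤ 2 * d := by
      have := card_le hd A
      omega
    have h8 : (A.card + 1) * (6 * d) ≤ (2 * d) * (6 * d) := Nat.mul_le_mul_right _ hlt
    have h9 : (A.card + 1) * (6 * d) = A.card * (6 * d) + 6 * d := by ring
    omega
  have hA : A = Finset.univ := by
    apply Finset.eq_univ_of_card
    rw [hcard]
    simp only [Fintype.card_sum, Fintype.card_fin]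
    omega
  subst hA
  have hq : yx y ∈ S.U := h5.1.xU
  refine ⟨xp (yx y), ?_, h1.U _ hq, ?_⟩
  · refine h3.trans ?_
    have e3 : (T : ℝ) * (C₁ * Real.sqrt b) = M * Real.sqrt b := by rw [hM]; ring
    have := Real.sqrt_nonneg a
    linarith
  · rw [← h1.co _ hq]
    exact hTOP d (2 * d + s) s S (yx y) hq (hALLC d (2 * d + s) s S ks ls y h5.1)

end Pool.Agent.W757.RD
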