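import Mathlib
import Pool.Agent.W757.RD.Base
import Pool.Agent.W757.RD.TMARK
import Pool.Agent.W757.RD.TSEL
import Pool.Agent.W757.RD.Fin
import Pool.Agent.W214.REDCL
import Pool.Agent.W63.REGENX
import Pool.Agent.W402.RE.MINP
import Pool.Agent.W364.RENM
import Pool.Agent.W54.RE.NA
import Pool.Agent.W586.RESMK
import Pool.Agent.W210.RESTART
import Pool.Agent.W462.RENORM
import Pool.Agent.W462.RESEQ
import Pool.Agent.W462.REQ2APX

/-! Assembly of the project RD. -/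

set_option autoImplicit false

namespace Pool.Agent.W757.RD

theorem p_DCL : StDCL := Pool.Agent.W214.REDCL.task p_FM
theorem p_GENX : StGENX := Pool.Agent.W63.REGENX.task p_FM
theorem p_MARK : StMARK := MARK p_FM p_LOCM p_DCL
theorem p_SMK : StSMK := Pool.Agent.W586.RESMK.task p_MARK p_GENX p_LNE p_NUM
theorem p_START : StSTART :=
  Pool.Agent.W210.RE.task p_SMK p_MARK p_USC p_LNE p_EMIN p_KOE p_GENX p_FM
theorem p_MINP : StMINP :=
  Pool.Agent.W402.RE.MINP.task p_FM p_LAM p_LIN p_LSC p_DI p_USC p_ADO p_LF p_IN p_BAD p_CPT p_OPN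
    p_EXC p_FKB p_POLE p_NU p_JT p_ST p_NC p_FWD p_MU Pool.Agent.H790R3.RB.DISC
    Pool.Agent.H790R3.RB.MAXI Pool.Agent.H790R3.RB.CONT
theorem p_SEL : StSEL :=
  SEL p_START p_MARK p_TRF p_MINP p_NUM p_ALLC p_TOP p_ER p_LAM p_KOE
theorem p_NM : StNM := Pool.Agent.W364.RENM.task p_FM
theorem p_NA : StNA := _root_.W54.RE.taskNA
theorem p_NORM : StNORM := Pool.Agent.W462.RENORM.task p_NM p_NA p_MU
theorem p_SEQ : StSEQ := Pool.Agent.W462.RESEQ.task p_SEL p_NORM p_NAF p_NAC p_HEX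

theorem p_APX (hPTW : Pool.Agent.W757.Q2.StPTW) : Pool.Agent.W757.Q2.StAPX2 :=
  Pool.Agent.W462.REQ2APX.task hPTW

end Pool.Agent.W757.RD
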