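import Mathlib
import Pool.Agent.W757.RD.Main
import Pool.Agent.W378.REQ2INJ
import Pool.Agent.W63.REQ2SURL
import Pool.Agent.W342.REQ2PTW

/-! The main theorem of the project RD. -/

set_option autoImplicit false

open Topology Filter Metric Set MeasureTheory
open Pool.Agent.H790R3.RB (CV hF cr ND wr rt sp pr hc HypTop Attd Sink)
open Pool.Agent.W757.RF (sarea JS)
open scoped OnePoint

namespace Pool.Agent.W757.RD

/-- the main theorem with the hypothesis `StPTW` -/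
theorem main_of (hPTW : Pool.Agent.W757.Q2.StPTW) (γ : ℝ) (d : ℕ)
    (x₀ : CV d) (hγ : 0 < γ) (hγ2 : γ < 1 / 2) (hd : 2 ≤ d) (hx₀ : ND x₀) :
    ∃ C δ : ℝ, 0 < C ∧ 0 < δ ∧ ∀ x : CV d, ND x → ‖x - x₀‖ < δ → ∀ a : ℝ, 0 < a →
      sarea (JS (sp x)) < ENNReal.ofReal a →
      ∃ x' : CV d, ‖x' - x‖ ≤ C * a ^ γ ∧ ND x' ∧ HypTop (sp x') := by
  obtain ⟨C, δ, hC, hδ, H⟩ := dist_hyp p_SEQ (p_APX hPTW) γ d x₀ hγ hγ2 hd hx₀
  refine ⟨C, δ, hC, hδ, fun x hx hxd a ha hlt => ?_⟩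
  have h1 : (sarea (JS (sp x))).toReal < a := by
    rw [← ENNReal.toReal_ofReal ha.le]
    exact ENNReal.toReal_strict_mono ENNReal.ofReal_ne_top hlt
  have h2 : (sarea (JS (sp x))).toReal ^ γ < a ^ γ :=
    Real.rpow_lt_rpow ENNReal.toReal_nonneg h1 hγ
  have h3 : 0 < C * (a ^ γ - (sarea (JS (sp x))).toReal ^ γ) := mul_pos hC (by linarith)
  obtain ⟨x', g1, g2, g3⟩ := H x hx hxd _ h3
  exact ⟨x', g1.trans (le_of_eq (by ring)), g2, g3⟩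

theorem p_PTW : Pool.Agent.W757.Q2.StPTW :=
  Pool.Agent.W342.RE.PTW.main (Pool.Agent.W63.REQ2SURL.task Pool.Agent.W378.Q2INJ.task)

/-- the main theorem -/
theorem main (γ : ℝ) (d : ℕ) (x₀ : CV d) (hγ : 0 < γ) (hγ2 : γ < 1 / 2) (hd : 2 ≤ d)
    (hx₀ : ND x₀) :
    ∃ C δ : ℝ, 0 < C ∧ 0 < δ ∧ ∀ x : CV d, ND x → ‖x - x₀‖ < δ → ∀ a : ℝ, 0 < a →
      sarea (JS (sp x)) < ENNReal.ofReal a →
      ∃ x' : CV d, ‖x' - x‖ ≤ C * a ^ γ ∧ ND x' ∧ HypTop (sp x') :=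
  main_of p_PTW γ d x₀ hγ hγ2 hd hx₀

end Pool.Agent.W757.RD
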