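import Mathlib
import Pool.Agent.W757.RD.St
import Pool.Agent.H790R3.RB.Basic

/-! Task LF: points of the leaf with nonzero scales are admissible. -/

set_option autoImplicit false

open Topology Filter Metric Set MeasureTheory

open Pool.Agent.H790R3.RB

namespace Pool.Agent.W757.RD

namespace LF

variable {d n s : ℕ} {S : Sys d n s} {KK : Fin s → (Fin n → ℂ) × (ℂ × ℂ) → ℂ}

theorem core {r : ℝ} {N : Set (Fin n → ℂ)} {ω : Fin s → (Fin n → ℂ) × ℂ → ℂ}
    (hK : S.Koe KK) (hL : S.Lin KK N r ω) {x : Fin n → ℂ} (hx : x ∈ N) (k : Fin s)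
    {p : ℂ × ℂ} (hp : p ≠ 0) (L : ℕ) {w : ℂ} (hw : ‖w‖ < r)
    (hcr : cr ((S.F x)^[S.per k * L] p) (S.cht k x (ω k (x, w))) = 0) :
    (x, p) ∈ S.Dom k ∧ S.lam k x ^ L * KK k (x, p) = w := by
  have hxU : x ∈ S.U := hL.NU hx
  have hlam : S.lam k x ≠ 0 := hL.lam0 x hx k
  obtain ⟨hz, hKz⟩ := hL.ωr k x hx w hw
  have hq0 : (S.F x)^[S.per k * L] p ≠ 0 := (S.nd x hxU).iter_ne _ hp
  obtain ⟨a, ha, hq⟩ := (cr_eq_zero_iff hq0 (ch_ne_zero S.b (some k) x _)).1 hcr
  have hdom : ∀ j ≤ L, (x, (S.F x)^[S.per k * j] p) ∈ S.Dom k := by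
    intro j hj
    refine ⟨hxU, hlam, L - j, a, ω k (x, w), ha, hz, ?_⟩
    show (S.F x)^[S.per k * (L - j)] ((S.F x)^[S.per k * j] p) = a • S.cht k x (ω k (x, w))
    rw [← Function.iterate_add_apply, ← Nat.mul_add, Nat.sub_add_cancel hj, hq]
    rfl
  have hiter : ∀ j ≤ L, KK k (x, (S.F x)^[S.per k * j] p) = S.lam k x ^ j * KK k (x, p) := by
    intro j
    induction j with
    | zero =>
      intro _
      simp
    | succ j ih =>
      intro hj
      have h1 : (S.F x)^[S.per k * (j + 1)] p =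
          (S.F x)^[S.per k] ((S.F x)^[S.per k * j] p) := by
        rw [← Function.iterate_add_apply]
        congr 2
        ring
      rw [h1, hK.fe k x _ (hdom j (by omega)), ih (by omega), pow_succ]
      ring
  have hd0 : (x, S.cht k x (ω k (x, w))) ∈ S.Dom k := by
    refine ⟨hxU, hlam, 0, 1, ω k (x, w), one_ne_zero, hz, ?_⟩
    simp
  refine ⟨?_, ?_⟩
  · have h := hdom 0 (Nat.zero_le _)
    simpa using h
  · rw [← hiter L le_rfl, hq]
    exact (hK.hom k x _ hd0 a ha).trans hKz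

end LF

open LF in
theorem LF : StLF := by
  intro d n s l S KK r N ω e A ks ls L ρ₂ K y₀ y Fh hKoe hLin hlam0 hls hsmall hyN hy
  obtain ⟨-, -, hlam, hEr, hyK, hcr⟩ := hy
  have hxU : yx y ∈ S.U := hLin.NU hyN
  have key : ∀ i ∈ A, (yx y, (S.F (yx y))^[ls i] (pc y i, 1)) ∈ S.Dom (ks i) ∧
      KK (ks i) (yx y, (S.F (yx y))^[ls i] (pc y i, 1)) = ys y (ks i) * Fh i := by
    intro i hi
    have hc : ((pc y i, 1) : ℂ × ℂ) ≠ 0 := by
      intro h
      have := congrArg Prod.snd h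
      simp at this
    have hp : (S.F (yx y))^[ls i] (pc y i, 1) ≠ 0 := (S.nd _ hxU).iter_ne _ hc
    have hw : ‖ys y (ks i) * (S.lam (ks i) (yx y₀) ^ L * Fh i)‖ < r := by
      rw [norm_mul]
      exact lt_of_le_of_lt (mul_le_mul_of_nonneg_right (hyK _) (norm_nonneg _)) (hsmall i hi)
    have h1 := hcr i hi
    rw [Nat.add_comm (ls i), Function.iterate_add_apply] at h1
    obtain ⟨h2, h3⟩ := core hKoe hLin hyN (ks i) hp L hw h1
    refine ⟨h2, ?_⟩
    rw [hlam] at h3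
    have h4 : S.lam (ks i) (yx y₀) ^ L ≠ 0 := pow_ne_zero _ (hlam0 _)
    apply mul_left_cancel₀ h4
    rw [h3]
    ring
  refine ⟨fun i hi => (key i hi).1, fun i hi => (key i hi).2, ?_⟩
  intro hk0
  refine ⟨⟨hxU, fun k => hLin.lam0 _ hyN k, hk0, hEr, hls, fun i hi => (key i hi).1⟩, ?_⟩
  intro i hi
  rw [(key i hi).2]
  exact mul_div_cancel_left₀ _ (hk0 _)

end Pool.Agent.W757.RD
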